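import Pool.Agent.Lib.MP_60829e_nt.S.Defs

/-! Task F of Theorem S of MP_60829e_nt: places of a function field of one variable. -/

namespace MP60829e.S

section PlacesAux

theorem transcendental_of_not_mem_range {k : Type*} [Field k] [IsAlgClosed k]
    {K : Type*} [Field K] [Algebra k K] {x : K}
    (hx : x ∉ Set.range (algebraMap k K)) : Transcendental k x := by
  intro halg
  apply hx
  have hint : IsIntegral k x := halg.isIntegral
  have := minpoly.mem_range_of_degree_eq_one k x
    (IsAlgClosed.degree_eq_one_of_irreducible k (minpoly.irreducible hint))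
  simpa using this

theorem isAlgebraic_of_isIntegral_range {k : Type*} [Field k]
    {K : Type*} [Field K] [Algebra k K] {y : K} (hy : IsIntegral (algebraMap k K).range y) :
    IsAlgebraic k y := by
  obtain ⟨p, hp, hpy⟩ := hy
  obtain ⟨q, hq⟩ := Polynomial.map_surjective _ (algebraMap k K).rangeRestrict_surjective p
  refine ⟨q, ?_, ?_⟩
  · rintro rfl
    rw [Polynomial.map_zero] at hq
    exact hp.ne_zero hq.symm
  · rw [Polynomial.aeval_def]
    rw [← hq, Polynomial.eval₂_map] at hpy
    exact hpy

open scoped IntermediateField.algebraAdjoinAdjoin in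
theorem isDedekindDomain_integralClosure {k : Type*} [Field k] [CharZero k] {K : Type*} [Field K]
    [Algebra k K] (z : K) [FiniteDimensional (IntermediateField.adjoin k ({z} : Set K)) K] :
    IsDedekindDomain (integralClosure (Algebra.adjoin k ({z} : Set K)) K) := by
  have h1 : IsPrincipalIdealRing (Algebra.adjoin k ({z} : Set K)) := by
    let f : Polynomial k →ₐ[k] K := Polynomial.aeval z
    have hf : f.range = Algebra.adjoin k ({z} : Set K) :=
      (Algebra.adjoin_singleton_eq_range_aeval k z).symm
    rw [← hf]
    exact IsPrincipalIdealRing.of_surjective f.rangeRestrict f.rangeRestrict_surjective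
  have h2 : IsDedekindDomain (Algebra.adjoin k ({z} : Set K)) := inferInstance
  have h3 : CharZero (IntermediateField.adjoin k ({z} : Set K)) :=
    charZero_of_injective_algebraMap (algebraMap k _).injective
  exact integralClosure.isDedekindDomain (Algebra.adjoin k ({z} : Set K))
    (IntermediateField.adjoin k ({z} : Set K)) K

open scoped IntermediateField.algebraAdjoinAdjoin in
theorem isFractionRing_integralClosure {k : Type*} [Field k] [CharZero k] {K : Type*} [Field K]
    [Algebra k K] (z : K) [FiniteDimensional (IntermediateField.adjoin k ({z} : Set K)) K] :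
    IsFractionRing (integralClosure (Algebra.adjoin k ({z} : Set K)) K) K := by
  exact IsIntegralClosure.isFractionRing_of_finite_extension (Algebra.adjoin k ({z} : Set K))
    (IntermediateField.adjoin k ({z} : Set K)) K _

theorem integralClosure_subset {A K : Type*} [CommRing A] [Field K] [Algebra A K]
    {O : ValuationSubring K} (hA : ∀ a : A, algebraMap A K a ∈ O) {b : K} (hb : IsIntegral A b) :
    b ∈ O := by
  have h1 : IsIntegral O b := by
    obtain ⟨p, hp, hpb⟩ := hb
    let f : A →+* O := (algebraMap A K).codRestrict O.toSubring hA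
    refine ⟨p.map f, hp.map f, ?_⟩
    rw [Polynomial.eval₂_map]
    exact hpb
  obtain ⟨y, hy⟩ := (IsIntegrallyClosed.isIntegral_iff (R := O) (K := K)).1 h1
  rw [← hy]
  exact y.2

/-- The prime of `B` below the maximal ideal of a valuation subring. -/
noncomputable def center {B K : Type*} [CommRing B] [Field K] [Algebra B K]
    (O : ValuationSubring K) (h : ∀ b : B, algebraMap B K b ∈ O) : Ideal B :=
  (IsLocalRing.maximalIdeal O).comap ((algebraMap B K).codRestrict O.toSubring h)

theorem mem_center {B K : Type*} [CommRing B] [Field K] [Algebra B K] {O : ValuationSubring K}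
    {h : ∀ b : B, algebraMap B K b ∈ O} {b : B} :
    b ∈ center O h ↔ algebraMap B K b ∈ O.nonunits := by
  rw [center, Ideal.mem_comap, ← ValuationSubring.coe_mem_nonunits_iff]
  rfl

instance center_isPrime {B K : Type*} [CommRing B] [Field K] [Algebra B K]
    (O : ValuationSubring K) (h : ∀ b : B, algebraMap B K b ∈ O) : (center O h).IsPrime :=
  Ideal.comap_isPrime _ _

theorem inv_mem_of_not_mem_nonunits {K : Type*} [Field K] {O : ValuationSubring K} {s : K}
    (hs : s ∉ O.nonunits) : s⁻¹ ∈ O := by
  by_contra hcon
  exact hs (O.mem_nonunits_iff_or.2 (Or.inr hcon))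

theorem le_of_nonunits_inter_eq {B K : Type*} [CommRing B] [IsDedekindDomain B] [Field K]
    [Algebra B K] [IsFractionRing B K] {O₁ O₂ : ValuationSubring K}
    (h₂ : ∀ b : B, algebraMap B K b ∈ O₂)
    (h : ∀ b : B, algebraMap B K b ∈ O₁.nonunits ↔ algebraMap B K b ∈ O₂.nonunits)
    {z : B} (hz : z ≠ 0) (hz' : algebraMap B K z ∈ O₂.nonunits) :
    O₁ ≤ O₂ := by
  intro x hx
  set p := center O₂ h₂ with hp
  have hp0 : p ≠ ⊥ := by
    intro h0
    apply hz
    have : z ∈ p := mem_center.2 hz'
    rw [h0] at this
    simpa using this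
  have hdvr := IsLocalization.AtPrime.isDiscreteValuationRing_of_dedekind_domain B hp0
    (Localization.AtPrime p)
  obtain ⟨a, b, hb, rfl⟩ := IsFractionRing.div_surjective (A := B) x
  have hb0 : algebraMap B K b ≠ 0 := by
    rw [Ne, IsFractionRing.to_map_eq_zero_iff]
    exact nonZeroDivisors.ne_zero hb
  have hinj : Function.Injective (algebraMap B (Localization.AtPrime p)) :=
    IsLocalization.injective (Localization.AtPrime p) (Ideal.primeCompl_le_nonZeroDivisors p)
  rcases ValuationRing.dvd_total (algebraMap B (Localization.AtPrime p) a)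
    (algebraMap B (Localization.AtPrime p) b) with hdvd | hdvd
  · obtain ⟨c, hc⟩ := hdvd
    obtain ⟨c, s, rfl⟩ := IsLocalization.exists_mk'_eq p.primeCompl c
    have h3 : b * s = a * c := by
      apply hinj
      rw [map_mul, map_mul, hc, mul_assoc, IsLocalization.mk'_spec]
    have hs : algebraMap B K s ∉ O₂.nonunits := fun hcon => s.2 (mem_center.2 hcon)
    have hs1 : algebraMap B K s ∉ O₁.nonunits := fun hcon => hs ((h _).1 hcon)
    have h4 : algebraMap B K b * algebraMap B K s = algebraMap B K a * algebraMap B K c := by
      rw [← map_mul, ← map_mul, h3]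
    have hs0 : algebraMap B K s ≠ 0 := by
      intro h0
      rw [h0] at hs
      exact hs (zero_mem _)
    have hc0 : algebraMap B K c ≠ 0 := by
      intro h0
      rw [h0, mul_zero] at h4
      exact mul_ne_zero hb0 hs0 h4
    have h5 : algebraMap B K a / algebraMap B K b = algebraMap B K s * (algebraMap B K c)⁻¹ := by
      field_simp
      linear_combination -h4
    by_cases hc1 : algebraMap B K c ∈ O₁.nonunits
    · exfalso
      apply hs1
      have h6 : algebraMap B K s = algebraMap B K a / algebraMap B K b * algebraMap B K c := by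
        rw [h5]
        field_simp
      rw [h6, ValuationSubring.mem_nonunits_iff, map_mul]
      rw [ValuationSubring.mem_nonunits_iff] at hc1
      calc _ ≤ 1 * O₁.valuation (algebraMap B K c) := by
              gcongr
              exact (ValuationSubring.valuation_le_one_iff _ _).2 hx
        _ < 1 := by rwa [one_mul]
    · have hc2 : algebraMap B K c ∉ O₂.nonunits := fun hcon => hc1 ((h _).2 hcon)
      rw [h5]
      exact mul_mem (h₂ _) (inv_mem_of_not_mem_nonunits hc2)
  · obtain ⟨c, hc⟩ := hdvd
    obtain ⟨c, s, rfl⟩ := IsLocalization.exists_mk'_eq p.primeCompl c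
    have h3 : a * s = b * c := by
      apply hinj
      rw [map_mul, map_mul, hc, mul_assoc, IsLocalization.mk'_spec]
    have hs : algebraMap B K s ∉ O₂.nonunits := fun hcon => s.2 (mem_center.2 hcon)
    have h4 : algebraMap B K a * algebraMap B K s = algebraMap B K b * algebraMap B K c := by
      rw [← map_mul, ← map_mul, h3]
    have hs0 : algebraMap B K s ≠ 0 := by
      intro h0
      rw [h0] at hs
      exact hs (zero_mem _)
    have h5 : algebraMap B K a / algebraMap B K b = algebraMap B K c * (algebraMap B K s)⁻¹ := by
      field_simp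
      linear_combination h4
    rw [h5]
    exact mul_mem (h₂ _) (inv_mem_of_not_mem_nonunits hs)

end PlacesAux

section F

variable {k : Type*} [Field k] [IsAlgClosed k] [CharZero k] {K : Type*} [Field K] [Algebra k K]

omit [CharZero k] in
/-- F1. -/
theorem IsCurveField.finiteDimensional (hK : IsCurveField k K) {x : K}
    (hx : x ∉ Set.range (algebraMap k K)) :
    FiniteDimensional (IntermediateField.adjoin k ({x} : Set K)) K := by
  obtain ⟨t, ht⟩ := hK
  have htr := transcendental_of_not_mem_range hx
  have h1 : AlgebraicIndependent k (fun _ : Unit => x) := by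
    rw [algebraicIndependent_unique_type_iff]
    exact htr
  have halg : Algebra.IsAlgebraic (IntermediateField.adjoin k ({t} : Set K)) K := inferInstance
  have halg2 : Algebra.IsAlgebraic (Algebra.adjoin k ({t} : Set K)) K :=
    ⟨fun y => IntermediateField.isAlgebraic_adjoin_iff.1 (halg.1 y)⟩
  have h2 : Algebra.trdeg k K ≤ 1 := by
    have := Algebra.IsAlgebraic.trdeg_le_cardinalMk k ({t} : Set K)
    simpa using this
  have h3 : IsTranscendenceBasis k (fun _ : Unit => x) := by
    apply AlgebraicIndependent.isTranscendenceBasis_of_lift_trdeg_le_of_finite h1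
    simpa using h2
  have h4 := h3.isAlgebraic_field
  rw [Set.range_const] at h4
  have h5 : Algebra.EssFiniteType k (IntermediateField.adjoin k ({t} : Set K)) := by
    rw [IntermediateField.essFiniteType_iff]
    exact IntermediateField.fg_adjoin_of_finite (Set.finite_singleton t)
  have h6 : Algebra.EssFiniteType k K :=
    Algebra.EssFiniteType.comp k (IntermediateField.adjoin k ({t} : Set K)) K
  have h7 : Algebra.EssFiniteType (IntermediateField.adjoin k ({x} : Set K)) K :=
    Algebra.EssFiniteType.of_comp k _ K
  exact Algebra.finite_of_essFiniteType_of_isAlgebraic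

/-- F2. Only finitely many places are poles of a given element. (With `z = e⁻¹`, a valuation
subring `O ∌ e` over `k` contains the integral closure `B` of `k[z]` in `K`, a Dedekind domain, and
equals the localisation of `B` at a prime containing `z`.) -/
theorem IsCurveField.finite_places (hK : IsCurveField k K) (e : K) :
    {O : ValuationSubring K | Over k O ∧ e ∉ O}.Finite := by
  by_cases he : e ∈ Set.range (algebraMap k K)
  · obtain ⟨c, rfl⟩ := he
    convert Set.finite_empty
    ext O
    simp only [Set.mem_ofPred_eq, Set.mem_empty_iff_false, iff_false, not_and, not_not]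
    intro hO
    exact hO c
  have he0 : e ≠ 0 := by
    rintro rfl
    exact he ⟨0, map_zero _⟩
  set z : K := e⁻¹ with hzdef
  have hz : z ∉ Set.range (algebraMap k K) := by
    rintro ⟨c, hc⟩
    apply he
    refine ⟨c⁻¹, ?_⟩
    rw [map_inv₀, hc, hzdef, inv_inv]
  have hz0 : z ≠ 0 := inv_ne_zero he0
  have hfin := hK.finiteDimensional hz
  have hD := isDedekindDomain_integralClosure (k := k) z
  have hF := isFractionRing_integralClosure (k := k) z
  set A := Algebra.adjoin k ({z} : Set K) with hA
  set B := integralClosure A K with hB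
  have hzA : z ∈ A := Algebra.subset_adjoin rfl
  let zB : B := ⟨z, B.algebraMap_mem (⟨z, hzA⟩ : A)⟩
  have hzB : algebraMap B K zB = z := rfl
  have hzB0 : zB ≠ 0 := by
    intro h0
    apply hz0
    rw [← hzB, h0, map_zero]
  have hsub : ∀ O : ValuationSubring K, Over k O → e ∉ O → ∀ b : B, algebraMap B K b ∈ O := by
    intro O hO heO b
    have hzO : z ∈ O := by
      rcases O.mem_or_inv_mem e with h | h
      · exact absurd h heO
      · exact h
    apply integralClosure_subset (A := A) _ b.2
    intro a
    have h1 : A ≤ { O.toSubring with algebraMap_mem' := hO : Subalgebra k K} := by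
      rw [hA]
      apply Algebra.adjoin_le
      rintro _ rfl
      exact hzO
    exact h1 a.2
  have hnon : ∀ O : ValuationSubring K, e ∉ O → z ∈ O.nonunits := by
    intro O heO
    rw [hzdef, ValuationSubring.inv_mem_nonunits_iff]
    exact Or.inr heO
  have hI : Ideal.span ({zB} : Set B) ≠ 0 := by
    rw [Ne, Ideal.zero_eq_bot, Ideal.span_singleton_eq_bot]
    exact hzB0
  refine Set.Finite.of_injOn (f := fun O : ValuationSubring K =>
    {b : B | algebraMap B K b ∈ O.nonunits})
    (t := (fun v : IsDedekindDomain.HeightOneSpectrum B => (v.asIdeal : Set B)) ''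
      {v | v.asIdeal ∣ Ideal.span {zB}}) ?_ ?_ ((Ideal.finite_factors hI).image _)
  · rintro O ⟨hO, heO⟩
    have hb := hsub O hO heO
    have hc : center O hb ≠ ⊥ := by
      intro h0
      apply hzB0
      have : zB ∈ center O hb := mem_center.2 (hnon O heO)
      rw [h0] at this
      simpa using this
    refine ⟨⟨center O hb, center_isPrime O hb, hc⟩, ?_, ?_⟩
    · show center O hb ∣ Ideal.span {zB}
      rw [Ideal.dvd_span_singleton]
      exact mem_center.2 (hnon O heO)
    · ext b
      exact mem_center
  · rintro O₁ ⟨hO₁, heO₁⟩ O₂ ⟨hO₂, heO₂⟩ h12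
    have h : ∀ b : B, algebraMap B K b ∈ O₁.nonunits ↔ algebraMap B K b ∈ O₂.nonunits := by
      intro b
      exact Set.ext_iff.1 h12 b
    apply le_antisymm
    · exact le_of_nonunits_inter_eq (hsub O₂ hO₂ heO₂) h hzB0 (hnon O₂ heO₂)
    · exact le_of_nonunits_inter_eq (hsub O₁ hO₁ heO₁) (fun b => (h b).symm) hzB0 (hnon O₁ heO₁)

omit [CharZero k] in
/-- F3. -/
theorem exists_over_not_mem {x : K} (hx : x ∉ Set.range (algebraMap k K)) :
    ∃ O : ValuationSubring K, Over k O ∧ x ∉ O := by
  have h1 : IsIntegrallyClosedIn (algebraMap k K).range K := by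
    rw [Subring.isIntegrallyClosedIn_iff]
    intro y hy
    by_contra hcon
    exact transcendental_of_not_mem_range (k := k) (x := y) (by simpa using hcon)
      (isAlgebraic_of_isIntegral_range hy)
  have hx' : x ∉ (algebraMap k K).range := by simpa using hx
  obtain ⟨V, hV, hxV⟩ := Subring.exists_le_valuationSubring_of_isIntegrallyClosedIn hx'
  exact ⟨V, fun c => hV ⟨c, rfl⟩, hxV⟩

omit [CharZero k] in
/-- F4. -/
theorem mem_range_of_forall_mem {x : K} (hx : ∀ O : ValuationSubring K, Over k O → x ∈ O) :
    x ∈ Set.range (algebraMap k K) := by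
  by_contra hcon
  obtain ⟨O, hO, hxO⟩ := exists_over_not_mem (k := k) hcon
  exact hxO (hx O hO)

end F

end MP60829e.S
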