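import Mathlib

/-! Definitions for Theorem S of MP_60829e_nt (planes of logarithms with a smooth relation). -/

open MvPolynomial

namespace MP60829e.S

/-- A polynomial in two variables of degree at least two whose leading form is squarefree and
which has no singular zero (so its projective closure is smooth and transversal at infinity). -/
structure Good {k : Type*} [Field k] (F : MvPolynomial (Fin 2) k) : Prop where
  deg : 2 ≤ F.totalDegree
  lead : Squarefree (homogeneousComponent F.totalDegree F)
  smooth : ∀ a : Fin 2 → k, eval a F = 0 → ∃ i, eval a (pderiv i F) ≠ 0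

/-- The valuation subring `O` of `K` contains `k`. -/
def Over (k : Type*) {K : Type*} [Field k] [Field K] [Algebra k K] (O : ValuationSubring K) :
    Prop := ∀ c : k, algebraMap k K c ∈ O

/-- `z ∈ O + O x₀ + O x₁`. -/
def Bdd {K : Type*} [Field K] (O : ValuationSubring K) (x : Fin 2 → K) (z : K) : Prop :=
  ∃ a b c : K, a ∈ O ∧ b ∈ O ∧ c ∈ O ∧ z = a + b * x 0 + c * x 1

/-- `K` is finite over `k(t)` for some `t`. -/
def IsCurveField (k K : Type*) [Field k] [Field K] [Algebra k K] : Prop :=
  ∃ t : K, FiniteDimensional (IntermediateField.adjoin k ({t} : Set K)) K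

end MP60829e.S
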