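import Mathlib
import Pool.Agent.Lib.MP_60829e_nt.S.Defs

/-! Affine changes of coordinates preserve `Good` (Theorem S of MP_60829e_nt, Task I2). -/

open MvPolynomial

namespace MP60829e.S

section aux

variable {k : Type*} [Field k]

theorem aff_deg_aux {f g : Fin 2 → MvPolynomial (Fin 2) k}
    (hf : ∀ i, (f i).totalDegree ≤ 1) (hg : ∀ i, (g i).totalDegree ≤ 1)
    (hfg : ∀ i, (f i - g i).totalDegree = 0) (d : ℕ) :
    ∀ (m : Fin 2 →₀ ℕ) (c : k), m.degree = d →
      (aeval f (monomial m c)).totalDegree ≤ d ∧
      ∀ n, d ≤ n + 1 →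
        (aeval f (monomial m c) - aeval g (monomial m c)).totalDegree ≤ n := by
  induction d with
  | zero =>
    intro m c hm
    have : m = 0 := by
      rw [Finsupp.degree_eq_zero_iff] at hm
      exact hm
    subst this
    have e : (monomial 0 c : MvPolynomial (Fin 2) k) = C c := rfl
    rw [e]
    simp
  | succ d ih =>
    intro m c hm
    have hex : ∃ i, m i ≠ 0 := by
      by_contra hcon
      push Not at hcon
      have : m = 0 := by ext i; simpa using hcon i
      rw [this] at hm
      simp at hm
    obtain ⟨i, hi⟩ := hex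
    set m' : Fin 2 →₀ ℕ := m - Finsupp.single i 1 with hm'
    have hmm : m = m' + Finsupp.single i 1 := by
      rw [hm', tsub_add_cancel_of_le]
      rw [Finsupp.single_le_iff]
      omega
    have hd : m'.degree = d := by
      have h1 : m.degree = m'.degree + 1 := by
        rw [hmm]
        simp [Finsupp.degree_single]
      omega
    have hmon : (monomial m c : MvPolynomial (Fin 2) k) = monomial m' c * X i := by
      rw [hmm, X, monomial_mul, mul_one]
    obtain ⟨h1, h2⟩ := ih m' c hd
    rw [hmon, map_mul, map_mul, aeval_X, aeval_X]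
    refine ⟨?_, fun n hn => ?_⟩
    · exact (totalDegree_mul _ _).trans (add_le_add h1 (hf i))
    · have e : aeval f (monomial m' c) * f i - aeval g (monomial m' c) * g i =
          aeval f (monomial m' c) * (f i - g i) +
            (aeval f (monomial m' c) - aeval g (monomial m' c)) * g i := by ring
      rw [e]
      refine (totalDegree_add _ _).trans (max_le ?_ ?_)
      · refine (totalDegree_mul _ _).trans ?_
        rw [hfg i]
        omega
      · rcases Nat.eq_zero_or_pos n with h0 | h0
        · -- then `d = 0`
          have hd0 : d = 0 := by omega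
          have hm0 : m' = 0 := by
            rw [← Finsupp.degree_eq_zero_iff, hd, hd0]
          have e0 : (monomial m' c : MvPolynomial (Fin 2) k) = C c := by rw [hm0]; rfl
          rw [e0]
          simp
        · refine (totalDegree_mul _ _).trans ?_
          have := h2 (n - 1) (by omega)
          have h3 := hg i
          omega

theorem aff_deg {f : Fin 2 → MvPolynomial (Fin 2) k}
    (hf : ∀ i, (f i).totalDegree ≤ 1) (p : MvPolynomial (Fin 2) k) :
    (aeval f p).totalDegree ≤ p.totalDegree := by
  conv_lhs => rw [p.as_sum, map_sum]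
  refine totalDegree_finsetSum_le fun m hm => ?_
  exact ((aff_deg_aux hf hf (by simp) m.degree m _ rfl).1).trans (le_totalDegree hm)

theorem aff_diff {f g : Fin 2 → MvPolynomial (Fin 2) k}
    (hf : ∀ i, (f i).totalDegree ≤ 1) (hg : ∀ i, (g i).totalDegree ≤ 1)
    (hfg : ∀ i, (f i - g i).totalDegree = 0) (p : MvPolynomial (Fin 2) k) (n : ℕ)
    (hp : p.totalDegree ≤ n + 1) :
    (aeval f p - aeval g p).totalDegree ≤ n := by
  have e : aeval f p - aeval g p = ∑ m ∈ p.support,
      (aeval f (monomial m (coeff m p)) - aeval g (monomial m (coeff m p))) := by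
    conv_lhs => rw [p.as_sum, map_sum, map_sum]
    rw [Finset.sum_sub_distrib]
  rw [e]
  refine totalDegree_finsetSum_le fun m hm => ?_
  exact (aff_deg_aux hf hg hfg m.degree m _ rfl).2 n ((le_totalDegree hm).trans hp)

theorem aff_comp {g : Fin 2 → MvPolynomial (Fin 2) k} (hg : ∀ i, (g i).IsHomogeneous 1)
    (p : MvPolynomial (Fin 2) k) (n : ℕ) :
    homogeneousComponent n (aeval g p) = aeval g (homogeneousComponent n p) := by
  have h : ∀ i, (aeval g (homogeneousComponent i p)).IsHomogeneous i := fun i => by
    simpa using (homogeneousComponent_isHomogeneous i p).aeval g hg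
  conv_lhs => rw [← sum_homogeneousComponent p, map_sum, map_sum]
  by_cases hn : n ≤ p.totalDegree
  · rw [Finset.sum_eq_single n]
    · rw [homogeneousComponent_of_mem (h n), if_pos rfl]
    · intro i _ hi
      rw [homogeneousComponent_of_mem (h i), if_neg (Ne.symm hi)]
    · intro hcon
      simp only [Finset.mem_range, not_lt] at hcon
      omega
  · rw [homogeneousComponent_eq_zero (h := not_le.1 hn), map_zero]
    refine Finset.sum_eq_zero fun i hi => ?_
    rw [homogeneousComponent_of_mem (h i), if_neg]
    simp only [Finset.mem_range] at hi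
    omega

theorem aff_chain (f : Fin 2 → MvPolynomial (Fin 2) k) (p : MvPolynomial (Fin 2) k) (i : Fin 2) :
    pderiv i (aeval f p) = ∑ j, aeval f (pderiv j p) * pderiv i (f j) := by
  induction p using MvPolynomial.induction_on with
  | C a => simp
  | add p q hp hq =>
    simp only [map_add, hp, hq, add_mul, Finset.sum_add_distrib]
  | mul_X p j hp =>
    rw [map_mul, aeval_X, Derivation.leibniz, hp]
    simp only [Derivation.leibniz, map_add, smul_eq_mul, map_mul, aeval_X, pderiv_X, add_mul,
      Finset.sum_add_distrib]
    congr 1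
    · rw [Finset.sum_eq_single j]
      · simp
      · intro l _ hl
        simp [hl.symm]
      · simp
    · rw [Finset.mul_sum]
      refine Finset.sum_congr rfl fun l _ => ?_
      ring

/-- the linear substitution attached to a matrix -/
noncomputable def linSub (A : Matrix (Fin 2) (Fin 2) k) (i : Fin 2) : MvPolynomial (Fin 2) k :=
  ∑ j, C (A i j) * X j

theorem linSub_hom (A : Matrix (Fin 2) (Fin 2) k) (i : Fin 2) :
    (linSub A i).IsHomogeneous 1 :=
  IsHomogeneous.sum _ _ _ fun _ _ => isHomogeneous_C_mul_X _ _

theorem linSub_comp (A B : Matrix (Fin 2) (Fin 2) k) (p : MvPolynomial (Fin 2) k) :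
    aeval (linSub A) (aeval (linSub B) p) = aeval (linSub (B * A)) p := by
  have h : (aeval (linSub A)).comp (aeval (linSub B)) =
      (aeval (linSub (B * A)) : MvPolynomial (Fin 2) k →ₐ[k] MvPolynomial (Fin 2) k) := by
    ext1 i
    simp only [AlgHom.comp_apply, aeval_X, linSub, map_mul, algHom_C, algebraMap_eq,
      Matrix.mul_apply, Fin.sum_univ_two, map_add]
    ring
  exact DFunLike.congr_fun h p

theorem linSub_one (p : MvPolynomial (Fin 2) k) :
    aeval (linSub (1 : Matrix (Fin 2) (Fin 2) k)) p = p := by
  have h : (aeval (linSub (1 : Matrix (Fin 2) (Fin 2) k))) =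
      AlgHom.id k (MvPolynomial (Fin 2) k) := by
    ext1 i
    simp only [aeval_X, linSub, Matrix.one_apply, AlgHom.id_apply]
    rw [Finset.sum_eq_single i]
    · simp
    · intro j _ hj
      simp [hj.symm]
    · simp
  exact DFunLike.congr_fun h p

/-- the linear substitution as an equivalence -/
noncomputable def linEquiv (A B : Matrix (Fin 2) (Fin 2) k) (h1 : A * B = 1) (h2 : B * A = 1) :
    MvPolynomial (Fin 2) k ≃ₐ[k] MvPolynomial (Fin 2) k :=
  AlgEquiv.ofAlgHom (aeval (linSub A)) (aeval (linSub B))
    (by
      refine AlgHom.ext fun p => ?_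
      rw [AlgHom.comp_apply, linSub_comp, h2, linSub_one]; rfl)
    (by
      refine AlgHom.ext fun p => ?_
      rw [AlgHom.comp_apply, linSub_comp, h1, linSub_one]; rfl)

theorem squarefree_mulEquiv {M N : Type*} [CommMonoid M] [CommMonoid N] (e : M ≃* N) {x : M}
    (hx : Squarefree x) : Squarefree (e x) := by
  intro y hy
  have h1 : e.symm y * e.symm y ∣ x := by
    have := map_dvd e.symm hy
    rwa [map_mul, MulEquiv.symm_apply_apply] at this
  have h2 := hx _ h1
  have h3 := h2.map e
  rwa [MulEquiv.apply_symm_apply] at h3

end aux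

/-- Task I2 (Affine.lean). Affine changes of coordinates preserve `Good`. (Substitution is an algebra
automorphism with inverse of the same form; it does not increase the total degree; the leading form
is changed by the linear substitution, an automorphism which preserves homogeneous polynomials;
chain rule for the partial derivatives.) -/
theorem Good.affine {k : Type*} [Field k] {F : MvPolynomial (Fin 2) k} (hF : Good F)
    (A : Matrix (Fin 2) (Fin 2) k) (b : Fin 2 → k) (hA : A.det ≠ 0) :
    Good (aeval (fun i => C (b i) + ∑ j, C (A i j) * X j : Fin 2 → MvPolynomial (Fin 2) k) F) := by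
  set f : Fin 2 → MvPolynomial (Fin 2) k := fun i => C (b i) + ∑ j, C (A i j) * X j with hf
  have hfl : ∀ i, f i = C (b i) + linSub A i := fun i => rfl
  have hg1 : ∀ i, (linSub A i).totalDegree ≤ 1 := fun i => (linSub_hom A i).totalDegree_le
  have hf1 : ∀ i, (f i).totalDegree ≤ 1 := fun i => by
    rw [hfl]
    refine (totalDegree_add _ _).trans (max_le ?_ (hg1 i))
    simp
  have hfg : ∀ i, (f i - linSub A i).totalDegree = 0 := fun i => by
    rw [hfl, add_sub_cancel_right, totalDegree_C]
  have hunit : IsUnit A.det := isUnit_iff_ne_zero.2 hA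
  have hAB : A * A⁻¹ = 1 := Matrix.mul_nonsing_inv A hunit
  have hBA : A⁻¹ * A = 1 := Matrix.nonsing_inv_mul A hunit
  set e := linEquiv A A⁻¹ hAB hBA with he
  have hee : ∀ p, e p = aeval (linSub A) p := fun p => rfl
  obtain ⟨n, hn⟩ : ∃ n, F.totalDegree = n + 1 := ⟨F.totalDegree - 1, by have := hF.deg; omega⟩
  -- the top component
  have htop : homogeneousComponent (n + 1) (aeval f F) = e (homogeneousComponent (n + 1) F) := by
    have h1 : (aeval f F - aeval (linSub A) F).totalDegree ≤ n :=
      aff_diff hf1 hg1 hfg F n hn.le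
    have h2 : homogeneousComponent (n + 1) (aeval f F - aeval (linSub A) F) = 0 :=
      homogeneousComponent_eq_zero (h := by omega)
    rw [map_sub, sub_eq_zero] at h2
    rw [h2, aff_comp (linSub_hom A), hee]
  have hlead := hF.lead
  rw [hn] at hlead
  have hsq : Squarefree (homogeneousComponent (n + 1) (aeval f F)) := by
    rw [htop]
    exact squarefree_mulEquiv e.toMulEquiv hlead
  have hdeg : (aeval f F).totalDegree = n + 1 := by
    apply le_antisymm
    · exact (aff_deg hf1 F).trans hn.le
    · by_contra hcon
      exact hsq.ne_zero (homogeneousComponent_eq_zero (h := by omega))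
  refine ⟨?_, ?_, ?_⟩
  · rw [hdeg, ← hn]; exact hF.deg
  · rw [hdeg]; exact hsq
  · intro a ha
    have hev : ∀ p : MvPolynomial (Fin 2) k, eval a (aeval f p) =
        eval (fun i => b i + ∑ j, A i j * a j) p := by
      intro p
      have h : (aeval a : MvPolynomial (Fin 2) k →ₐ[k] k).comp (aeval f) =
          aeval (fun i => b i + ∑ j, A i j * a j) := by
        ext1 i
        simp [hf, aeval_X]
      have h' := DFunLike.congr_fun h p
      rw [AlgHom.comp_apply] at h'
      rw [← coe_aeval_eq_eval, ← coe_aeval_eq_eval]
      exact h'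
    rw [hev] at ha
    obtain ⟨i0, hi0⟩ := hF.smooth _ ha
    by_contra hcon
    push Not at hcon
    set v : Fin 2 → k := fun j => eval (fun i => b i + ∑ j, A i j * a j) (pderiv j F) with hv
    have hpd : ∀ i j, pderiv i (f j) = C (A j i) := by
      intro i j
      rw [hfl, linSub, map_add, pderiv_C, zero_add, map_sum, Finset.sum_eq_single i]
      · rw [Derivation.leibniz, pderiv_X_self, pderiv_C]
        simp
      · intro l _ hl
        rw [Derivation.leibniz, pderiv_C, pderiv_X_of_ne hl]
        simp
      · simp
    have hz : Matrix.vecMul v A = 0 := by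
      ext i
      have h1 := hcon i
      rw [aff_chain, map_sum] at h1
      simp only [map_mul, hev, hpd, eval_C] at h1
      exact h1
    have hv0 : v = 0 := by
      have h2 : Matrix.vecMul (Matrix.vecMul v A) A⁻¹ = 0 := by rw [hz]; simp
      rwa [Matrix.vecMul_vecMul, hAB, Matrix.vecMul_one] at h2
    exact hi0 (congrFun hv0 i0)

end MP60829e.S
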