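import Mathlib
import Pool.Agent.Lib.MP_60829e_nt.S.Defs

/-! First order expansion of polynomials. -/

open MvPolynomial

namespace MP60829e.S

theorem aeval_dual {σ A B : Type*} [Fintype σ] [DecidableEq σ] [CommRing A] [CommRing B]
    [Algebra A B] (x δ : σ → B) (P : MvPolynomial σ A) :
    aeval (fun i => (TrivSqZeroExt.inl (x i) + TrivSqZeroExt.inr (δ i) : TrivSqZeroExt B B)) P
      = TrivSqZeroExt.inl (aeval x P)
        + TrivSqZeroExt.inr (∑ i, aeval x (pderiv i P) * δ i) := by
  induction P using MvPolynomial.induction_on with
  | C a =>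
    simp [TrivSqZeroExt.algebraMap_eq_inl']
  | add p q hp hq =>
    rw [map_add, hp, hq]
    simp only [map_add, add_mul, Finset.sum_add_distrib, TrivSqZeroExt.inl_add,
      TrivSqZeroExt.inr_add]
    ring
  | mul_X p j hp =>
    rw [map_mul, hp, aeval_X]
    have h1 : ∀ i, aeval x (pderiv i (p * X j)) * δ i
        = x j * (aeval x (pderiv i p) * δ i) + aeval x p * (if i = j then δ i else 0) := by
      intro i
      rw [Derivation.leibniz, pderiv_X]
      simp only [smul_eq_mul, map_add, map_mul, aeval_X]
      by_cases hij : i = j
      · subst hij; simp; ring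
      · have : j ≠ i := fun h => hij h.symm
        simp [hij]
        ring
    simp only [h1, Finset.sum_add_distrib, ← Finset.mul_sum, Finset.sum_ite_eq', Finset.mem_univ,
      if_true, map_mul, aeval_X]
    ext
    · simp
    · simp
      ring

end MP60829e.S
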