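import Mathlib

/-! # MP_60829e_nt, Theorem S, Task A: zero tangent spaces imply finiteness -/

open MvPolynomial

namespace MP60829e.S

section TaskA

variable {k K ι : Type*} [Field k] [Field K] [Algebra k K]

/-- Apply a `k`-linear functional to all coefficients. -/
noncomputable def lamFun (l : K →ₗ[k] k) (p : MvPolynomial ι K) : MvPolynomial ι k :=
  AddMonoidAlgebra.map (l : K →+ k) p

theorem coeff_lamFun (l : K →ₗ[k] k) (p : MvPolynomial ι K) (m : ι →₀ ℕ) :
    coeff m (lamFun l p) = l (coeff m p) := by
  rfl

/-- Apply a `k`-linear functional to all coefficients, as a linear map. -/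
noncomputable def lamStar (l : K →ₗ[k] k) : MvPolynomial ι K →ₗ[k] MvPolynomial ι k where
  toFun := lamFun l
  map_add' p q := by
    ext m
    simp only [coeff_lamFun, coeff_add, map_add]
  map_smul' c p := by
    ext m
    simp only [coeff_lamFun, coeff_smul, map_smul, RingHom.id_apply]

theorem coeff_lamStar (l : K →ₗ[k] k) (p : MvPolynomial ι K) (m : ι →₀ ℕ) :
    coeff m (lamStar l p) = l (coeff m p) := by
  rfl

theorem lamStar_monomial (l : K →ₗ[k] k) (m : ι →₀ ℕ) (c : K) :
    lamStar l (monomial m c) = monomial m (l c) := by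
  classical
  ext n
  rw [coeff_lamStar, coeff_monomial, coeff_monomial]
  split_ifs <;> simp

theorem eval_lamStar (l : K →ₗ[k] k) (s : ι → k) (p : MvPolynomial ι K) :
    eval s (lamStar l p) = l (eval (fun i => algebraMap k K (s i)) p) := by
  induction p using MvPolynomial.induction_on' with
  | monomial m c =>
    rw [lamStar_monomial, eval_monomial, eval_monomial]
    have : (m.prod fun n e => (algebraMap k K (s n)) ^ e) =
        algebraMap k K (m.prod fun n e => s n ^ e) := by
      simp [Finsupp.prod, map_prod, map_pow]
    rw [this, mul_comm c, ← Algebra.smul_def, map_smul, smul_eq_mul, mul_comm]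
  | add p q hp hq => simp only [map_add, hp, hq]

theorem pderiv_lamStar (l : K →ₗ[k] k) (i : ι) (p : MvPolynomial ι K) :
    pderiv i (lamStar l p) = lamStar l (pderiv i p) := by
  induction p using MvPolynomial.induction_on' with
  | monomial m c =>
    rw [lamStar_monomial, pderiv_monomial, pderiv_monomial, lamStar_monomial]
    congr 1
    rw [mul_comm c, ← nsmul_eq_mul, map_nsmul, nsmul_eq_mul, mul_comm]
  | add p q hp hq => simp only [map_add, hp, hq]

/-- First order Taylor expansion at a point. -/
theorem taylor_mem_sq [Fintype ι] (s : ι → k) (f : MvPolynomial ι k) :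
    f - (C (eval s f) + ∑ i, C (eval s (pderiv i f)) * (X i - C (s i))) ∈
      (RingHom.ker (eval s)) ^ 2 := by
  classical
  have hX : ∀ j : ι, (X j - C (s j) : MvPolynomial ι k) ∈ RingHom.ker (eval s) := by
    intro j; simp [RingHom.mem_ker]
  induction f using MvPolynomial.induction_on with
  | C a => simp
  | add p q hp hq =>
    have := Ideal.add_mem _ hp hq
    convert this using 1
    simp only [map_add, add_mul, Finset.sum_add_distrib]
    ring
  | mul_X p j hp =>
    have h1 : ∑ i, C (eval s (pderiv i (p * X j))) * (X i - C (s i)) =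
        C (s j) * ∑ i, C (eval s (pderiv i p)) * (X i - C (s i)) +
          C (eval s p) * (X j - C (s j)) := by
      rw [Finset.mul_sum]
      have h2 : ∀ i : ι, C (eval s (pderiv i (p * X j))) * (X i - C (s i)) =
          C (s j) * (C (eval s (pderiv i p)) * (X i - C (s i))) +
            (if i = j then C (eval s p) * (X i - C (s i)) else 0) := by
        intro i
        rw [Derivation.leibniz, pderiv_X]
        simp only [smul_eq_mul, map_add, map_mul, eval_X]
        by_cases hij : i = j
        · subst hij
          simp only [Pi.single_eq_same, map_one, mul_one, if_true]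
          ring
        · rw [if_neg hij, Pi.single_eq_of_ne (fun h => hij h.symm)]
          simp only [map_zero, mul_zero, zero_add, add_zero]
          ring
      rw [Finset.sum_congr rfl (fun i _ => h2 i), Finset.sum_add_distrib]
      congr 1
      rw [Finset.sum_ite_eq' Finset.univ j (fun i => C (eval s p) * (X i - C (s i)))]
      simp
    have h3 : p * X j - (C (eval s (p * X j)) +
        ∑ i, C (eval s (pderiv i (p * X j))) * (X i - C (s i))) =
        C (s j) * (p - (C (eval s p) + ∑ i, C (eval s (pderiv i p)) * (X i - C (s i)))) +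
          (p - C (eval s p)) * (X j - C (s j)) := by
      rw [h1]
      simp only [map_mul, eval_X]
      ring
    rw [h3]
    refine Ideal.add_mem _ (Ideal.mul_mem_left _ _ hp) ?_
    rw [sq]
    refine Ideal.mul_mem_mul ?_ (hX j)
    simp [RingHom.mem_ker]

theorem finite_of_rigid [Fintype ι]
    (Φ : MvPolynomial ι K) (S : Set (ι → k))
    (h0 : ∀ s ∈ S, eval (fun i => algebraMap k K (s i)) Φ = 0)
    (h1 : ∀ s ∈ S, ∀ d : ι → k,
      ∑ i, algebraMap k K (d i) * eval (fun i => algebraMap k K (s i)) (pderiv i Φ) = 0 → d = 0) :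
    S.Finite := by
  classical
  set I : Ideal (MvPolynomial ι k) := Ideal.span (Set.range fun l : K →ₗ[k] k => lamStar l Φ)
    with hI
  -- the maximal ideal of a point
  have hIm : ∀ s ∈ S, I ≤ RingHom.ker (eval s) := by
    intro s hs
    rw [hI, Ideal.span_le]
    rintro _ ⟨l, rfl⟩
    simp only [SetLike.mem_coe, RingHom.mem_ker]
    rw [eval_lamStar, h0 s hs, map_zero]
  have hmax : ∀ s : ι → k, (RingHom.ker (eval s)).IsMaximal := by
    intro s
    exact RingHom.ker_isMaximal_of_surjective (eval s) (fun c => ⟨C c, by simp⟩)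
  have hsurj : ∀ s ∈ S, ∀ w : ι → k, ∃ l : K →ₗ[k] k, ∀ i,
      l (eval (fun i => algebraMap k K (s i)) (pderiv i Φ)) = w i := by
    intro s hs w
    set g : ι → K := fun i => eval (fun i => algebraMap k K (s i)) (pderiv i Φ) with hg
    let T : Module.Dual k K →ₗ[k] (ι → k) := LinearMap.pi (fun i => Module.Dual.eval k K (g i))
    have hT : LinearMap.range T = ⊤ := by
      by_contra hne
      obtain ⟨φ, hφ, hφ2⟩ := Submodule.exists_le_ker_of_lt_top _ (lt_top_iff_ne_top.2 hne)
      apply hφ
      have hφs : ∀ w : ι → k, φ w = ∑ i, φ (Pi.single i 1) * w i := by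
        intro w
        conv_lhs => rw [← Finset.univ_sum_single w]
        rw [map_sum]
        refine Finset.sum_congr rfl fun i _ => ?_
        have : (Pi.single i (w i) : ι → k) = w i • Pi.single i 1 := by
          rw [← Pi.single_smul, smul_eq_mul, mul_one]
        rw [this, map_smul, smul_eq_mul, mul_comm]
      have hd : (fun i => φ (Pi.single i 1)) = (0 : ι → k) := by
        apply h1 s hs
        rw [← Module.forall_dual_apply_eq_zero_iff k]
        intro l
        have h3 : φ (T l) = 0 := hφ2 (LinearMap.mem_range_self T l)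
        rw [hφs] at h3
        rw [map_sum]
        rw [← h3]
        refine Finset.sum_congr rfl fun i _ => ?_
        rw [← Algebra.smul_def, map_smul, smul_eq_mul]
        rfl
      ext w
      have := congrFun hd w
      simpa using this
    obtain ⟨l, hl⟩ : w ∈ LinearMap.range T := hT ▸ Submodule.mem_top
    refine ⟨l, fun i => ?_⟩
    rw [← hl]
    rfl
  have hsq : ∀ s ∈ S, RingHom.ker (eval s) ≤ I ⊔ (RingHom.ker (eval s)) ^ 2 := by
    intro s hs f hf
    obtain ⟨l, hl⟩ := hsurj s hs (fun i => eval s (pderiv i f))
    have h5 : f - lamStar l Φ ∈ (RingHom.ker (eval s)) ^ 2 := by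
      have := taylor_mem_sq s (f - lamStar l Φ)
      have h6 : C (eval s (f - lamStar l Φ)) + ∑ i, C (eval s (pderiv i (f - lamStar l Φ))) *
          (X i - C (s i)) = (0 : MvPolynomial ι k) := by
        have h7 : eval s (f - lamStar l Φ) = 0 := by
          rw [map_sub, eval_lamStar, h0 s hs, map_zero, sub_zero]
          exact hf
        have h8 : ∀ i, eval s (pderiv i (f - lamStar l Φ)) = 0 := by
          intro i
          rw [map_sub, map_sub, pderiv_lamStar, eval_lamStar, hl i, sub_self]
        rw [h7, map_zero, zero_add]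
        refine Finset.sum_eq_zero fun i _ => ?_
        rw [h8 i, map_zero, zero_mul]
      rw [h6, sub_zero] at this
      exact this
    have h9 : f = lamStar l Φ + (f - lamStar l Φ) := by ring
    rw [h9]
    refine Submodule.add_mem_sup ?_ h5
    exact Ideal.subset_span ⟨l, rfl⟩
  have hmin : ∀ s ∈ S, RingHom.ker (eval s) ∈ I.minimalPrimes := by
    intro s hs
    refine ⟨⟨(hmax s).isPrime, hIm s hs⟩, ?_⟩
    rintro q ⟨hq, hIq⟩ hqm
    have := hq
    -- the image of the maximal ideal in the domain
    set J : Ideal (MvPolynomial ι k ⧸ q) := (RingHom.ker (eval s)).map (Ideal.Quotient.mk q)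
      with hJ
    have hJJ : J ≤ J * J := by
      have h := Ideal.map_mono (f := Ideal.Quotient.mk q) (hsq s hs)
      rw [Ideal.map_sup, Ideal.map_pow, ← hJ] at h
      have hI0 : I.map (Ideal.Quotient.mk q) = ⊥ := by
        rw [eq_bot_iff, Ideal.map_le_iff_le_comap]
        intro x hx
        rw [Ideal.mem_comap, Ideal.mem_bot, Ideal.Quotient.eq_zero_iff_mem]
        exact hIq hx
      rw [hI0, bot_sup_eq, sq] at h
      exact h
    have hid : IsIdempotentElem J := le_antisymm Ideal.mul_le_left hJJ
    have hfg : J.FG := (isNoetherianRing_iff_ideal_fg _).1 inferInstance J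
    obtain ⟨e, he, hJe⟩ := (Ideal.isIdempotentElem_iff_of_fg J hfg).1 hid
    have he01 : e = 0 ∨ e = 1 := by
      have : e * (e - 1) = 0 := by
        have := he.eq
        rw [mul_sub, this, mul_one, sub_self]
      rcases mul_eq_zero.1 this with h | h
      · exact Or.inl h
      · exact Or.inr (sub_eq_zero.1 h)
    have hJne : J ≠ ⊤ := by
      intro htop
      have h1 : (1 : MvPolynomial ι k ⧸ q) ∈ J := htop ▸ Submodule.mem_top
      rw [hJ, Ideal.mem_map_iff_of_surjective _ Ideal.Quotient.mk_surjective] at h1
      obtain ⟨x, hx, hx1⟩ := h1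
      have : x - 1 ∈ q := by
        rw [← Ideal.Quotient.eq_zero_iff_mem, map_sub, hx1, map_one, sub_self]
      have h2 := hqm this
      have h3 : (1 : MvPolynomial ι k) ∈ RingHom.ker (eval s) := by
        have := Ideal.sub_mem _ hx h2
        simp at this
      exact (hmax s).ne_top ((Ideal.eq_top_iff_one _).2 h3)
    have he0 : e = 0 := by
      rcases he01 with h | h
      · exact h
      · exfalso
        apply hJne
        rw [hJe, h]
        exact Ideal.span_singleton_one
    intro x hx
    have hxJ : Ideal.Quotient.mk q x ∈ J := Ideal.mem_map_of_mem _ hx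
    rw [hJe, he0] at hxJ
    have : Ideal.Quotient.mk q x = 0 := by
      simpa [Ideal.mem_span_singleton] using hxJ
    exact Ideal.Quotient.eq_zero_iff_mem.1 this
  have hfin := Ideal.finite_minimalPrimes_of_isNoetherianRing (MvPolynomial ι k) I
  refine Set.Finite.of_finite_image (f := fun s : ι → k => RingHom.ker (eval s))
    (hfin.subset ?_) ?_
  · rintro _ ⟨s, hs, rfl⟩
    exact hmin s hs
  · intro s _ t _ hst
    ext i
    have h1 : (X i - C (s i) : MvPolynomial ι k) ∈ RingHom.ker (eval s) := by
      simp [RingHom.mem_ker]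
    have hst' : RingHom.ker (eval s) = RingHom.ker (eval t) := hst
    rw [hst', RingHom.mem_ker] at h1
    simp only [map_sub, eval_X, eval_C] at h1
    exact (sub_eq_zero.1 h1).symm

end TaskA

end MP60829e.S
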