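import Pool.Agent.Lib.MP_60829e_nt.S.Defs

open MvPolynomial

set_option linter.unusedSectionVars false

namespace MP60829e.S

section aux

variable {k : Type*} [Field k]

theorem eq_sup_mem {P : MvPolynomial (Fin 2) k} (hP : P ≠ 0) :
    homogeneousComponent P.totalDegree P ≠ 0 := by
  classical
  intro h0
  have hne : P.support.Nonempty := by
    rw [Finset.nonempty_iff_ne_empty]; simpa using hP
  obtain ⟨s, hs, hsup⟩ := Finset.exists_mem_eq_sup P.support hne (fun s => s.sum fun _ e => e)
  have hd : s.degree = P.totalDegree := by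
    rw [totalDegree, hsup]; rfl
  have := congrArg (coeff s) h0
  rw [coeff_homogeneousComponent, if_pos hd, coeff_zero] at this
  exact (mem_support_iff.mp hs) this

theorem totalDegree_lt_of_hc {P : MvPolynomial (Fin 2) k} {a : ℕ} (ha : 1 ≤ a)
    (h1 : P.totalDegree ≤ a) (h2 : homogeneousComponent a P = 0) : P.totalDegree < a := by
  rcases lt_or_eq_of_le h1 with h | h
  · exact h
  · exfalso
    have hP : P ≠ 0 := by
      rintro rfl
      simp at h; omega
    apply eq_sup_mem hP
    rw [h]; exact h2

theorem hc_mul {P Q : MvPolynomial (Fin 2) k} {m n : ℕ} (hP : P.totalDegree ≤ m)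
    (hQ : Q.totalDegree ≤ n) :
    homogeneousComponent (m + n) (P * Q) =
      homogeneousComponent m P * homogeneousComponent n Q := by
  classical
  ext d
  rw [coeff_homogeneousComponent]
  split_ifs with hd
  · rw [coeff_mul, coeff_mul]
    refine Finset.sum_congr rfl fun x hx => ?_
    have hx' : x.1 + x.2 = d := Finset.HasAntidiagonal.mem_antidiagonal.mp hx
    have hdeg : x.1.degree + x.2.degree = m + n := by
      rw [← hd, ← hx', map_add]
    rw [coeff_homogeneousComponent, coeff_homogeneousComponent]
    by_cases h1 : x.1.degree = m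
    · rw [if_pos h1, if_pos (by omega)]
    · rw [if_neg h1, zero_mul]
      rcases lt_or_gt_of_ne h1 with h | h
      · have : coeff x.2 Q = 0 := by
          apply coeff_eq_zero_of_totalDegree_lt
          have : n < x.2.degree := by omega
          exact lt_of_le_of_lt hQ this
        rw [this, mul_zero]
      · have : coeff x.1 P = 0 := by
          apply coeff_eq_zero_of_totalDegree_lt
          exact lt_of_le_of_lt hP h
        rw [this, zero_mul]
  · have hh : (homogeneousComponent m P * homogeneousComponent n Q).IsHomogeneous (m + n) :=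
      (homogeneousComponent_isHomogeneous m P).mul (homogeneousComponent_isHomogeneous n Q)
    rw [hh.coeff_eq_zero hd]

theorem mem_of_zeros [IsAlgClosed k] {I : Ideal (MvPolynomial (Fin 2) k)}
    (hI : I.IsRadical) {H : MvPolynomial (Fin 2) k}
    (h : ∀ a : Fin 2 → k, (∀ p ∈ I, eval a p = 0) → eval a H = 0) : H ∈ I := by
  have h1 : H ∈ vanishingIdeal k (zeroLocus k I) := by
    rw [mem_vanishingIdeal_iff]
    intro x hx
    rw [aeval_eq_eval]
    apply h
    intro p hp
    have := hx p hp
    rwa [aeval_eq_eval] at this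
  rw [vanishingIdeal_zeroLocus_eq_radical, hI.radical] at h1
  exact h1

theorem pow_mem_of_zeros [IsAlgClosed k] {I : Ideal (MvPolynomial (Fin 2) k)}
    {H : MvPolynomial (Fin 2) k}
    (h : ∀ a : Fin 2 → k, (∀ p ∈ I, eval a p = 0) → eval a H = 0) : ∃ n : ℕ, H ^ n ∈ I := by
  have h1 : H ∈ vanishingIdeal k (zeroLocus k I) := by
    rw [mem_vanishingIdeal_iff]
    intro x hx
    rw [aeval_eq_eval]
    apply h
    intro p hp
    have := hx p hp
    rwa [aeval_eq_eval] at this
  rw [vanishingIdeal_zeroLocus_eq_radical] at h1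
  exact h1

theorem eq_top_of_no_zeros [IsAlgClosed k] {I : Ideal (MvPolynomial (Fin 2) k)}
    (h : ∀ a : Fin 2 → k, ∃ p ∈ I, eval a p ≠ 0) : I = ⊤ := by
  obtain ⟨n, hn⟩ := pow_mem_of_zeros (I := I) (H := 1) (by
    intro a ha
    obtain ⟨p, hp, hne⟩ := h a
    exact absurd (ha p hp) hne)
  rw [one_pow] at hn
  exact (Ideal.eq_top_iff_one I).mpr hn

theorem span_radical_of_squarefree {f : MvPolynomial (Fin 2) k} (hf : Squarefree f) :
    (Ideal.span {f}).IsRadical := by
  rw [← isRadical_iff_span_singleton]
  exact hf.isRadical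

theorem dvd_of_zeros [IsAlgClosed k] {f H : MvPolynomial (Fin 2) k} (hf : Squarefree f)
    (h : ∀ a : Fin 2 → k, eval a f = 0 → eval a H = 0) : f ∣ H := by
  rw [← Ideal.mem_span_singleton]
  apply mem_of_zeros (span_radical_of_squarefree hf)
  intro a ha
  exact h a (ha f (Ideal.mem_span_singleton_self f))

end aux

section B

variable {k : Type*} [Field k] [IsAlgClosed k] [CharZero k] {F : MvPolynomial (Fin 2) k}

/-- the linear form `b X - a Y` -/
noncomputable def lin (a : Fin 2 → k) : MvPolynomial (Fin 2) k := C (a 1) * X 0 - C (a 0) * X 1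

omit [IsAlgClosed k] [CharZero k] in
theorem lin_isHomogeneous (a : Fin 2 → k) : (lin a).IsHomogeneous 1 := by
  unfold lin
  exact (isHomogeneous_C_mul_X _ _).sub (isHomogeneous_C_mul_X _ _)

omit [IsAlgClosed k] [CharZero k] in
theorem lin_coeff (a : Fin 2 → k) :
    coeff (Finsupp.single 0 1) (lin a) = a 1 ∧ coeff (Finsupp.single 1 1) (lin a) = - a 0 := by
  classical
  unfold lin
  constructor
  · simp [coeff_X, Finsupp.single_left_inj]
  · simp [coeff_X, Finsupp.single_left_inj]

omit [IsAlgClosed k] [CharZero k] in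
theorem lin_ne_zero {a : Fin 2 → k} (ha : a ≠ 0) : lin a ≠ 0 := by
  intro h
  obtain ⟨h0, h1⟩ := lin_coeff a
  rw [h] at h0 h1
  simp only [coeff_zero] at h0 h1
  apply ha
  ext i
  fin_cases i
  · simpa using h1.symm
  · simpa using h0.symm

omit [IsAlgClosed k] [CharZero k] in
theorem lin_irreducible {a : Fin 2 → k} (ha : a ≠ 0) : Irreducible (lin a) := by
  apply irreducible_of_totalDegree_eq_one
  · exact (lin_isHomogeneous a).totalDegree (lin_ne_zero ha)
  · intro x hx
    rw [isUnit_iff_ne_zero]
    rintro rfl
    apply lin_ne_zero ha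
    ext i
    have := hx i
    rw [zero_dvd_iff] at this
    simp [this]

omit [IsAlgClosed k] [CharZero k] in
theorem eval_lin (a x : Fin 2 → k) : eval x (lin a) = a 1 * x 0 - a 0 * x 1 := by
  simp [lin]

omit [IsAlgClosed k] [CharZero k] in
theorem lin_zero_iff {a : Fin 2 → k} (ha : a ≠ 0) {x : Fin 2 → k} (hx : eval x (lin a) = 0) :
    ∃ t : k, x = t • a := by
  rw [eval_lin] at hx
  by_cases h0 : a 0 = 0
  · have h1 : a 1 ≠ 0 := by
      intro h1
      apply ha
      ext i; fin_cases i <;> simp [h0, h1]
    refine ⟨x 1 / a 1, ?_⟩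
    ext i
    fin_cases i
    · simp only [Pi.smul_apply, smul_eq_mul, Fin.zero_eta]
      rw [h0, mul_zero]
      rw [h0, zero_mul, sub_zero] at hx
      exact (mul_eq_zero.mp hx).resolve_left h1
    · simp only [Pi.smul_apply, smul_eq_mul, Fin.mk_one]
      field_simp
  · refine ⟨x 0 / a 0, ?_⟩
    ext i
    fin_cases i
    · simp only [Pi.smul_apply, smul_eq_mul, Fin.zero_eta]
      field_simp
    · simp only [Pi.smul_apply, smul_eq_mul, Fin.mk_one]
      field_simp
      linear_combination -hx

omit [IsAlgClosed k] [CharZero k] in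
theorem eval_smul_of_homog {f : MvPolynomial (Fin 2) k} {n : ℕ} (hf : f.IsHomogeneous n)
    (t : k) (a : Fin 2 → k) : eval (t • a) f = t ^ n * eval a f := by
  classical
  rw [eval_eq, eval_eq, Finset.mul_sum]
  refine Finset.sum_congr rfl fun d hd => ?_
  have hdeg : d.degree = n := by
    by_contra h
    exact (mem_support_iff.mp hd) (hf.coeff_eq_zero h)
  simp only [Pi.smul_apply, smul_eq_mul, mul_pow, Finset.prod_mul_distrib]
  have : ∏ i ∈ d.support, t ^ d i = t ^ n := by
    rw [Finset.prod_pow_eq_pow_sum, ← hdeg]; rfl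
  rw [this]; ring

/-- B1. The leading form has no multiple zero. -/
theorem Good.lead_deriv (hF : Good F) : ∃ N : ℕ, ∀ j : Fin 2,
    (X j : MvPolynomial (Fin 2) k) ^ N ∈
      Ideal.span (Set.range fun i => pderiv i (homogeneousComponent F.totalDegree F)) := by
  set d := F.totalDegree with hd
  set f := homogeneousComponent d F with hf
  have hhom : f.IsHomogeneous d := homogeneousComponent_isHomogeneous d F
  have hd2 : 2 ≤ d := hF.deg
  have hsq : Squarefree f := hF.lead
  have key : ∀ a : Fin 2 → k, (∀ i, eval a (pderiv i f) = 0) → a = 0 := by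
    intro a ha
    by_contra hne
    have heul := hhom.sum_X_mul_pderiv
    have hfa : ∀ t : k, ∀ i, eval (t • a) (pderiv i f) = 0 := by
      intro t i
      rw [eval_smul_of_homog (hhom.pderiv (i := i)), ha i, mul_zero]
    have hf0 : ∀ t : k, eval (t • a) f = 0 := by
      intro t
      have h1 := congrArg (eval (t • a)) heul
      rw [map_sum, Finset.sum_eq_zero (fun i _ => by rw [map_mul, hfa t i, mul_zero])] at h1
      rw [map_nsmul, nsmul_eq_mul] at h1
      have : (d : k) ≠ 0 := by
        exact_mod_cast (by omega : d ≠ 0)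
      exact (mul_eq_zero.mp h1.symm).resolve_left this
    have hirr := lin_irreducible hne
    have hlsq : Squarefree (lin a) := hirr.squarefree
    obtain ⟨g, hg⟩ : lin a ∣ f := by
      apply dvd_of_zeros hlsq
      intro x hx
      obtain ⟨t, rfl⟩ := lin_zero_iff hne hx
      exact hf0 t
    have hg0 : ∀ t : k, eval (t • a) g = 0 := by
      intro t
      have hl0 : eval (t • a) (lin a) = 0 := by
        rw [eval_lin]; simp; ring
      have h2 : ∀ i, eval (t • a) (pderiv i (lin a)) * eval (t • a) g = 0 := by
        intro i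
        have h3 := hfa t i
        rw [hg, Derivation.leibniz, smul_eq_mul, smul_eq_mul, map_add, map_mul, map_mul, hl0,
          zero_mul, zero_add, mul_comm] at h3
        exact h3
      have e0 : pderiv 0 (lin a) = C (a 1) := by
        simp [lin, pderiv_X]
      have e1 : pderiv 1 (lin a) = - C (a 0) := by
        simp [lin, pderiv_X]
      have p0 := h2 0
      have p1 := h2 1
      rw [e0, eval_C] at p0
      rw [e1, map_neg, eval_C] at p1
      by_contra hgne
      apply hne
      ext i
      fin_cases i
      · simpa using (mul_eq_zero.mp p1).resolve_right hgne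
      · simpa using (mul_eq_zero.mp p0).resolve_right hgne
    obtain ⟨g', hg'⟩ : lin a ∣ g := by
      apply dvd_of_zeros hlsq
      intro x hx
      obtain ⟨t, rfl⟩ := lin_zero_iff hne hx
      exact hg0 t
    have : IsUnit (lin a) := hsq (lin a) ⟨g', by rw [hg, hg']; ring⟩
    exact hirr.not_isUnit this
  have hX : ∀ j : Fin 2, ∃ n : ℕ, (X j : MvPolynomial (Fin 2) k) ^ n ∈
      Ideal.span (Set.range fun i => pderiv i f) := by
    intro j
    apply pow_mem_of_zeros
    intro a ha
    have : a = 0 := key a fun i => ha _ (Ideal.subset_span ⟨i, rfl⟩)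
    rw [this]; simp
  obtain ⟨n0, h0⟩ := hX 0
  obtain ⟨n1, h1⟩ := hX 1
  refine ⟨n0 + n1, fun j => ?_⟩
  fin_cases j
  · simp only [Fin.zero_eta]
    rw [pow_add]
    exact Ideal.mul_mem_right _ _ h0
  · simp only [Fin.mk_one]
    rw [pow_add]
    exact Ideal.mul_mem_left _ _ h1

/-- B2. A polynomial vanishing at all zeros of the (squarefree) leading form is divisible by it. -/
theorem Good.lead_dvd (hF : Good F) {H : MvPolynomial (Fin 2) k}
    (h : ∀ a : Fin 2 → k, eval a (homogeneousComponent F.totalDegree F) = 0 → eval a H = 0) :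
    homogeneousComponent F.totalDegree F ∣ H :=
  dvd_of_zeros hF.lead h

/-- B3. Nullstellensatz for the smoothness condition. -/
theorem Good.one_mem (hF : Good F) :
    ∃ α β γ : MvPolynomial (Fin 2) k, α * F + β * pderiv 0 F + γ * pderiv 1 F = 1 := by
  have htop : Ideal.span {F, pderiv 0 F, pderiv 1 F} = (⊤ : Ideal (MvPolynomial (Fin 2) k)) := by
    apply eq_top_of_no_zeros
    intro a
    by_cases ha : eval a F = 0
    · obtain ⟨i, hi⟩ := hF.smooth a ha
      refine ⟨pderiv i F, Ideal.subset_span ?_, hi⟩
      fin_cases i <;> simp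
    · exact ⟨F, Ideal.subset_span (by simp), ha⟩
  have h1 : (1 : MvPolynomial (Fin 2) k) ∈ Ideal.span {F, pderiv 0 F, pderiv 1 F} := by
    rw [htop]; trivial
  rw [Ideal.mem_span_insert] at h1
  obtain ⟨α, z, hz, h2⟩ := h1
  rw [Ideal.mem_span_pair] at hz
  obtain ⟨β, γ, h3⟩ := hz
  exact ⟨α, β, γ, by rw [h2, ← h3]; ring⟩

theorem no_bezout_rep {G H : MvPolynomial (Fin 2) k} (hGu : ¬ IsUnit G) (hHu : ¬ IsUnit H)
    (hG1 : 1 ≤ G.totalDegree) (hH1 : 1 ≤ H.totalDegree)
    (hrel : IsRelPrime (homogeneousComponent G.totalDegree G)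
      (homogeneousComponent H.totalDegree H)) :
    ∀ n : ℕ, ∀ A B : MvPolynomial (Fin 2) k, A.totalDegree ≤ n → A * G + B * H ≠ 1 := by
  have hG0 : G ≠ 0 := by rintro rfl; simp at hG1
  have hH0 : H ≠ 0 := by rintro rfl; simp at hH1
  intro n
  induction n using Nat.strong_induction_on with
  | _ n ih =>
  intro A B hA hrep
  have hA0 : A ≠ 0 := by
    rintro rfl
    rw [zero_mul, zero_add] at hrep
    exact hHu (IsUnit.of_mul_eq_one B (by rw [mul_comm]; exact hrep))
  have hB0 : B ≠ 0 := by
    rintro rfl
    rw [zero_mul, add_zero] at hrep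
    exact hGu (IsUnit.of_mul_eq_one A (by rw [mul_comm]; exact hrep))
  have hlA := eq_sup_mem hA0
  have hlB := eq_sup_mem hB0
  have hlG := eq_sup_mem hG0
  have hlH := eq_sup_mem hH0
  have hzero : ∀ m : ℕ, 1 ≤ m →
      homogeneousComponent m (A * G) + homogeneousComponent m (B * H) = 0 := by
    intro m hm
    rw [← map_add, hrep]
    apply homogeneousComponent_eq_zero
    rw [totalDegree_one]; omega
  have hdeg : A.totalDegree + G.totalDegree = B.totalDegree + H.totalDegree := by
    rcases lt_trichotomy (A.totalDegree + G.totalDegree) (B.totalDegree + H.totalDegree) with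
      h | h | h
    · exfalso
      have h1 := hzero (B.totalDegree + H.totalDegree) (by omega)
      rw [homogeneousComponent_eq_zero _ (A * G)
        (lt_of_le_of_lt (totalDegree_mul _ _) h), zero_add, hc_mul le_rfl le_rfl] at h1
      exact mul_ne_zero hlB hlH h1
    · exact h
    · exfalso
      have h1 := hzero (A.totalDegree + G.totalDegree) (by omega)
      rw [homogeneousComponent_eq_zero _ (B * H)
        (lt_of_le_of_lt (totalDegree_mul _ _) h), add_zero, hc_mul le_rfl le_rfl] at h1
      exact mul_ne_zero hlA hlG h1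
  have h1 := hzero (A.totalDegree + G.totalDegree) (by omega)
  rw [hc_mul le_rfl le_rfl, hdeg, hc_mul le_rfl le_rfl] at h1
  have hdvd : homogeneousComponent H.totalDegree H ∣
      homogeneousComponent A.totalDegree A * homogeneousComponent G.totalDegree G := by
    refine ⟨-homogeneousComponent B.totalDegree B, ?_⟩
    linear_combination h1
  have hdvd2 : homogeneousComponent H.totalDegree H ∣ homogeneousComponent A.totalDegree A :=
    hrel.symm.dvd_of_dvd_mul_right hdvd
  obtain ⟨c, hc⟩ := hdvd2
  have hc0 : c ≠ 0 := by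
    rintro rfl
    rw [mul_zero] at hc
    exact hlA hc
  have hAd : A.totalDegree = H.totalDegree + c.totalDegree := by
    have h2 := congrArg totalDegree hc
    rw [totalDegree_mul_of_isDomain hlH hc0,
      (homogeneousComponent_isHomogeneous _ A).totalDegree hlA,
      (homogeneousComponent_isHomogeneous _ H).totalDegree hlH] at h2
    exact h2
  have hA1 : 1 ≤ A.totalDegree := by omega
  have hlA2 : homogeneousComponent A.totalDegree A
      = homogeneousComponent c.totalDegree c * homogeneousComponent H.totalDegree H := by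
    have h2 := congrArg (homogeneousComponent (H.totalDegree + c.totalDegree)) hc
    rw [hc_mul (homogeneousComponent_isHomogeneous _ H).totalDegree_le le_rfl,
      homogeneousComponent_eq_self (homogeneousComponent_isHomogeneous _ H), ← hAd,
      homogeneousComponent_eq_self (homogeneousComponent_isHomogeneous _ A)] at h2
    rw [h2, mul_comm]
  have hlt : (A - c * H).totalDegree < A.totalDegree := by
    apply totalDegree_lt_of_hc hA1
    · refine (totalDegree_sub _ _).trans (max_le le_rfl ?_)
      refine (totalDegree_mul _ _).trans ?_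
      omega
    · rw [map_sub, hlA2]
      have : A.totalDegree = c.totalDegree + H.totalDegree := by omega
      rw [this, hc_mul le_rfl le_rfl, sub_self]
  exact ih (A - c * H).totalDegree (lt_of_lt_of_le hlt hA) (A - c * H) (B + c * G) le_rfl
    (by rw [← hrep]; ring)

theorem isUnit_of_totalDegree_eq_zero {G : MvPolynomial (Fin 2) k} (hG : G ≠ 0)
    (h : G.totalDegree = 0) : IsUnit G := by
  rw [totalDegree_eq_zero_iff_eq_C] at h
  rw [h]
  apply IsUnit.map
  rw [isUnit_iff_ne_zero]
  intro h0
  apply hG
  rw [h, h0, C_0]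

theorem Good.ne_zero (hF : Good F) : F ≠ 0 := by
  rintro rfl
  have := hF.deg
  simp at this

/-- B4. `F` is irreducible. -/
theorem Good.irreducible (hF : Good F) : Irreducible F := by
  refine ⟨?_, ?_⟩
  · intro h
    have h1 := hF.deg
    rw [isUnit_iff_totalDegree_of_isReduced] at h
    omega
  · intro G H hGH
    by_contra hcon
    push Not at hcon
    obtain ⟨hGu, hHu⟩ := hcon
    have hF0 := hF.ne_zero
    have hG0 : G ≠ 0 := by rintro rfl; rw [zero_mul] at hGH; exact hF0 hGH
    have hH0 : H ≠ 0 := by rintro rfl; rw [mul_zero] at hGH; exact hF0 hGH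
    have hG1 : 1 ≤ G.totalDegree := by
      by_contra h
      exact hGu (isUnit_of_totalDegree_eq_zero hG0 (by omega))
    have hH1 : 1 ≤ H.totalDegree := by
      by_contra h
      exact hHu (isUnit_of_totalDegree_eq_zero hH0 (by omega))
    have hdeg : F.totalDegree = G.totalDegree + H.totalDegree := by
      rw [hGH, totalDegree_mul_of_isDomain hG0 hH0]
    have hlead : homogeneousComponent F.totalDegree F =
        homogeneousComponent G.totalDegree G * homogeneousComponent H.totalDegree H := by
      rw [hdeg, hGH, hc_mul le_rfl le_rfl]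
    have hsq := hF.lead
    rw [hlead] at hsq
    have hrel := (squarefree_mul_iff.mp hsq).1
    have htop : Ideal.span {G, H} = (⊤ : Ideal (MvPolynomial (Fin 2) k)) := by
      apply eq_top_of_no_zeros
      intro a
      by_contra hcon
      push Not at hcon
      have hGa : eval a G = 0 := hcon G (Ideal.subset_span (by simp))
      have hHa : eval a H = 0 := hcon H (Ideal.subset_span (by simp))
      obtain ⟨i, hi⟩ := hF.smooth a (by rw [hGH, map_mul, hGa, zero_mul])
      apply hi
      rw [hGH, Derivation.leibniz, smul_eq_mul, smul_eq_mul, map_add, map_mul, map_mul, hGa, hHa,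
        zero_mul, zero_mul, add_zero]
    have h1 : (1 : MvPolynomial (Fin 2) k) ∈ Ideal.span {G, H} := by rw [htop]; trivial
    rw [Ideal.mem_span_pair] at h1
    obtain ⟨A, B, hAB⟩ := h1
    exact no_bezout_rep hGu hHu hG1 hH1 hrel _ A B le_rfl hAB

/-- B5. At a point with coordinates in an extension field which are not both in `k`, the ideal of
relations is generated by `F`. -/
theorem Good.dvd_of_aeval_eq_zero (hF : Good F) {K : Type*} [Field K] [Algebra k K] (x : Fin 2 → K)
    (hx : aeval x F = 0) (hnc : ∃ i, x i ∉ Set.range (algebraMap k K))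
    {G : MvPolynomial (Fin 2) k} (hG : aeval x G = 0) : F ∣ G := by
  by_contra hndvd
  have hprime : Prime F := hF.irreducible.prime
  set P : Ideal (MvPolynomial (Fin 2) k) := RingHom.ker (aeval x : MvPolynomial (Fin 2) k →ₐ[k] K)
    with hP
  have hPp : P.IsPrime := RingHom.ker_isPrime _
  have hQp : (Ideal.span {F}).IsPrime := (Ideal.span_singleton_prime hF.ne_zero).mpr hprime
  have hmax : P.IsMaximal := by
    by_contra hnm
    obtain ⟨m, hm, hPm⟩ := Ideal.exists_le_maximal P hPp.ne_top
    have hPm' : P < m := lt_of_le_of_ne hPm (by rintro rfl; exact hnm hm)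
    have h01 : (⊥ : Ideal (MvPolynomial (Fin 2) k)) < Ideal.span {F} := by
      rw [bot_lt_iff_ne_bot, Ne, Ideal.span_singleton_eq_bot]
      exact hF.ne_zero
    have h12 : Ideal.span {F} < P := by
      refine lt_of_le_of_ne ?_ ?_
      · rw [Ideal.span_singleton_le_iff_mem]
        exact hx
      · intro h
        have : G ∈ Ideal.span {F} := by rw [h]; exact hG
        exact hndvd (Ideal.mem_span_singleton.mp this)
    let s : LTSeries (PrimeSpectrum (MvPolynomial (Fin 2) k)) :=
      { length := 3
        toFun := ![⟨⊥, Ideal.isPrime_bot⟩, ⟨Ideal.span {F}, hQp⟩, ⟨P, hPp⟩, ⟨m, hm.isPrime⟩]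
        step := by
          intro i
          fin_cases i
          · exact h01
          · exact h12
          · exact hPm' }
    have h3 : (3 : WithBot ℕ∞) ≤ ringKrullDim (MvPolynomial (Fin 2) k) := by
      have := Order.LTSeries.length_le_krullDim s
      exact this
    rw [MvPolynomial.ringKrullDim_of_isNoetherianRing, ringKrullDim_eq_zero_of_field] at h3
    simp at h3
    exact absurd h3 (by decide)
  obtain ⟨a, ha⟩ := eq_vanishingIdeal_singleton_of_isMaximal k hmax
  obtain ⟨i, hi⟩ := hnc
  apply hi
  refine ⟨a i, ?_⟩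
  have hmem : (X i - C (a i) : MvPolynomial (Fin 2) k) ∈ P := by
    rw [ha, mem_vanishingIdeal_singleton_iff]
    simp
  have : aeval x (X i - C (a i) : MvPolynomial (Fin 2) k) = 0 := hmem
  rw [map_sub, aeval_X, aeval_C, sub_eq_zero] at this
  exact this.symm

end B

end MP60829e.S
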