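import Mathlib
import Pool.Agent.Lib.MP_60829e_nt.S.Defs
import Pool.Agent.Lib.MP_26f572_ag.Normal

/-!
Normality of the coordinate ring of a smooth affine plane curve.
-/

open MvPolynomial

namespace MP60829e.S

section Normal

variable {k : Type*} [Field k]

/-- Nullstellensatz for the smoothness condition. -/
theorem Good.one_mem' [IsAlgClosed k] {F : MvPolynomial (Fin 2) k} (hF : Good F) :
    ∃ α β γ : MvPolynomial (Fin 2) k, α * F + β * pderiv 0 F + γ * pderiv 1 F = 1 := by
  let I : Ideal (MvPolynomial (Fin 2) k) := Ideal.span {F, pderiv 0 F, pderiv 1 F}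
  have hz : MvPolynomial.zeroLocus k I = ∅ := by
    ext a
    simp only [Set.mem_empty_iff_false, iff_false]
    intro ha
    have hmem : ∀ p ∈ I, aeval a p = 0 := by
      intro p hp
      exact ha p hp
    have h0 : eval a F = 0 := by
      have := hmem F (Ideal.subset_span (by simp))
      simpa using this
    obtain ⟨i, hi⟩ := hF.smooth a h0
    apply hi
    have h1 : eval a (pderiv 0 F) = 0 := by
      have := hmem _ (Ideal.subset_span (show pderiv 0 F ∈ ({F, pderiv 0 F, pderiv 1 F} : Set _) by simp))
      simpa using this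
    have h2 : eval a (pderiv 1 F) = 0 := by
      have := hmem _ (Ideal.subset_span (show pderiv 1 F ∈ ({F, pderiv 0 F, pderiv 1 F} : Set _) by simp))
      simpa using this
    fin_cases i
    · exact h1
    · exact h2
  have hrad : I.radical = ⊤ := by
    rw [← MvPolynomial.vanishingIdeal_zeroLocus_eq_radical (K := k), hz]
    exact MvPolynomial.vanishingIdeal_empty
  have htop : I = ⊤ := Ideal.radical_eq_top.mp hrad
  have h1 : (1 : MvPolynomial (Fin 2) k) ∈ I := by rw [htop]; trivial
  rw [Ideal.mem_span_insert] at h1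
  obtain ⟨α, z, hz, hα⟩ := h1
  rw [Ideal.mem_span_pair] at hz
  obtain ⟨β, γ, hβ⟩ := hz
  exact ⟨α, β, γ, by rw [hα, ← hβ]; ring⟩

/-- If `F` and its partial derivatives generate the unit ideal, then `k[X,Y]/(F)` is formally
smooth. -/
theorem formallySmooth_quotient {F : MvPolynomial (Fin 2) k}
    (h : ∃ α β γ : MvPolynomial (Fin 2) k, α * F + β * pderiv 0 F + γ * pderiv 1 F = 1) :
    Algebra.FormallySmooth k (MvPolynomial (Fin 2) k ⧸ Ideal.span {F}) := by
  obtain ⟨α, β, γ, h⟩ := h
  let P := MvPolynomial (Fin 2) k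
  let f : P →ₐ[k] P ⧸ Ideal.span {F} := Ideal.Quotient.mkₐ k (Ideal.span {F})
  let J : Ideal P := RingHom.ker f.toRingHom ^ 2
  have hFker : F ∈ RingHom.ker f.toRingHom := by
    rw [RingHom.mem_ker]
    exact Ideal.Quotient.eq_zero_iff_mem.mpr (Ideal.mem_span_singleton_self F)
  have hFF : ∀ p : P, F * F * p ∈ J := by
    intro p
    apply Ideal.mul_mem_right
    rw [← pow_two]
    exact Ideal.pow_mem_pow hFker 2
  let D : Derivation k P P := β • pderiv 0 + γ • pderiv 1
  have hDF : D F = 1 - α * F := by
    simp only [D, Derivation.coe_add, Derivation.coe_smul, Pi.add_apply, Pi.smul_apply, smul_eq_mul]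
    rw [← h]; ring
  let σ : P →ₐ[k] P ⧸ J :=
    { toFun := fun p => Ideal.Quotient.mk J (p - F * D p)
      map_one' := by simp
      map_zero' := by simp
      map_add' := fun p q => by
        rw [← map_add]; congr 1; rw [map_add]; ring
      map_mul' := fun p q => by
        rw [← map_mul, Ideal.Quotient.eq, Derivation.leibniz]
        have : p * q - F * (p • D q + q • D p) - (p - F * D p) * (q - F * D q)
            = F * F * (- (D p * D q)) := by
          simp only [smul_eq_mul]; ring
        rw [this]
        exact hFF _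
      commutes' := fun r => by
        simp only [Derivation.map_algebraMap, mul_zero, sub_zero]
        rfl }
  have hσF : ∀ p ∈ Ideal.span {F}, σ p = 0 := by
    intro p hp
    rw [Ideal.mem_span_singleton] at hp
    obtain ⟨q, rfl⟩ := hp
    rw [map_mul]
    have : σ F = 0 := by
      change Ideal.Quotient.mk J (F - F * D F) = 0
      rw [Ideal.Quotient.eq_zero_iff_mem, hDF]
      have : F - F * (1 - α * F) = F * F * α := by ring
      rw [this]
      exact hFF _
    rw [this, zero_mul]
  let g : P ⧸ Ideal.span {F} →ₐ[k] P ⧸ J := Ideal.Quotient.liftₐ (Ideal.span {F}) σ hσF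
  refine Algebra.FormallySmooth.of_split f g ?_
  apply Ideal.Quotient.algHom_ext
  apply AlgHom.ext
  intro p
  have h1 : g (f p) = σ p := rfl
  have h2 : f.kerSquareLift (σ p) = f (p - F * D p) := rfl
  have h3 : f F = 0 := hFker
  change f.kerSquareLift (g (f p)) = f p
  rw [h1, h2, map_sub, map_mul, h3, zero_mul, sub_zero]

/-- If `F` and its partial derivatives generate the unit ideal, then `k[X,Y]/(F)` is smooth. -/
theorem smooth_quotient {F : MvPolynomial (Fin 2) k}
    (h : ∃ α β γ : MvPolynomial (Fin 2) k, α * F + β * pderiv 0 F + γ * pderiv 1 F = 1) :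
    Algebra.Smooth k (MvPolynomial (Fin 2) k ⧸ Ideal.span {F}) where
  formallySmooth := formallySmooth_quotient h
  finitePresentation := Algebra.FinitePresentation.quotient ⟨{F}, by simp⟩

theorem isIntegrallyClosed_quotient {F : MvPolynomial (Fin 2) k}
    (h : ∃ α β γ : MvPolynomial (Fin 2) k, α * F + β * pderiv 0 F + γ * pderiv 1 F = 1)
    (hirr : Irreducible F) :
    IsIntegrallyClosed (MvPolynomial (Fin 2) k ⧸ Ideal.span {F}) := by
  have hprime : (Ideal.span {F}).IsPrime := by
    rw [Ideal.span_singleton_prime hirr.ne_zero]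
    exact hirr.prime
  have hdom : IsDomain (MvPolynomial (Fin 2) k ⧸ Ideal.span {F}) := Ideal.Quotient.isDomain _
  have hsm := smooth_quotient h
  have hn : Pool.Agent.Lib.MP_26f572_ag.IsNormalRing (MvPolynomial (Fin 2) k ⧸ Ideal.span {F}) :=
    Pool.Agent.Lib.MP_26f572_ag.IsNormalRing.of_smooth (A := k)
  exact IsIntegrallyClosed.of_localization_maximal fun p _ hp => (hn p).2

/-- B6 for an irreducible `F`. -/
theorem Good.isIntegrallyClosed_of_irreducible [IsAlgClosed k] {F : MvPolynomial (Fin 2) k}
    (hF : Good F) (hirr : Irreducible F) :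
    IsIntegrallyClosed (MvPolynomial (Fin 2) k ⧸ Ideal.span {F}) :=
  isIntegrallyClosed_quotient hF.one_mem' hirr

end Normal

end MP60829e.S
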