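import Pool.Agent.Lib.MP_60829e_nt.S.CompleteCore
import Pool.Agent.Lib.MP_60829e_nt.S.Forms
import Pool.Agent.Lib.MP_60829e_nt.S.Normal

/-! Linear normality of a smooth plane curve. -/

open MvPolynomial

namespace MP60829e.S

theorem Good.isIntegrallyClosed {k : Type*} [Field k] [IsAlgClosed k] [CharZero k]
    {F : MvPolynomial (Fin 2) k} (hF : Good F) :
    IsIntegrallyClosed (MvPolynomial (Fin 2) k ⧸ Ideal.span {F}) :=
  hF.isIntegrallyClosed_of_irreducible hF.irreducible

/-- D. Linear normality. -/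
theorem Good.complete {k : Type*} [Field k] [IsAlgClosed k] [CharZero k]
    {F : MvPolynomial (Fin 2) k} (hF : Good F) {E : Type*} [Field E] [Algebra k E] (x : Fin 2 → E)
    (hx : aeval x F = 0) (hnc : ∃ i, x i ∉ Set.range (algebraMap k E))
    (hgen : IntermediateField.adjoin k (Set.range x) = ⊤) (z : E)
    (hz : ∀ O : ValuationSubring E, Over k O → Bdd O x z) :
    z ∈ Submodule.span k ({1, x 0, x 1} : Set E) :=
  complete_core x hx hF.deg (fun _ hG => hF.dvd_of_aeval_eq_zero x hx hnc hG)
    (fun _ h => hF.lead_dvd h) hF.isIntegrallyClosed hgen z hz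

end MP60829e.S
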