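import Mathlib
import Pool.Agent.Lib.MP_60829e_nt.S.Defs

/-! Valuation estimates for polynomial values. -/

open MvPolynomial

namespace MP60829e.S

section

variable {k K : Type*} [Field k] [Field K] [Algebra k K] {O : ValuationSubring K}

theorem val_const_le (hO : Over k O) (c : k) : O.valuation (algebraMap k K c) ≤ 1 :=
  (O.valuation_le_one_iff _).2 (hO c)

theorem val_const (hO : Over k O) {c : k} (hc : c ≠ 0) : O.valuation (algebraMap k K c) = 1 := by
  refine le_antisymm (val_const_le hO c) ?_
  have h1 := val_const_le hO c⁻¹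
  rw [map_inv₀, map_inv₀] at h1
  have h2 : O.valuation (algebraMap k K c) ≠ 0 := by
    rw [Ne, Valuation.zero_iff]
    simpa using hc
  have h3 : (0 : O.ValueGroup) < O.valuation (algebraMap k K c) := zero_lt_iff.mpr h2
  exact (inv_le_one₀ h3).1 h1

/-- `max(1, |x₀|, |x₁|)`. -/
noncomputable def sz (O : ValuationSubring K) (x : Fin 2 → K) : O.ValueGroup :=
  max 1 (max (O.valuation (x 0)) (O.valuation (x 1)))

theorem one_le_sz (x : Fin 2 → K) : 1 ≤ sz O x := le_max_left _ _

theorem val_le_sz (x : Fin 2 → K) (i : Fin 2) : O.valuation (x i) ≤ sz O x := by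
  fin_cases i
  · exact (le_max_left _ _).trans (le_max_right _ _)
  · exact (le_max_right _ _).trans (le_max_right _ _)

theorem sz_pos (x : Fin 2 → K) : 0 < sz O x := lt_of_lt_of_le zero_lt_one (one_le_sz x)

theorem Bdd.val_le {x : Fin 2 → K} {z : K} (h : Bdd O x z) : O.valuation z ≤ sz O x := by
  obtain ⟨a, b, c, ha, hb, hc, rfl⟩ := h
  have ha' := (O.valuation_le_one_iff _).2 ha
  have hb' := (O.valuation_le_one_iff _).2 hb
  have hc' := (O.valuation_le_one_iff _).2 hc
  refine Valuation.map_add_le _ (Valuation.map_add_le _ (ha'.trans (one_le_sz x)) ?_) ?_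
  · rw [map_mul]
    calc _ ≤ 1 * O.valuation (x 0) := by gcongr
      _ ≤ _ := by rw [one_mul]; exact val_le_sz x 0
  · rw [map_mul]
    calc _ ≤ 1 * O.valuation (x 1) := by gcongr
      _ ≤ _ := by rw [one_mul]; exact val_le_sz x 1

/-- Conversely a value bounded by the size is in `O + O x₀ + O x₁`. -/
theorem Bdd.of_val_le {x : Fin 2 → K} {z : K} (h : O.valuation z ≤ sz O x) : Bdd O x z := by
  rcases le_total (max (O.valuation (x 0)) (O.valuation (x 1))) 1 with h1 | h1
  · have : sz O x = 1 := max_eq_left h1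
    rw [this, O.valuation_le_one_iff] at h
    exact ⟨z, 0, 0, h, O.zero_mem, O.zero_mem, by ring⟩
  · have h2 : sz O x = max (O.valuation (x 0)) (O.valuation (x 1)) := max_eq_right h1
    rcases le_total (O.valuation (x 0)) (O.valuation (x 1)) with h3 | h3
    · rw [h2, max_eq_right h3] at h
      have h4 : 1 ≤ O.valuation (x 1) := by rwa [max_eq_right h3] at h1
      have hx : x 1 ≠ 0 := by
        intro h0; rw [h0, map_zero] at h4; exact absurd h4 (by simp)
      refine ⟨0, 0, z / x 1, O.zero_mem, O.zero_mem, ?_, ?_⟩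
      · rw [← O.valuation_le_one_iff, map_div₀]
        exact div_le_one_of_le₀ h zero_le
      · field_simp; ring
    · rw [h2, max_eq_left h3] at h
      have h4 : 1 ≤ O.valuation (x 0) := by rwa [max_eq_left h3] at h1
      have hx : x 0 ≠ 0 := by
        intro h0; rw [h0, map_zero] at h4; exact absurd h4 (by simp)
      refine ⟨0, z / x 0, 0, O.zero_mem, ?_, O.zero_mem, ?_⟩
      · rw [← O.valuation_le_one_iff, map_div₀]
        exact div_le_one_of_le₀ h zero_le
      · field_simp; ring

theorem bdd_iff {x : Fin 2 → K} {z : K} : Bdd O x z ↔ O.valuation z ≤ sz O x :=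
  ⟨Bdd.val_le, Bdd.of_val_le⟩

theorem val_aeval_le (hO : Over k O) (x : Fin 2 → K) (G : MvPolynomial (Fin 2) k) {n : ℕ}
    (hn : G.totalDegree ≤ n) : O.valuation (aeval x G) ≤ sz O x ^ n := by
  rw [aeval_def, eval₂_eq']
  refine Valuation.map_sum_le _ fun d hd => ?_
  rw [map_mul, map_prod]
  have h1 : ∏ i, O.valuation (x i ^ d i) ≤ ∏ i, sz O x ^ d i := by
    refine Finset.prod_le_prod' fun i _ => ?_
    rw [map_pow]
    exact pow_le_pow_left' (val_le_sz x i) _
  have h2 : ∏ i, sz O x ^ d i = sz O x ^ (∑ i, d i) := Finset.prod_pow_eq_pow_sum _ _ _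
  have h3 : ∑ i, d i ≤ n := by
    refine le_trans ?_ hn
    have := le_totalDegree hd
    rwa [Finsupp.sum_fintype _ _ (fun _ => rfl)] at this
  calc _ ≤ 1 * ∏ i, O.valuation (x i ^ d i) := by
        gcongr
        exact val_const_le hO _
    _ ≤ sz O x ^ (∑ i, d i) := by rw [one_mul, ← h2]; exact h1
    _ ≤ _ := pow_le_pow_right' (one_le_sz x) h3

/-- A dominant coordinate: if the size is not one then it is the value of a coordinate. -/
theorem exists_dominant {x : Fin 2 → K} (h : 1 < sz O x) :
    ∃ j, O.valuation (x j) = sz O x := by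
  rcases le_total (max (O.valuation (x 0)) (O.valuation (x 1))) 1 with h1 | h1
  · have : sz O x = 1 := max_eq_left h1
    exact absurd h (by rw [this]; exact lt_irrefl _)
  · have h2 : sz O x = max (O.valuation (x 0)) (O.valuation (x 1)) := max_eq_right h1
    rcases le_total (O.valuation (x 0)) (O.valuation (x 1)) with h3 | h3
    · exact ⟨1, by rw [h2, max_eq_right h3]⟩
    · exact ⟨0, by rw [h2, max_eq_left h3]⟩

theorem sz_eq_one_iff {x : Fin 2 → K} : sz O x = 1 ↔ ∀ i, x i ∈ O := by
  constructor
  · intro h i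
    rw [← O.valuation_le_one_iff]
    exact (val_le_sz x i).trans h.le
  · intro h
    refine le_antisymm ?_ (one_le_sz x)
    exact max_le le_rfl (max_le ((O.valuation_le_one_iff _).2 (h 0))
      ((O.valuation_le_one_iff _).2 (h 1)))

/-- scaling of a homogeneous polynomial -/
theorem aeval_homog {G : MvPolynomial (Fin 2) k} {n : ℕ} (hG : G.IsHomogeneous n) (u : K)
    (p : Fin 2 → K) : aeval (fun i => u * p i) G = u ^ n * aeval p G := by
  rw [aeval_def, eval₂_eq', aeval_def, eval₂_eq', Finset.mul_sum]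
  refine Finset.sum_congr rfl fun d hd => ?_
  have h1 : ∑ i, d i = n := by
    have := hG (mem_support_iff.1 hd)
    rw [Finsupp.weight_apply, Finsupp.sum_fintype _ _ (by simp)] at this
    simpa using this
  have h2 : ∏ i, (u * p i) ^ d i = u ^ n * ∏ i, p i ^ d i := by
    rw [← h1, ← Finset.prod_pow_eq_pow_sum, ← Finset.prod_mul_distrib]
    exact Finset.prod_congr rfl fun i _ => mul_pow _ _ _
  rw [h2]; ring

end

end MP60829e.S
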