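import Mathlib
import Pool.Agent.Lib.MP_60829e_nt.S.Defs
import Pool.Agent.Lib.MP_60829e_nt.S.Val
import Pool.Agent.Lib.MP_60829e_nt.S.Forms
import Pool.Agent.Lib.MP_60829e_nt.S.Places

/-! Tangent vectors along a smooth plane curve, bounded at all places. -/

open MvPolynomial

namespace MP60829e.S

section

variable {k : Type*} [Field k] [IsAlgClosed k] [CharZero k] {F : MvPolynomial (Fin 2) k}
variable {K : Type*} [Field K] [Algebra k K]

omit [IsAlgClosed k] [CharZero k] in
/-- decomposition of a derivative of `F` into top form and lower part -/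
theorem pderiv_eq_add (F : MvPolynomial (Fin 2) k) (i : Fin 2) (hd : 2 ≤ F.totalDegree) :
    ∃ L : MvPolynomial (Fin 2) k, L.totalDegree ≤ F.totalDegree - 2 ∧
      pderiv i F = pderiv i (homogeneousComponent F.totalDegree F) + L := by
  classical
  refine ⟨∑ n ∈ Finset.range F.totalDegree, pderiv i (homogeneousComponent n F), ?_, ?_⟩
  · refine totalDegree_finsetSum_le fun n hn => ?_
    have h1 : (pderiv i (homogeneousComponent n F)).IsHomogeneous (n - 1) :=
      (homogeneousComponent_isHomogeneous n F).pderiv
    have h2 := h1.totalDegree_le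
    have := Finset.mem_range.1 hn
    omega
  · conv_lhs => rw [← sum_homogeneousComponent F, map_sum, Finset.sum_range_succ]
    rw [add_comm]

theorem exists_val_pderiv (hF : Good F) {O : ValuationSubring K} (hO : Over k O) (x : Fin 2 → K)
    (h : 1 < sz O x) : ∃ i, O.valuation (aeval x (pderiv i F)) = sz O x ^ (F.totalDegree - 1) := by
  obtain ⟨j, hj⟩ := exists_dominant h
  set u := x j with hu
  have hu0 : u ≠ 0 := by
    intro h0
    rw [h0, map_zero] at hj
    exact (sz_pos (O := O) x).ne hj
  set p : Fin 2 → K := fun i => x i / u with hp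
  have hxp : x = fun i => u * p i := by
    funext i; simp only [hp]; field_simp
  have hvp : ∀ i, O.valuation (p i) ≤ 1 := by
    intro i
    simp only [hp]
    rw [map_div₀, hj]
    exact div_le_one_of_le₀ (val_le_sz x i) zero_le
  have hsz : sz O p = 1 := sz_eq_one_iff.2 fun i => (O.valuation_le_one_iff _).1 (hvp i)
  obtain ⟨N, hN⟩ := hF.lead_deriv
  have hNj := hN j
  rw [Ideal.mem_span_range_iff_exists_fun] at hNj
  obtain ⟨c, hc⟩ := hNj
  have h1 : ∑ i, aeval p (c i) * aeval p (pderiv i (homogeneousComponent F.totalDegree F)) = 1 := by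
    have := congrArg (aeval p) hc
    rw [map_sum, map_pow, aeval_X] at this
    simp only [map_mul] at this
    rw [this]
    simp only [hp]
    rw [← hu, div_self hu0, one_pow]
  have h2 : ∃ i, O.valuation (aeval p (pderiv i (homogeneousComponent F.totalDegree F))) = 1 := by
    by_contra hcon
    push Not at hcon
    have h3 : ∀ i, O.valuation (aeval p (pderiv i (homogeneousComponent F.totalDegree F))) < 1 := by
      intro i
      refine lt_of_le_of_ne ?_ (hcon i)
      have := val_aeval_le hO p (pderiv i (homogeneousComponent F.totalDegree F)) le_rfl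
      rwa [hsz, one_pow] at this
    have h4 : O.valuation (∑ i, aeval p (c i) *
        aeval p (pderiv i (homogeneousComponent F.totalDegree F))) < 1 := by
      refine Valuation.map_sum_lt _ one_ne_zero fun i _ => ?_
      rw [map_mul]
      have h5 : O.valuation (aeval p (c i)) ≤ 1 := by
        have := val_aeval_le hO p (c i) le_rfl
        rwa [hsz, one_pow] at this
      calc _ ≤ 1 * O.valuation (aeval p (pderiv i (homogeneousComponent F.totalDegree F))) := by
            gcongr
        _ < 1 := by rw [one_mul]; exact h3 i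
    rw [h1, map_one] at h4
    exact lt_irrefl _ h4
  obtain ⟨i, hi⟩ := h2
  refine ⟨i, ?_⟩
  obtain ⟨L, hL, hFL⟩ := pderiv_eq_add F i hF.deg
  have hd := hF.deg
  have h6 : O.valuation (aeval x (pderiv i (homogeneousComponent F.totalDegree F)))
      = sz O x ^ (F.totalDegree - 1) := by
    conv_lhs => rw [hxp]
    rw [aeval_homog ((homogeneousComponent_isHomogeneous F.totalDegree F).pderiv) u p, map_mul, hi,
      mul_one, map_pow, hj]
  have h7 : O.valuation (aeval x L) < sz O x ^ (F.totalDegree - 1) := by
    refine lt_of_le_of_lt (val_aeval_le hO x L hL) ?_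
    exact pow_lt_pow_right₀ h (by omega)
  rw [hFL, map_add, Valuation.map_add_eq_of_lt_left _ (by rw [h6]; exact h7), h6]

omit [IsAlgClosed k] [CharZero k] in
theorem aeval_mem_span {x : Fin 2 → K} {G : MvPolynomial (Fin 2) k} (hG : G.totalDegree ≤ 1) :
    aeval x G ∈ Submodule.span k ({1, x 0, x 1} : Set K) := by
  rw [aeval_def, eval₂_eq']
  refine Submodule.sum_mem _ fun d hd => ?_
  rw [← Algebra.smul_def]
  refine Submodule.smul_mem _ _ ?_
  have h3 : ∑ i, d i ≤ 1 := by
    refine le_trans ?_ hG
    have := le_totalDegree hd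
    rwa [Finsupp.sum_fintype _ _ (fun _ => rfl)] at this
  rw [Fin.sum_univ_two] at h3
  rw [Fin.prod_univ_two]
  have h4 : (d 0 = 0 ∧ d 1 = 0) ∨ (d 0 = 1 ∧ d 1 = 0) ∨ (d 0 = 0 ∧ d 1 = 1) := by omega
  rcases h4 with ⟨ha, hb⟩ | ⟨ha, hb⟩ | ⟨ha, hb⟩ <;> rw [ha, hb] <;>
    exact Submodule.subset_span (by simp)

/-- Tangent vectors along the curve, bounded at all places. -/
theorem Good.key (hF : Good F) (x : Fin 2 → K)
    (hx : aeval x F = 0) (hnc : ∃ i, x i ∉ Set.range (algebraMap k K))
    (τ : Fin 2 → K) (h : ∑ i, aeval x (pderiv i F) * τ i = 0)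
    (hτ : ∀ O : ValuationSubring K, Over k O → ∀ i, Bdd O x (τ i)) :
    (∀ i, τ i ∈ Submodule.span k ({1, x 0, x 1} : Set K)) ∧ (3 ≤ F.totalDegree → τ = 0) := by
  have hd := hF.deg
  obtain ⟨α, β, γ, habc⟩ := hF.one_mem
  have hone : aeval x β * aeval x (pderiv 0 F) + aeval x γ * aeval x (pderiv 1 F) = 1 := by
    have := congrArg (aeval x) habc
    simpa [hx] using this
  rw [Fin.sum_univ_two] at h
  set h' : K := aeval x γ * τ 0 - aeval x β * τ 1 with hh'
  have e1 : aeval x (pderiv 1 F) * h' = τ 0 := by
    rw [hh']; linear_combination (τ 0) * hone - (aeval x β) * h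
  have e0 : aeval x (pderiv 0 F) * h' = - τ 1 := by
    rw [hh']; linear_combination -(τ 1) * hone + (aeval x γ) * h
  have hval : ∀ O : ValuationSubring K, Over k O →
      O.valuation h' ≤ 1 ∧ (1 < sz O x → 3 ≤ F.totalDegree → O.valuation h' < 1) := by
    intro O hO
    rcases (one_le_sz (O := O) x).eq_or_lt with h1 | h1
    · refine ⟨?_, fun h2 => absurd h2 (by rw [← h1]; exact lt_irrefl _)⟩
      have ht : ∀ i, O.valuation (τ i) ≤ 1 := by
        intro i; rw [h1]; exact (hτ O hO i).val_le
      have hg : ∀ G : MvPolynomial (Fin 2) k, O.valuation (aeval x G) ≤ 1 := by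
        intro G
        have := val_aeval_le hO x G le_rfl
        rwa [← h1, one_pow] at this
      rw [hh']
      refine O.valuation.map_sub_le ?_ ?_
      · rw [map_mul]; exact mul_le_one' (hg _) (ht _)
      · rw [map_mul]; exact mul_le_one' (hg _) (ht _)
    · obtain ⟨i, hi⟩ := exists_val_pderiv hF hO x h1
      have h2 : sz O x ^ (F.totalDegree - 1) * O.valuation h' ≤ sz O x := by
        rw [← hi, ← map_mul]
        fin_cases i
        · show O.valuation (aeval x (pderiv 0 F) * h') ≤ _
          rw [e0, Valuation.map_neg]; exact (hτ O hO 1).val_le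
        · show O.valuation (aeval x (pderiv 1 F) * h') ≤ _
          rw [e1]; exact (hτ O hO 0).val_le
      have h3 : sz O x ^ (F.totalDegree - 2) * O.valuation h' ≤ 1 := by
        have h4 : sz O x ^ (F.totalDegree - 1) = sz O x * sz O x ^ (F.totalDegree - 2) := by
          rw [← pow_succ']; congr 1; omega
        rw [h4, mul_assoc] at h2
        have h5 : sz O x * (sz O x ^ (F.totalDegree - 2) * O.valuation h') ≤ sz O x * 1 := by
          rwa [mul_one]
        exact le_of_mul_le_mul_left h5 (sz_pos x)
      have h6 : O.valuation h' ≤ 1 := by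
        refine le_trans ?_ h3
        have : (1 : O.ValueGroup) ≤ sz O x ^ (F.totalDegree - 2) := one_le_pow₀ h1.le
        calc O.valuation h' = 1 * O.valuation h' := (one_mul _).symm
          _ ≤ _ := by gcongr
      refine ⟨h6, fun _ h7 => lt_of_le_of_ne h6 fun h8 => ?_⟩
      rw [h8, mul_one] at h3
      have : (1 : O.ValueGroup) < sz O x ^ (F.totalDegree - 2) := one_lt_pow₀ h1 (by omega)
      exact absurd h3 (not_le.2 this)
  obtain ⟨c, hc⟩ := mem_range_of_forall_mem (k := k) (x := h')
    fun O hO => (O.valuation_le_one_iff _).1 (hval O hO).1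
  have hzero : 3 ≤ F.totalDegree → τ = 0 := by
    intro h3
    obtain ⟨i, hi⟩ := hnc
    obtain ⟨O, hO, hxi⟩ := exists_over_not_mem (k := k) hi
    have h4 : 1 < sz O x := by
      refine lt_of_lt_of_le ?_ (val_le_sz x i)
      rw [← not_le, O.valuation_le_one_iff]; exact hxi
    have h5 := (hval O hO).2 h4 h3
    have hc0 : c = 0 := by
      by_contra hne
      rw [← hc, val_const hO hne] at h5
      exact lt_irrefl _ h5
    rw [hc0, map_zero] at hc
    rw [← hc, mul_zero] at e1 e0
    funext j
    fin_cases j
    · exact e1.symm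
    · have : τ 1 = 0 := by simpa using e0.symm
      exact this
  refine ⟨?_, hzero⟩
  rcases hd.eq_or_lt with h2 | h2
  · have hdeg : ∀ i, (pderiv i F).totalDegree ≤ 1 := by
      intro i
      obtain ⟨L, hL, hFL⟩ := pderiv_eq_add F i hF.deg
      rw [hFL]
      refine (totalDegree_add _ _).trans (max_le ?_ (by omega))
      refine (((homogeneousComponent_isHomogeneous F.totalDegree F).pderiv).totalDegree_le).trans ?_
      omega
    intro j
    have hm : ∀ i, aeval x (pderiv i F) * h' ∈ Submodule.span k ({1, x 0, x 1} : Set K) := by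
      intro i
      rw [← hc, mul_comm, ← Algebra.smul_def]
      exact Submodule.smul_mem _ _ (aeval_mem_span (hdeg i))
    fin_cases j
    · have := hm 1; rw [e1] at this; exact this
    · have := hm 0; rw [e0] at this
      exact (Submodule.neg_mem_iff _).1 this
  · rw [hzero h2]
    intro i
    exact Submodule.zero_mem _

end

end MP60829e.S
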