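import Mathlib
import Pool.Agent.Lib.MP_60829e_nt.S.Defs
import Pool.Agent.Lib.MP_60829e_nt.S.Val
import Pool.Agent.Lib.MP_60829e_nt.S.Key
import Pool.Agent.Lib.MP_60829e_nt.S.Complete

/-! Rigidity: a deformation of a point on a smooth plane curve, bounded at all places, is affine.
The proof averages by the trace to the field of the curve. -/

open MvPolynomial

set_option linter.style.haveILetI false

namespace MP60829e.S

section trace

variable {E K : Type*} [Field E] [Field K] [Algebra E K] [FiniteDimensional E K]

/-- If `y` lies in all valuation subrings of `K` which contain the valuation subring `O` of `E`,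
then its trace is in `O`. -/
theorem trace_mem (O : ValuationSubring E) (y : K)
    (h : ∀ V : ValuationSubring K, (∀ a ∈ O, algebraMap E K a ∈ V) → y ∈ V) :
    Algebra.trace E K y ∈ O := by
  letI : Algebra O K := ((algebraMap E K).comp O.subtype).toAlgebra
  haveI : IsScalarTower O E K := IsScalarTower.of_algebraMap_eq' rfl
  have hy : y ∈ (integralClosure O K).toSubring := by
    by_contra hcon
    obtain ⟨V, hV, hyV⟩ := Subring.exists_le_valuationSubring_of_isIntegrallyClosedIn
      (R := (integralClosure O K).toSubring) hcon
    apply hyV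
    refine h V fun a ha => hV ?_
    have : algebraMap E K a = algebraMap O K ⟨a, ha⟩ := rfl
    rw [this]
    exact (integralClosure O K).algebraMap_mem _
  have hint : IsIntegral O y := hy
  have h2 := Algebra.isIntegral_trace (R := O) (L := E) (F := K) hint
  obtain ⟨b, hb⟩ := IsIntegrallyClosed.isIntegral_iff.1 h2
  rw [← hb]
  exact b.2

end trace

section

variable {k : Type*} [Field k] [IsAlgClosed k] [CharZero k] {F : MvPolynomial (Fin 2) k}
variable {K : Type*} [Field K] [Algebra k K]

/-- `K` is finite over any intermediate field containing a nonconstant element. -/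
theorem IsCurveField.finiteDimensional_of_mem (hK : IsCurveField k K) {x : K}
    (hx : x ∉ Set.range (algebraMap k K)) (E : IntermediateField k K) (hxE : x ∈ E) :
    FiniteDimensional E K := by
  haveI := hK.finiteDimensional hx
  have hle : IntermediateField.adjoin k ({x} : Set K) ≤ E := by
    rw [IntermediateField.adjoin_le_iff]
    simpa using hxE
  letI := (IntermediateField.inclusion hle).toAlgebra
  haveI : IsScalarTower (IntermediateField.adjoin k ({x} : Set K)) E K :=
    IsScalarTower.of_algebraMap_eq' rfl
  exact FiniteDimensional.right (IntermediateField.adjoin k ({x} : Set K)) E K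

/-- Rigidity. -/
theorem Good.rigid (hF : Good F) (hK : IsCurveField k K)
    (x : Fin 2 → K) (hx : aeval x F = 0) (hnc : ∃ i, x i ∉ Set.range (algebraMap k K))
    (δ : Fin 2 → K) (hδ : ∀ O : ValuationSubring K, Over k O → ∀ i, Bdd O x (δ i))
    (G : MvPolynomial (Fin 2) k) (h : aeval x G + ∑ i, aeval x (pderiv i F) * δ i = 0) :
    ∀ i, δ i ∈ Submodule.span k ({1, x 0, x 1} : Set K) := by
  obtain ⟨i₀, hi₀⟩ := hnc
  set E : IntermediateField k K := IntermediateField.adjoin k (Set.range x) with hE
  have hxE : ∀ i, x i ∈ E := fun i => IntermediateField.subset_adjoin k _ ⟨i, rfl⟩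
  haveI : FiniteDimensional E K := hK.finiteDimensional_of_mem hi₀ E (hxE i₀)
  haveI : CharZero E := charZero_of_injective_algebraMap (algebraMap k E).injective
  set n : E := (Module.finrank E K : E) with hn
  have hn0 : n ≠ 0 := by
    rw [hn]; exact_mod_cast (Module.finrank_pos (R := E) (M := K)).ne'
  set x' : Fin 2 → E := fun i => ⟨x i, hxE i⟩ with hx'
  have hxx' : ∀ i, algebraMap E K (x' i) = x i := fun i => rfl
  have hae : ∀ H : MvPolynomial (Fin 2) k, algebraMap E K (aeval x' H) = aeval x H := by
    intro H
    rw [← aeval_algebraMap_apply]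
    rfl
  have hx'F : aeval x' F = 0 := by
    apply (algebraMap E K).injective
    rw [hae, hx, map_zero]
  have hnc' : ∃ i, x' i ∉ Set.range (algebraMap k E) := by
    refine ⟨i₀, ?_⟩
    rintro ⟨c, hc⟩
    apply hi₀
    refine ⟨c, ?_⟩
    rw [IsScalarTower.algebraMap_apply k E K, hc, hxx']
  have hgen : IntermediateField.adjoin k (Set.range x') = ⊤ := by
    have hinj : Function.Injective (IntermediateField.map (E.val)) :=
      IntermediateField.map_injective _
    apply hinj
    rw [IntermediateField.adjoin_map, ← AlgHom.fieldRange_eq_map, IntermediateField.fieldRange_val]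
    have : E.val '' Set.range x' = Set.range x := by
      rw [← Set.range_comp]; rfl
    rw [this]
  set z : Fin 2 → E := fun i => n⁻¹ * Algebra.trace E K (δ i) with hz
  have hrel : aeval x' G + ∑ i, aeval x' (pderiv i F) * z i = 0 := by
    have h1 := congrArg (Algebra.trace E K) h
    rw [map_add, map_sum, map_zero, ← hae, Algebra.trace_algebraMap] at h1
    have h2 : ∀ i, Algebra.trace E K (aeval x (pderiv i F) * δ i)
        = aeval x' (pderiv i F) * Algebra.trace E K (δ i) := by
      intro i
      rw [← hae, ← Algebra.smul_def, map_smul, smul_eq_mul]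
    simp only [h2] at h1
    rw [nsmul_eq_mul, ← hn] at h1
    have h3 : n * (aeval x' G + ∑ i, aeval x' (pderiv i F) * z i) = 0 := by
      rw [mul_add, Finset.mul_sum, ← h1]
      congr 1
      refine Finset.sum_congr rfl fun i _ => ?_
      simp only [hz]
      field_simp
    exact (mul_eq_zero.1 h3).resolve_left hn0
  have hzb : ∀ O : ValuationSubring E, Over k O → ∀ i, Bdd O x' (z i) := by
    intro O hO i
    -- the dominating element
    obtain ⟨u, hu0, huv, hu⟩ : ∃ u : E, u ≠ 0 ∧ O.valuation u = sz O x' ∧
        (∀ V : ValuationSubring K, (∀ a ∈ O, algebraMap E K a ∈ V) → ∀ w : K, Bdd V x w →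
          w / algebraMap E K u ∈ V) := by
      have main : ∀ u : E, u ≠ 0 → O.valuation u = sz O x' →
          (∀ V : ValuationSubring K, (∀ a ∈ O, algebraMap E K a ∈ V) → ∀ w : K, Bdd V x w →
          w / algebraMap E K u ∈ V) := by
        intro u hu0 huv V hV w hw
        obtain ⟨a, b, c, ha, hb, hc, rfl⟩ := hw
        have h0 : (sz O x')⁻¹ * sz O x' = 1 := inv_mul_cancel₀ (sz_pos x').ne'
        have hdiv : ∀ e : E, O.valuation e ≤ sz O x' → algebraMap E K (e / u) ∈ V := by
          intro e he
          apply hV
          rw [← O.valuation_le_one_iff, map_div₀, huv]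
          exact div_le_one_of_le₀ he zero_le
        have e1 : (algebraMap E K u)⁻¹ ∈ V := by
          have := hdiv 1 (by rw [map_one]; exact one_le_sz x')
          rwa [one_div, map_inv₀] at this
        have e2 : ∀ j, x j / algebraMap E K u ∈ V := by
          intro j
          have := hdiv (x' j) (val_le_sz x' j)
          rwa [map_div₀, hxx'] at this
        have : (a + b * x 0 + c * x 1) / algebraMap E K u
            = a * (algebraMap E K u)⁻¹ + b * (x 0 / algebraMap E K u)
              + c * (x 1 / algebraMap E K u) := by
          ring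
        rw [this]
        exact V.add_mem _ _ (V.add_mem _ _ (V.mul_mem _ _ ha e1) (V.mul_mem _ _ hb (e2 0)))
          (V.mul_mem _ _ hc (e2 1))
      rcases (one_le_sz (O := O) x').eq_or_lt with h1 | h1
      · exact ⟨1, one_ne_zero, by rw [map_one, h1],
          main 1 one_ne_zero (by rw [map_one, h1])⟩
      · obtain ⟨j, hj⟩ := exists_dominant h1
        have h0 : x' j ≠ 0 := by
          intro h0
          rw [h0, map_zero] at hj
          exact (sz_pos (O := O) x').ne hj
        exact ⟨x' j, h0, hj, main _ h0 hj⟩
    have h1 : Algebra.trace E K (δ i / algebraMap E K u) ∈ O := by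
      refine trace_mem O _ fun V hV => hu V hV _ (hδ V ?_ i)
      intro c
      rw [IsScalarTower.algebraMap_apply k E K]
      exact hV _ (hO c)
    have h2 : Algebra.trace E K (δ i) = u * Algebra.trace E K (δ i / algebraMap E K u) := by
      rw [← smul_eq_mul, ← map_smul, Algebra.smul_def]
      congr 1
      have : algebraMap E K u ≠ 0 := by simpa using hu0
      field_simp
    rw [bdd_iff]
    simp only [hz]
    rw [h2, map_mul, map_mul, huv]
    have h3 : O.valuation n⁻¹ ≤ 1 := by
      rw [O.valuation_le_one_iff, hn]
      have := hO ((Module.finrank E K : k)⁻¹)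
      rwa [map_inv₀, map_natCast] at this
    have h4 := (O.valuation_le_one_iff _).2 h1
    calc _ ≤ 1 * (sz O x' * 1) := by gcongr
      _ = _ := by rw [one_mul, mul_one]
  have hzs : ∀ i, z i ∈ Submodule.span k ({1, x' 0, x' 1} : Set E) := fun i =>
    hF.complete x' hx'F hnc' hgen (z i) fun O hO => hzb O hO i
  have hspan : ∀ w : E, w ∈ Submodule.span k ({1, x' 0, x' 1} : Set E) →
      algebraMap E K w ∈ Submodule.span k ({1, x 0, x 1} : Set K) := by
    intro w hw
    have h1 : (Submodule.span k ({1, x' 0, x' 1} : Set E)).map (Algebra.linearMap E K |>.restrictScalars k)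
        ≤ Submodule.span k ({1, x 0, x 1} : Set K) := by
      rw [Submodule.map_span, Submodule.span_le]
      rintro _ ⟨y, hy, rfl⟩
      simp only [Set.mem_insert_iff, Set.mem_singleton_iff] at hy
      rcases hy with rfl | rfl | rfl
      · simp only [LinearMap.coe_restrictScalars, Algebra.linearMap_apply, map_one]
        exact Submodule.subset_span (by simp)
      · exact Submodule.subset_span (by simp [hxx'])
      · exact Submodule.subset_span (by simp [hxx'])
    exact h1 ⟨w, hw, rfl⟩
  -- the difference is tangent
  set τ : Fin 2 → K := fun i => δ i - algebraMap E K (z i) with hτ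
  have htan : ∑ i, aeval x (pderiv i F) * τ i = 0 := by
    have h1 := congrArg (algebraMap E K) hrel
    rw [map_add, map_sum, map_zero, hae] at h1
    have h2 : ∀ i, algebraMap E K (aeval x' (pderiv i F) * z i)
        = aeval x (pderiv i F) * algebraMap E K (z i) := by
      intro i; rw [map_mul, hae]
    simp only [h2] at h1
    have h3 : ∑ i, aeval x (pderiv i F) * τ i
        = (aeval x G + ∑ i, aeval x (pderiv i F) * δ i)
          - (aeval x G + ∑ i, aeval x (pderiv i F) * algebraMap E K (z i)) := by
      simp only [hτ, mul_sub, Finset.sum_sub_distrib]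
      ring
    rw [h3, h, h1, sub_zero]
  have hτb : ∀ O : ValuationSubring K, Over k O → ∀ i, Bdd O x (τ i) := by
    intro O hO i
    rw [bdd_iff]
    refine O.valuation.map_sub_le (hδ O hO i).val_le ?_
    have h1 := hspan _ (hzs i)
    -- elements of the span are bounded
    have h2 : ∀ w ∈ Submodule.span k ({1, x 0, x 1} : Set K), O.valuation w ≤ sz O x := by
      intro w hw
      induction hw using Submodule.span_induction with
      | mem y hy =>
        simp only [Set.mem_insert_iff, Set.mem_singleton_iff] at hy
        rcases hy with rfl | rfl | rfl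
        · rw [map_one]; exact one_le_sz x
        · exact val_le_sz x 0
        · exact val_le_sz x 1
      | zero => rw [map_zero]; exact zero_le
      | add a b _ _ ha hb => exact O.valuation.map_add_le ha hb
      | smul c a _ ha =>
        rw [Algebra.smul_def, map_mul]
        calc _ ≤ 1 * sz O x := by gcongr; exact val_const_le hO c
          _ = _ := one_mul _
    exact h2 _ h1
  have hkey := (hF.key x hx ⟨i₀, hi₀⟩ τ htan hτb).1
  intro i
  have : δ i = τ i + algebraMap E K (z i) := by simp [hτ]
  rw [this]
  exact Submodule.add_mem _ (hkey i) (hspan _ (hzs i))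

end

end MP60829e.S
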