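import Mathlib
import Pool.Agent.Lib.MP_60829e_nt.S.Defs
import Pool.Agent.Lib.MP_60829e_nt.S.Finite
import Pool.Agent.Lib.MP_60829e_nt.S.Forms
import Pool.Agent.Lib.MP_60829e_nt.S.Rigid
import Pool.Agent.Lib.MP_60829e_nt.S.Dual

/-! Finiteness of normalised points with a smooth relation, in one stratum. -/

open MvPolynomial

set_option linter.style.haveILetI false

namespace MP60829e.S

section

variable {k : Type*} [Field k] [IsAlgClosed k] [CharZero k]
variable {K : Type*} [Field K] [Algebra k K]

omit [IsAlgClosed k] [CharZero k] in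
theorem aeval_sum_monomial {T : Finset (Fin 2 →₀ ℕ)} {H : MvPolynomial (Fin 2) k}
    (hT : H.support ⊆ T) {B : Type*} [CommRing B] [Algebra k B] (y : Fin 2 → B) :
    aeval y H = ∑ ν ∈ T, algebraMap k B (coeff ν H) * ∏ i, y i ^ ν i := by
  rw [aeval_def, eval₂_eq']
  refine Finset.sum_subset hT fun ν _ hν => ?_
  rw [notMem_support_iff.1 hν, map_zero, zero_mul]

theorem slice_finite (hK : IsCurveField k K) (C' : Submodule k K) [FiniteDimensional k C']
    (m : ℕ) (μ : Fin 2 →₀ ℕ) (x₁ : Fin 2 → K) (S : Set (Fin 2 → K))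
    (hS : ∀ x ∈ S, (∀ i, x i - x₁ i ∈ C') ∧ (∃ i, x i ∉ Set.range (algebraMap k K)) ∧
      (∃ F : MvPolynomial (Fin 2) k, Good F ∧ aeval x F = 0 ∧ F.totalDegree = m ∧
        coeff μ F = 1) ∧
      (∀ O : ValuationSubring K, Over k O → ∀ u ∈ C', Bdd O x u) ∧
      Disjoint C' (Submodule.span k ({1, x 0, x 1} : Set K))) :
    S.Finite := by
  classical
  -- monomials of degree at most m
  have hTfin : {ν : Fin 2 →₀ ℕ | ∑ i, ν i ≤ m}.Finite := by
    refine (Set.finite_Iic (Finsupp.equivFunOnFinite.symm fun _ : Fin 2 => m)).subset ?_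
    intro ν hν i
    have h1 : ν i ≤ ∑ j, ν j := Finset.single_le_sum (fun j _ => Nat.zero_le _) (Finset.mem_univ i)
    exact h1.trans hν
  set T : Finset (Fin 2 →₀ ℕ) := hTfin.toFinset with hTdef
  have memT : ∀ ν, ν ∈ T ↔ ∑ i, ν i ≤ m := fun ν => by rw [hTdef]; simp
  have suppT : ∀ H : MvPolynomial (Fin 2) k, H.totalDegree ≤ m → H.support ⊆ T := by
    intro H hH ν hν
    rw [memT]
    have := le_totalDegree hν
    rw [Finsupp.sum_fintype _ _ (fun _ => rfl)] at this
    exact this.trans hH
  set p := Module.finrank k C' with hp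
  let c := Module.finBasis k C'
  let ι := (Fin 2 × Fin p) ⊕ ↥(T.erase μ)
  let L : Fin 2 → MvPolynomial ι K := fun i => C (x₁ i) + ∑ j, C ((c j : C') : K) * X (Sum.inl (i, j))
  let Φ : MvPolynomial ι K := (∑ ν : ↥(T.erase μ), X (Sum.inr ν) * ∏ i, L i ^ (ν.1 i))
    + ∏ i, L i ^ (μ i)
  have h3 : ∀ x ∈ S, ∃ F : MvPolynomial (Fin 2) k, Good F ∧ aeval x F = 0 ∧ F.totalDegree = m ∧
        coeff μ F = 1 := fun x hx => (hS x hx).2.2.1
  choose! F hF using h3
  have h4 : ∀ x ∈ S, ∃ a : Fin 2 → Fin p → k, ∀ i, x i = x₁ i + ∑ j, a i j • ((c j : C') : K) := by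
    intro x hx
    refine ⟨fun i j => c.repr ⟨x i - x₁ i, (hS x hx).1 i⟩ j, fun i => ?_⟩
    have h5 := c.sum_repr ⟨x i - x₁ i, (hS x hx).1 i⟩
    have h6 := congrArg (Subtype.val) h5
    simp only [Submodule.coe_sum, Submodule.coe_smul] at h6
    rw [h6]; ring
  choose! a ha using h4
  let σ : (Fin 2 → K) → (ι → k) := fun x => Sum.elim (fun q => a x q.1 q.2) fun ν => coeff ν.1 (F x)
  have hinj : Set.InjOn σ S := by
    intro x hx y hy hxy
    funext i
    rw [ha x hx i, ha y hy i]
    congr 1
    refine Finset.sum_congr rfl fun j _ => ?_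
    have := congrFun hxy (Sum.inl (i, j))
    simp only [σ, Sum.elim_inl] at this
    rw [this]
  -- evaluation in an extension ring
  have hμT : ∀ x ∈ S, μ ∈ T := by
    intro x hx
    obtain ⟨h5, h6, h7, h8⟩ := hF x hx
    exact suppT _ h7.le (mem_support_iff.2 (by rw [h8]; exact one_ne_zero))
  have hLval : ∀ x ∈ S, ∀ i, eval (fun t => algebraMap k K (σ x t)) (L i) = x i := by
    intro x hx i
    simp only [L, map_add, map_sum, map_mul, eval_C, eval_X, σ, Sum.elim_inl]
    conv_rhs => rw [ha x hx i]
    congr 1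
    refine Finset.sum_congr rfl fun j _ => ?_
    rw [Algebra.smul_def, mul_comm]
  have sumsplit : ∀ x ∈ S, ∀ (B : Type _) [CommRing B] (f : (Fin 2 →₀ ℕ) → B),
      ∑ ν ∈ T, f ν = (∑ ν : ↥(T.erase μ), f ν.1) + f μ := by
    intro x hx B _ f
    rw [Finset.sum_coe_sort (T.erase μ) f, Finset.sum_erase_add _ _ (hμT x hx)]
  have hfin : (σ '' S).Finite := by
    refine finite_of_rigid Φ (σ '' S) ?_ ?_
    · rintro _ ⟨x, hx, rfl⟩
      obtain ⟨h5, h6, h7, h8⟩ := hF x hx
      have h9 := aeval_sum_monomial (suppT _ h7.le) x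
      rw [h6, sumsplit x hx] at h9
      simp only [Φ, map_add, map_sum, map_mul, map_prod, map_pow, eval_X, hLval x hx]
      rw [h8, map_one, one_mul] at h9
      exact h9.symm
    · rintro _ ⟨x, hx, rfl⟩ d hd
      obtain ⟨h5, h6, h7, h8⟩ := hF x hx
      -- tangent data
      set δ : Fin 2 → K := fun i => ∑ j, d (Sum.inl (i, j)) • ((c j : C') : K) with hδ
      set G : MvPolynomial (Fin 2) k := ∑ ν : ↥(T.erase μ), monomial ν.1 (d (Sum.inr ν)) with hG
      have hδC : ∀ i, δ i ∈ C' := fun i =>
        Submodule.sum_mem _ fun j _ => Submodule.smul_mem _ _ (c j).2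
      have hdual := aeval_dual (A := K) (B := K) (fun t => algebraMap k K (σ x t))
        (fun t => algebraMap k K (d t)) Φ
      have hLd : ∀ i, aeval (fun t => (TrivSqZeroExt.inl (algebraMap k K (σ x t))
          + TrivSqZeroExt.inr (algebraMap k K (d t)) : TrivSqZeroExt K K)) (L i)
          = TrivSqZeroExt.inl (x i) + TrivSqZeroExt.inr (δ i) := by
        intro i
        rw [aeval_dual]
        have e1 : aeval (fun t => algebraMap k K (σ x t)) (L i) = x i := by
          have := hLval x hx i
          rwa [← coe_aeval_eq_eval] at this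
        rw [e1]
        congr 2
        simp only [L, map_add, map_sum, Derivation.leibniz, pderiv_C, pderiv_X, smul_eq_mul,
          mul_zero, zero_add, map_mul, aeval_C, Algebra.algebraMap_self, RingHom.id_apply,
          Finset.sum_mul, add_zero]
        rw [Finset.sum_comm, hδ]
        refine Finset.sum_congr rfl fun j _ => ?_
        rw [Finset.sum_eq_single (Sum.inl (i, j))]
        · rw [Pi.single_eq_same, map_one, mul_one, Algebra.smul_def, mul_comm]
        · intro b _ hb
          rw [Pi.single_eq_of_ne' hb, map_zero, mul_zero, zero_mul]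
        · intro h; exact absurd (Finset.mem_univ _) h
      have hΦd : aeval (fun t => (TrivSqZeroExt.inl (algebraMap k K (σ x t))
          + TrivSqZeroExt.inr (algebraMap k K (d t)) : TrivSqZeroExt K K)) Φ
          = aeval (fun i => (TrivSqZeroExt.inl (x i) + TrivSqZeroExt.inr (δ i) :
              TrivSqZeroExt K K)) (F x)
            + TrivSqZeroExt.inr (aeval x G) := by
        rw [aeval_sum_monomial (suppT _ h7.le)
          (fun i => (TrivSqZeroExt.inl (x i) + TrivSqZeroExt.inr (δ i) : TrivSqZeroExt K K)),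
          sumsplit x hx]
        simp only [Φ, map_add, map_sum, map_mul, map_prod, map_pow, aeval_X, hLd]
        rw [h8, map_one, one_mul]
        have e2 : ∀ ν : ↥(T.erase μ),
            (TrivSqZeroExt.inl (algebraMap k K (σ x (Sum.inr ν)))
              + TrivSqZeroExt.inr (algebraMap k K (d (Sum.inr ν))) : TrivSqZeroExt K K)
              * ∏ i, (TrivSqZeroExt.inl (x i) + TrivSqZeroExt.inr (δ i) :
                TrivSqZeroExt K K) ^ ν.1 i
            = algebraMap k (TrivSqZeroExt K K) (coeff ν.1 (F x))
              * ∏ i, (TrivSqZeroExt.inl (x i) + TrivSqZeroExt.inr (δ i) :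
                TrivSqZeroExt K K) ^ ν.1 i
              + TrivSqZeroExt.inr (aeval x (monomial ν.1 (d (Sum.inr ν)))) := by
          intro ν
          rw [add_mul]
          congr 1
          have e3 : ∀ (r : K) (P : TrivSqZeroExt K K), TrivSqZeroExt.inr r * P
              = TrivSqZeroExt.inr (r * P.fst) := by
            intro r P
            ext
            · simp
            · simp [mul_comm]
          rw [e3]
          congr 1
          have e4 : (∏ i, (TrivSqZeroExt.inl (x i) + TrivSqZeroExt.inr (δ i) :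
                TrivSqZeroExt K K) ^ ν.1 i).fst = ∏ i, x i ^ ν.1 i := by
            rw [Fin.prod_univ_two, Fin.prod_univ_two, TrivSqZeroExt.fst_mul,
              TrivSqZeroExt.fst_pow, TrivSqZeroExt.fst_pow]
            simp
          rw [e4, aeval_monomial, Finsupp.prod_fintype _ _ (fun _ => pow_zero _)]
        rw [Finset.sum_congr rfl fun ν _ => e2 ν, Finset.sum_add_distrib, hG, map_sum]
        have e5 : ∀ f : ↥(T.erase μ) → K, ∑ ν, (TrivSqZeroExt.inr (f ν) : TrivSqZeroExt K K)
            = TrivSqZeroExt.inr (∑ ν, f ν) := by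
          intro f
          exact (map_sum (TrivSqZeroExt.inrHom K K) f Finset.univ).symm
        rw [e5]
        ring
      have hsum0 : ∑ t, aeval (fun t => algebraMap k K (σ x t)) (pderiv t Φ)
          * algebraMap k K (d t) = 0 := by
        rw [← hd]
        refine Finset.sum_congr rfl fun t _ => ?_
        rw [mul_comm, ← coe_aeval_eq_eval]; rfl
      rw [hdual, hsum0, aeval_dual] at hΦd
      have hrel : aeval x G + ∑ i, aeval x (pderiv i (F x)) * δ i = 0 := by
        have := congrArg TrivSqZeroExt.snd hΦd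
        simp only [TrivSqZeroExt.snd_add, TrivSqZeroExt.snd_inl, TrivSqZeroExt.snd_inr,
          zero_add] at this
        rw [add_comm]; exact this.symm
      obtain ⟨hx1, hx2, -, hx4, hx5⟩ := hS x hx
      have hspan := h5.rigid hK x h6 hx2 δ (fun O hO i => hx4 O hO _ (hδC i)) G hrel
      have hδ0 : ∀ i, δ i = 0 := fun i => by
        have := Submodule.disjoint_def.1 hx5 (δ i) (hδC i) (hspan i)
        exact this
      have hdl : ∀ i j, d (Sum.inl (i, j)) = 0 := by
        intro i j
        have h9 : ∑ j, d (Sum.inl (i, j)) • c j = 0 := by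
          apply Subtype.val_injective
          simp only [Submodule.coe_sum, Submodule.coe_smul, ZeroMemClass.coe_zero]
          exact hδ0 i
        exact Fintype.linearIndependent_iff.1 c.linearIndependent _ h9 j
      have hG0 : aeval x G = 0 := by
        rw [← hrel]; simp [hδ0]
      obtain ⟨q, hq⟩ := h5.dvd_of_aeval_eq_zero x h6 hx2 hG0
      have hcoefG : ∀ ν : ↥(T.erase μ), coeff ν.1 G = d (Sum.inr ν) := by
        intro ν
        rw [hG, coeff_sum]
        rw [Finset.sum_eq_single ν]
        · rw [coeff_monomial, if_pos rfl]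
        · intro b _ hb
          rw [coeff_monomial, if_neg]
          exact fun h => hb (Subtype.ext h)
        · intro h; exact absurd (Finset.mem_univ _) h
      have hcoefμ : coeff μ G = 0 := by
        rw [hG, coeff_sum]
        refine Finset.sum_eq_zero fun ν _ => ?_
        rw [coeff_monomial, if_neg]
        exact fun h => (Finset.mem_erase.1 ν.2).1 h
      have hGdeg : G.totalDegree ≤ m := by
        rw [hG]
        refine totalDegree_finsetSum_le fun ν _ => ?_
        refine (totalDegree_monomial_le _ _).trans ?_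
        have := (memT ν.1).1 (Finset.mem_erase.1 ν.2).2
        rwa [Finsupp.sum_fintype _ _ (fun _ => rfl)]
      have hGz : G = 0 := by
        by_contra hne
        have hq0 : q ≠ 0 := by rintro rfl; exact hne (by rw [hq, mul_zero])
        have hF0 : F x ≠ 0 := by
          intro h0; rw [h0] at h8; simp at h8
        have hdeg : G.totalDegree = (F x).totalDegree + q.totalDegree := by
          rw [hq, totalDegree_mul_of_isDomain hF0 hq0]
        have hq1 : q.totalDegree = 0 := by omega
        obtain ⟨r, rfl⟩ : ∃ r, q = C r := ⟨_, (totalDegree_eq_zero_iff_eq_C.1 hq1)⟩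
        rw [hq, mul_comm, coeff_C_mul, h8, mul_one] at hcoefμ
        exact hq0 (by rw [hcoefμ, map_zero])
      funext t
      rcases t with ⟨i, j⟩ | ν
      · exact hdl i j
      · rw [Pi.zero_apply, ← hcoefG ν, hGz, coeff_zero]
  exact Set.Finite.of_finite_image hfin hinj

end

end MP60829e.S
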