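import Mathlib
import Pool.Agent.Lib.MP_60829e_nt.S.Defs
import Pool.Agent.Lib.MP_60829e_nt.S.Slice
import Pool.Agent.Lib.MP_60829e_nt.S.Affine
import Pool.Agent.Lib.MP_60829e_nt.S.Places

/-! Finiteness of the planes with a smooth relation in a function field of one variable. -/

open MvPolynomial

set_option linter.style.haveILetI false

namespace MP60829e.S

section aux

variable {k : Type*} [Field k] {K : Type*} [Field K] [Algebra k K]

/-- A finite family of subspaces containing a complement (in `U`) of every subspace of `U`. -/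
theorem exists_complement_family (U : Submodule k K) [FiniteDimensional k U] :
    ∃ 𝒞 : Set (Submodule k K), 𝒞.Finite ∧ ∀ V ≤ U, ∃ C ∈ 𝒞, Disjoint V C ∧ V ⊔ C = U := by
  classical
  let b := Module.finBasis k U
  let B : Set K := Set.range fun i => (b i : K)
  have hB : Submodule.span k B = U := by
    have h1 : Submodule.span k (Set.range b) = ⊤ := b.span_eq
    have h2 := congrArg (Submodule.map U.subtype) h1
    rw [Submodule.map_span, Submodule.map_top, Submodule.range_subtype, ← Set.range_comp] at h2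
    exact h2
  have hBfin : B.Finite := Set.finite_range _
  refine ⟨(fun s => Submodule.span k s) '' (𝒫 B), (hBfin.finite_subsets).image _, ?_⟩
  intro V hV
  obtain ⟨s, hsV, hs, hsli⟩ := exists_linearIndependent k (V : Set K)
  rw [Submodule.span_eq] at hs
  have hsli' : LinearIndepOn k id s := hsli
  obtain ⟨t, ht, hst, hspan, htli⟩ := exists_linearIndepOn_id_extension hsli'
    (Set.subset_union_left (s := s) (t := B))
  refine ⟨Submodule.span k (t \ s), ⟨t \ s, ?_, rfl⟩, ?_, ?_⟩
  · intro y hy
    exact (ht hy.1).resolve_left hy.2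
  · have h3 : s ∪ (t \ s) = t := Set.union_sdiff_cancel hst
    rw [← h3] at htli
    have := ((linearIndepOn_id_union_iff (Set.disjoint_sdiff_right)).1 htli).2.2
    rwa [hs] at this
  · rw [← hs, ← Submodule.span_union, Set.union_sdiff_cancel hst]
    apply le_antisymm
    · rw [Submodule.span_le]
      intro y hy
      rcases ht hy with h | h
      · exact hV (hsV h)
      · rw [← hB]; exact Submodule.subset_span h
    · rw [← hB, Submodule.span_le]
      exact fun y hy => hspan (Or.inr hy)

/-- The subspace of elements of value at most `γ`. -/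
def ball (O : ValuationSubring K) (hO : Over k O) (γ : O.ValueGroup) : Submodule k K where
  carrier := {u | O.valuation u ≤ γ}
  add_mem' ha hb := O.valuation.map_add_le ha hb
  zero_mem' := by simp
  smul_mem' c u hu := by
    change O.valuation u ≤ γ at hu; change O.valuation (c • u) ≤ γ
    rw [Algebra.smul_def, map_mul]
    calc _ ≤ 1 * γ := by gcongr; exact val_const_le hO c
      _ = γ := one_mul _

theorem mem_ball {O : ValuationSubring K} {hO : Over k O} {γ : O.ValueGroup} {u : K} :
    u ∈ ball O hO γ ↔ O.valuation u ≤ γ := Iff.rfl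

theorem ball_finite (U : Submodule k K) [FiniteDimensional k U] (O : ValuationSubring K)
    (hO : Over k O) : (Set.range fun γ : O.ValueGroup => U ⊓ ball O hO γ).Finite := by
  have hchain : ∀ γ γ' : O.ValueGroup, U ⊓ ball O hO γ ≤ U ⊓ ball O hO γ' ∨
      U ⊓ ball O hO γ' ≤ U ⊓ ball O hO γ := by
    intro γ γ'
    rcases le_total γ γ' with h | h
    · left; exact inf_le_inf_left _ fun u hu => le_trans (mem_ball.1 hu) h
    · right; exact inf_le_inf_left _ fun u hu => le_trans (mem_ball.1 hu) h
  refine Set.Finite.of_finite_image (f := fun W : Submodule k K => Module.finrank k W)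
    ((Set.finite_Iic (Module.finrank k U)).subset ?_) ?_
  · rintro _ ⟨_, ⟨γ, rfl⟩, rfl⟩
    exact Submodule.finrank_mono inf_le_left
  · rintro _ ⟨γ, rfl⟩ _ ⟨γ', rfl⟩ h
    haveI : FiniteDimensional k ↥(U ⊓ ball O hO γ) :=
      Submodule.finiteDimensional_of_le (inf_le_left (a := U))
    haveI : FiniteDimensional k ↥(U ⊓ ball O hO γ') :=
      Submodule.finiteDimensional_of_le (inf_le_left (a := U))
    rcases hchain γ γ' with h1 | h1
    · exact Submodule.eq_of_le_of_finrank_eq h1 h
    · exact (Submodule.eq_of_le_of_finrank_eq h1 h.symm).symm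

theorem Good.C_mul {F : MvPolynomial (Fin 2) k} (hF : Good F) {a : k} (ha : a ≠ 0) :
    Good (C a * F) ∧ (C a * F).totalDegree = F.totalDegree := by
  have hF0 : F ≠ 0 := by
    rintro rfl
    have := hF.deg
    simp at this
  have hdeg : (C a * F).totalDegree = F.totalDegree := by
    rw [totalDegree_mul_of_isDomain (by simpa using ha) hF0, totalDegree_C, zero_add]
  refine ⟨⟨by rw [hdeg]; exact hF.deg, ?_, ?_⟩, hdeg⟩
  · rw [hdeg, homogeneousComponent_C_mul]
    have hu : IsUnit (C a : MvPolynomial (Fin 2) k) := (isUnit_iff_ne_zero.2 ha).map C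
    obtain ⟨u, hu⟩ := hu
    rw [← hu]
    have : Associated (homogeneousComponent F.totalDegree F)
        ((u : MvPolynomial (Fin 2) k) * homogeneousComponent F.totalDegree F) :=
      ⟨u, mul_comm _ _⟩
    exact this.squarefree_iff.1 hF.lead
  · intro x hx
    rw [map_mul, eval_C] at hx
    obtain ⟨i, hi⟩ := hF.smooth x ((mul_eq_zero.1 hx).resolve_left ha)
    refine ⟨i, ?_⟩
    rw [Derivation.leibniz, pderiv_C]
    simpa using ⟨ha, hi⟩

end aux

section

variable {k : Type*} [Field k] [IsAlgClosed k] [CharZero k]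
variable {K : Type*} [Field K] [Algebra k K]

/-- Degree bound. -/
theorem Good.degree_bound (U : Submodule k K) [FiniteDimensional k U] (h1 : (1 : K) ∈ U) {c : ℕ}
    (hc : ∀ d : ℕ, Module.finrank k ↥(U ^ d) ≤ c * (d + 1)) {x : Fin 2 → K} (hxU : ∀ i, x i ∈ U)
    {F : MvPolynomial (Fin 2) k} (hF : Good F) (hx : aeval x F = 0)
    (hnc : ∃ i, x i ∉ Set.range (algebraMap k K)) : F.totalDegree ≤ 4 * c := by
  classical
  have hd := hF.deg
  set m := F.totalDegree with hm
  set n := (m - 1) / 2 with hn
  have hn2 : 2 * n ≤ m - 1 := by omega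
  -- powers of U increase
  have h1U : (1 : Submodule k K) ≤ U := Submodule.one_le.2 h1
  have hmono : ∀ a b, a ≤ b → U ^ a ≤ U ^ b := by
    intro a b hab
    obtain ⟨e, rfl⟩ := Nat.exists_eq_add_of_le hab
    rw [pow_add]
    intro y hy
    have h2 : (1 : K) ∈ U ^ e := by
      have := Submodule.pow_mem_pow U h1 e
      rwa [one_pow] at this
    have := Submodule.mul_mem_mul hy h2
    rwa [mul_one] at this
  haveI : FiniteDimensional k ↥(U ^ (m - 1)) := by
    have hfg : U.FG := (Submodule.fg_iff_finiteDimensional U).2 inferInstance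
    exact (Submodule.fg_iff_finiteDimensional _).1 (hfg.pow _)
  let v : Fin (n + 1) × Fin (n + 1) → ↥(U ^ (m - 1)) := fun p =>
    ⟨x 0 ^ (p.1 : ℕ) * x 1 ^ (p.2 : ℕ), by
      refine hmono ((p.1 : ℕ) + p.2) _ (by omega) ?_
      rw [pow_add]
      exact Submodule.mul_mem_mul (Submodule.pow_mem_pow U (hxU 0) _)
        (Submodule.pow_mem_pow U (hxU 1) _)⟩
  have hli : LinearIndependent k v := by
    rw [Fintype.linearIndependent_iff]
    intro g hg
    let e : Fin (n + 1) × Fin (n + 1) → (Fin 2 →₀ ℕ) := fun p =>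
      Finsupp.single 0 (p.1 : ℕ) + Finsupp.single 1 (p.2 : ℕ)
    have he : Function.Injective e := by
      intro p q hpq
      have h0 := DFunLike.congr_fun hpq 0
      have h1 := DFunLike.congr_fun hpq 1
      simp [e] at h0 h1
      ext
      · exact h0
      · exact h1
    set P : MvPolynomial (Fin 2) k := ∑ p, monomial (e p) (g p) with hP
    have hPx : aeval x P = 0 := by
      have h2 := congrArg (Subtype.val) hg
      simp only [Submodule.coe_sum, Submodule.coe_smul, ZeroMemClass.coe_zero, v] at h2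
      rw [hP, map_sum, ← h2]
      refine Finset.sum_congr rfl fun p _ => ?_
      rw [aeval_monomial, Finsupp.prod_fintype _ _ (fun _ => pow_zero _), Fin.prod_univ_two,
        Algebra.smul_def]
      simp [e]
    have hPdeg : P.totalDegree ≤ 2 * n := by
      rw [hP]
      refine totalDegree_finsetSum_le fun p _ => ?_
      refine (totalDegree_monomial_le _ _).trans ?_
      rw [Finsupp.sum_fintype _ _ (fun _ => rfl), Fin.sum_univ_two]
      simp [e]
      omega
    have hP0 : P = 0 := by
      by_contra hne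
      obtain ⟨q, hq⟩ := hF.dvd_of_aeval_eq_zero x hx hnc hPx
      have hq0 : q ≠ 0 := by rintro rfl; exact hne (by rw [hq, mul_zero])
      have := totalDegree_mul_of_isDomain hF.ne_zero hq0
      rw [← hq] at this
      omega
    intro p
    have h3 : coeff (e p) P = g p := by
      rw [hP, coeff_sum, Finset.sum_eq_single p]
      · rw [coeff_monomial, if_pos rfl]
      · intro b _ hb
        rw [coeff_monomial, if_neg]
        exact fun h => hb (he h)
      · intro h; exact absurd (Finset.mem_univ _) h
    rw [← h3, hP0, coeff_zero]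
  have h4 := hli.fintype_card_le_finrank
  rw [Fintype.card_prod, Fintype.card_fin] at h4
  have h5 := h4.trans (hc (m - 1))
  have h6 : m - 1 + 1 = m := by omega
  rw [h6] at h5
  have h7 : m ≤ 2 * (n + 1) := by omega
  have h8 : (n + 1) * (n + 1) ≤ (2 * c) * (n + 1) := by
    calc (n + 1) * (n + 1) ≤ c * m := h5
      _ ≤ c * (2 * (n + 1)) := Nat.mul_le_mul_left _ h7
      _ = (2 * c) * (n + 1) := by ring
  have h9 : n + 1 ≤ 2 * c := Nat.le_of_mul_le_mul_right h8 (Nat.succ_pos n)
  omega

/-- Planes with a smooth relation. -/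
def Planes (k : Type*) [Field k] {K : Type*} [Field K] [Algebra k K] (U : Submodule k K) :
    Set (Submodule k K) :=
  {V | ∃ x : Fin 2 → K, (∀ i, x i ∈ U) ∧ (∃ i, x i ∉ Set.range (algebraMap k K)) ∧
    (∃ F : MvPolynomial (Fin 2) k, Good F ∧ aeval x F = 0) ∧
    V = Submodule.span k ({1, x 0, x 1} : Set K)}

/-- Change of generators. -/
theorem change_generators {x y : Fin 2 → K} {F : MvPolynomial (Fin 2) k} (hF : Good F)
    (hx : aeval x F = 0) (hnc : ∃ i, x i ∉ Set.range (algebraMap k K))
    (hxy : ∀ i, x i ∈ Submodule.span k ({1, y 0, y 1} : Set K)) :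
    (∃ i, y i ∉ Set.range (algebraMap k K)) ∧
      ∃ G : MvPolynomial (Fin 2) k, Good G ∧ aeval y G = 0 := by
  have h1 : ∀ i, ∃ a b c : k, x i = algebraMap k K a + algebraMap k K b * y 0
      + algebraMap k K c * y 1 := by
    intro i
    have := hxy i
    rw [Submodule.mem_span_insert] at this
    obtain ⟨a, z, hz, hxi⟩ := this
    rw [Submodule.mem_span_pair] at hz
    obtain ⟨b, c, hbc⟩ := hz
    refine ⟨a, b, c, ?_⟩
    rw [hxi, ← hbc, Algebra.smul_def, Algebra.smul_def, Algebra.smul_def]
    ring
  choose a b c habc using h1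
  have hync : ∃ i, y i ∉ Set.range (algebraMap k K) := by
    by_contra hcon
    push Not at hcon
    obtain ⟨i, hi⟩ := hnc
    obtain ⟨y0, hy0⟩ := hcon 0
    obtain ⟨y1, hy1⟩ := hcon 1
    apply hi
    refine ⟨a i + b i * y0 + c i * y1, ?_⟩
    rw [habc i, ← hy0, ← hy1]
    simp
  refine ⟨hync, ?_⟩
  let A : Matrix (Fin 2) (Fin 2) k := fun i => ![b i, c i]
  have hdet : A.det ≠ 0 := by
    intro h0
    rw [Matrix.det_fin_two] at h0
    simp only [A, Matrix.cons_val_zero, Matrix.cons_val_one] at h0
    -- a nontrivial linear relation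
    have key : ∀ α β γ : k, (α, β) ≠ (0, 0) →
        algebraMap k K α * x 0 + algebraMap k K β * x 1 = algebraMap k K γ → False := by
      intro α β γ hne hrel
      set L : MvPolynomial (Fin 2) k := C α * X 0 + C β * X 1 - C γ with hL
      have hLx : aeval x L = 0 := by
        rw [hL]; simp [hrel]
      have hdvd := hF.dvd_of_aeval_eq_zero x hx hnc hLx
      have hLdeg : L.totalDegree ≤ 1 := by
        rw [hL]
        refine (totalDegree_sub _ _).trans (max_le ((totalDegree_add _ _).trans (max_le ?_ ?_)) ?_)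
        · refine (totalDegree_mul _ _).trans ?_
          rw [totalDegree_C, totalDegree_X]
        · refine (totalDegree_mul _ _).trans ?_
          rw [totalDegree_C, totalDegree_X]
        · rw [totalDegree_C]; exact Nat.zero_le _
      have hL0 : L ≠ 0 := by
        intro h0
        apply hne
        have c0 := congrArg (coeff (Finsupp.single 0 1)) h0
        have c1 := congrArg (coeff (Finsupp.single 1 1)) h0
        have e1 : (Finsupp.single (1 : Fin 2) 1 : Fin 2 →₀ ℕ) ≠ Finsupp.single 0 1 := by
          intro h; have := DFunLike.congr_fun h 0; simp at this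
        have e2 : (0 : Fin 2 →₀ ℕ) ≠ Finsupp.single 0 1 := by
          intro h; have := DFunLike.congr_fun h 0; simp at this
        have e3 : (0 : Fin 2 →₀ ℕ) ≠ Finsupp.single 1 1 := by
          intro h; have := DFunLike.congr_fun h 1; simp at this
        rw [hL] at c0 c1
        simp only [coeff_sub, coeff_add, coeff_C_mul, coeff_X, coeff_C, coeff_zero] at c0 c1
        rw [if_neg e1, if_neg e2] at c0
        rw [if_neg e1.symm, if_neg e3] at c1
        simp at c0 c1
        rw [c0, c1]
      obtain ⟨q, hq⟩ := hdvd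
      have hq0 : q ≠ 0 := by rintro rfl; exact hL0 (by rw [hq, mul_zero])
      have h5 := totalDegree_mul_of_isDomain hF.ne_zero hq0
      rw [← hq] at h5
      have h6 := hF.deg
      omega
    by_cases hb : (b 0, b 1) = (0, 0)
    · by_cases hc : (c 0, c 1) = (0, 0)
      · -- x is constant
        obtain ⟨i, hi⟩ := hnc
        apply hi
        refine ⟨a i, ?_⟩
        rw [habc i]
        simp only [Prod.mk.injEq] at hb hc
        fin_cases i
        · simp [hb.1, hc.1]
        · simp [hb.2, hc.2]
      · simp only [Prod.mk.injEq] at hb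
        refine key (c 1) (-(c 0)) (c 1 * a 0 - c 0 * a 1) ?_ ?_
        · intro h; apply hc
          simp only [Prod.mk.injEq, neg_eq_zero] at h ⊢
          exact ⟨h.2, h.1⟩
        · rw [habc 0, habc 1, hb.1, hb.2]
          simp only [map_zero, zero_mul, add_zero, map_neg, map_sub, map_mul]
          ring
    · refine key (b 1) (-(b 0)) (b 1 * a 0 - b 0 * a 1) ?_ ?_
      · intro h; apply hb
        simp only [Prod.mk.injEq, neg_eq_zero] at h ⊢
        exact ⟨h.2, h.1⟩
      · rw [habc 0, habc 1]
        have h7 : algebraMap k K (b 0) * algebraMap k K (c 1)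
            - algebraMap k K (c 0) * algebraMap k K (b 1) = 0 := by
          rw [← map_mul, ← map_mul, ← map_sub, h0, map_zero]
        simp only [map_neg, map_sub, map_mul]
        linear_combination (-(y 1)) * h7
  refine ⟨_, hF.affine A a hdet, ?_⟩
  have h8 : aeval y (aeval (fun i => C (a i) + ∑ j, C (A i j) * X j :
      Fin 2 → MvPolynomial (Fin 2) k) F) = aeval x F := by
    rw [← AlgHom.comp_apply, comp_aeval]
    congr 2
    funext i
    rw [map_add, map_sum, Fin.sum_univ_two, habc i]
    simp only [map_mul, aeval_C, aeval_X, A, Matrix.cons_val_zero, Matrix.cons_val_one]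
    ring
  rw [h8, hx]

theorem finite_planes_curve (hK : IsCurveField k K) (U : Submodule k K) [FiniteDimensional k U]
    (h1 : (1 : K) ∈ U) {c : ℕ} (hc : ∀ d : ℕ, Module.finrank k ↥(U ^ d) ≤ c * (d + 1)) :
    (Planes k U).Finite := by
  classical
  obtain ⟨𝒞, h𝒞fin, h𝒞⟩ := exists_complement_family U
  have hVU : ∀ V ∈ Planes k U, V ≤ U := by
    rintro _ ⟨x, hxU, -, -, rfl⟩
    rw [Submodule.span_le]
    intro y hy
    simp only [Set.mem_insert_iff, Set.mem_singleton_iff] at hy
    rcases hy with rfl | rfl | rfl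
    · exact h1
    · exact hxU 0
    · exact hxU 1
  -- it suffices to treat one complement
  have hcover : Planes k U ⊆ ⋃ D ∈ 𝒞, {V ∈ Planes k U | Disjoint V D ∧ V ⊔ D = U} := by
    intro V hV
    obtain ⟨D, hD, hVD⟩ := h𝒞 V (hVU V hV)
    exact Set.mem_biUnion hD ⟨hV, hVD⟩
  refine (h𝒞fin.biUnion fun D _ => ?_).subset hcover
  -- the places
  have hUfg : U.FG := (Submodule.fg_iff_finiteDimensional U).2 inferInstance
  have hSgfin : {O : ValuationSubring K | Over k O ∧ ∃ u ∈ U, u ∉ O}.Finite := by
    obtain ⟨s, hs⟩ := hUfg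
    refine ((s.finite_toSet).biUnion fun e _ => hK.finite_places e).subset ?_
    rintro O ⟨hO, u, huU, huO⟩
    by_contra hcon
    simp only [Set.mem_iUnion, not_exists] at hcon
    apply huO
    have h2 : ∀ e ∈ s, e ∈ O := by
      intro e he
      by_contra h3
      exact hcon e he ⟨hO, h3⟩
    have h4 : U ≤ ball O hO 1 := by
      rw [← hs, Submodule.span_le]
      intro e he
      exact (O.valuation_le_one_iff _).2 (h2 e he)
    exact (O.valuation_le_one_iff _).1 (mem_ball.1 (h4 huU))
  set Sg : Set (ValuationSubring K) := {O | Over k O ∧ ∃ u ∈ U, u ∉ O} with hSg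
  haveI : Finite Sg := hSgfin
  rcases Set.eq_empty_or_nonempty {V ∈ Planes k U | Disjoint V D ∧ V ⊔ D = U} with hemp | hne
  · rw [hemp]; exact Set.finite_empty
  obtain ⟨V₀, ⟨x₀, hx₀U, hx₀nc, -, hV₀⟩, hV₀d, hV₀s⟩ := hne
  -- normalised generators
  have hgen : ∀ V ∈ {V ∈ Planes k U | Disjoint V D ∧ V ⊔ D = U}, ∃ (y : Fin 2 → K)
      (F : MvPolynomial (Fin 2) k) (μ : Fin 2 →₀ ℕ), (∀ i, y i ∈ U) ∧ (∀ i, y i - x₀ i ∈ D) ∧
      V = Submodule.span k ({1, y 0, y 1} : Set K) ∧ (∃ i, y i ∉ Set.range (algebraMap k K)) ∧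
      Good F ∧ aeval y F = 0 ∧ coeff μ F = 1 ∧ F.totalDegree ≤ 4 * c := by
    rintro V ⟨⟨x, hxU, hxnc, ⟨F, hF, hxF⟩, hV⟩, hVd, hVs⟩
    have h2 : ∀ i, ∃ v ∈ V, ∃ w ∈ D, v + w = x₀ i := by
      intro i
      have := hx₀U i
      rwa [← hVs, Submodule.mem_sup] at this
    choose y hyV w hwC hyw using h2
    have hone : (1 : K) ∈ V := by rw [hV]; exact Submodule.subset_span (by simp)
    have hVspan : V = Submodule.span k ({1, y 0, y 1} : Set K) := by
      apply le_antisymm
      · intro u hu
        have huU : u ∈ V₀ ⊔ D := by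
          rw [hV₀s]; rw [← hVs]; exact Submodule.mem_sup_left hu
        obtain ⟨v₀, hv₀, e, he, hve⟩ := Submodule.mem_sup.1 huU
        rw [hV₀, Submodule.mem_span_insert] at hv₀
        obtain ⟨α, z, hz, hv₀z⟩ := hv₀
        rw [Submodule.mem_span_pair] at hz
        obtain ⟨β, γ, hβγ⟩ := hz
        have h3 : u - (α • 1 + (β • y 0 + γ • y 1)) = β • w 0 + γ • w 1 + e := by
          rw [← hve, hv₀z, ← hβγ, ← hyw 0, ← hyw 1]
          simp only [smul_add]
          ring
        have h4 : u - (α • 1 + (β • y 0 + γ • y 1)) ∈ V :=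
          V.sub_mem hu (V.add_mem (V.smul_mem _ hone)
            (V.add_mem (V.smul_mem _ (hyV 0)) (V.smul_mem _ (hyV 1))))
        have h5 : u - (α • 1 + (β • y 0 + γ • y 1)) ∈ D := by
          rw [h3]
          exact D.add_mem (D.add_mem (D.smul_mem _ (hwC 0)) (D.smul_mem _ (hwC 1))) he
        have h6 := Submodule.disjoint_def.1 hVd _ h4 h5
        rw [sub_eq_zero] at h6
        rw [h6]
        exact Submodule.add_mem _ (Submodule.smul_mem _ _ (Submodule.subset_span (by simp)))
          (Submodule.add_mem _ (Submodule.smul_mem _ _ (Submodule.subset_span (by simp)))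
            (Submodule.smul_mem _ _ (Submodule.subset_span (by simp))))
      · rw [Submodule.span_le]
        intro u hu
        simp only [Set.mem_insert_iff, Set.mem_singleton_iff] at hu
        rcases hu with rfl | rfl | rfl
        · exact hone
        · exact hyV 0
        · exact hyV 1
    have hxs : ∀ i, x i ∈ Submodule.span k ({1, y 0, y 1} : Set K) := by
      intro i
      rw [← hVspan, hV]
      fin_cases i
      · exact Submodule.subset_span (by simp)
      · exact Submodule.subset_span (by simp)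
    obtain ⟨hync, G, hG, hyG⟩ := change_generators hF hxF hxnc hxs
    obtain ⟨μ, hμ⟩ := ne_zero_iff.1 hG.ne_zero
    obtain ⟨hG', -⟩ := hG.C_mul (inv_ne_zero hμ)
    have hyU : ∀ i, y i ∈ U := fun i => by
      rw [← hVs]; exact Submodule.mem_sup_left (hyV i)
    have hyG' : aeval y (C (coeff μ G)⁻¹ * G) = 0 := by rw [map_mul, hyG, mul_zero]
    refine ⟨y, C (coeff μ G)⁻¹ * G, μ, hyU, ?_, hVspan, hync, hG', hyG', ?_, ?_⟩
    · intro i
      rw [← hyw i]
      have : y i - (y i + w i) = - w i := by ring
      rw [this]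
      exact D.neg_mem (hwC i)
    · rw [coeff_C_mul, inv_mul_cancel₀ hμ]
    · exact hG'.degree_bound U h1 hc hyU hyG' hync
  choose! y F μ hyU hyC hyspan hync hGood hyF hμ hdeg using hgen
  -- exponents of bounded degree
  have hTfin : {ν : Fin 2 →₀ ℕ | ∑ i, ν i ≤ 4 * c}.Finite := by
    refine (Set.finite_Iic (Finsupp.equivFunOnFinite.symm fun _ : Fin 2 => 4 * c)).subset ?_
    intro ν hν i
    have h1 : ν i ≤ ∑ j, ν j := Finset.single_le_sum (fun j _ => Nat.zero_le _) (Finset.mem_univ i)
    exact h1.trans hν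
  -- the code of a plane
  let code : Submodule k K → ℕ × (Fin 2 →₀ ℕ) × (Sg → Submodule k K) := fun V =>
    ((F V).totalDegree, μ V, fun O => U ⊓ ball O.1 O.2.1 (sz O.1 (y V)))
  refine Set.Finite.of_finite_fibers code ?_ ?_
  · refine (((Set.finite_Iic (4 * c)).prod (hTfin.prod (Set.Finite.pi' (ι := Sg)
      (κ := fun _ => Submodule k K) (t := fun O => Set.range fun γ : O.1.ValueGroup =>
        U ⊓ ball O.1 O.2.1 γ) fun O => ball_finite U O.1 O.2.1)))).subset ?_
    rintro _ ⟨V, hV, rfl⟩
    refine ⟨hdeg V hV, ?_, fun O => ⟨_, rfl⟩⟩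
    have h2 : μ V ∈ (F V).support := by
      rw [mem_support_iff, hμ V hV]; exact one_ne_zero
    have h3 := le_totalDegree h2
    rw [Finsupp.sum_fintype _ _ (fun _ => rfl)] at h3
    exact h3.trans (hdeg V hV)
  · rintro _ ⟨V₁, hV₁, rfl⟩
    set fib := {V ∈ Planes k U | Disjoint V D ∧ V ⊔ D = U} ∩ code ⁻¹' {code V₁} with hfib
    have hCU : D ≤ U := by rw [← hV₀s]; exact le_sup_right
    let C' : Submodule k K := D ⊓ ⨅ O : Sg, U ⊓ ball O.1 O.2.1 (sz O.1 (y V₁))
    haveI : FiniteDimensional k C' := Submodule.finiteDimensional_of_le (inf_le_left.trans hCU)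
    have hslice : (y '' fib).Finite := by
      refine slice_finite hK C' (F V₁).totalDegree (μ V₁) (y V₁) (y '' fib) ?_
      rintro _ ⟨V, ⟨hV, hcode⟩, rfl⟩
      have hcode' : code V = code V₁ := hcode
      have hc1 : (F V).totalDegree = (F V₁).totalDegree := congrArg (fun z => z.1) hcode'
      have hc2 : μ V = μ V₁ := congrArg (fun z => z.2.1) hcode'
      have hc3 : ∀ O : Sg, U ⊓ ball O.1 O.2.1 (sz O.1 (y V))
          = U ⊓ ball O.1 O.2.1 (sz O.1 (y V₁)) := fun O =>
        congrFun (congrArg (fun z => z.2.2) hcode') O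
      refine ⟨?_, hync V hV, ⟨F V, hGood V hV, hyF V hV, hc1, by rw [← hc2]; exact hμ V hV⟩, ?_, ?_⟩
      · intro i
        refine ⟨?_, ?_⟩
        · have h2 := D.sub_mem (hyC V hV i) (hyC V₁ hV₁ i)
          have h3 : y V i - x₀ i - (y V₁ i - x₀ i) = y V i - y V₁ i := by ring
          rw [h3] at h2
          exact h2
        · simp only [Submodule.coe_iInf, Set.mem_iInter, SetLike.mem_coe]
          intro O
          refine Submodule.sub_mem _ ?_ ?_
          · rw [← hc3 O]
            exact ⟨hyU V hV i, val_le_sz _ _⟩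
          · exact ⟨hyU V₁ hV₁ i, val_le_sz _ _⟩
      · intro O hO u hu
        rw [bdd_iff]
        by_cases hOU : ∃ u ∈ U, u ∉ O
        · have h2 : u ∈ U ⊓ ball O hO (sz O (y V₁)) := by
            have h3 := hu.2
            simp only [Submodule.coe_iInf, Set.mem_iInter, SetLike.mem_coe] at h3
            exact h3 ⟨O, hO, hOU⟩
          have h4 := hc3 ⟨O, hO, hOU⟩
          simp only at h4
          rw [← h4] at h2
          exact h2.2
        · push Not at hOU
          exact ((O.valuation_le_one_iff _).2 (hOU u (hCU hu.1))).trans (one_le_sz _)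
      · rw [← hyspan V hV]
        exact (hV.2.1.mono_right inf_le_left).symm
    refine Set.Finite.of_finite_image hslice ?_
    rintro V ⟨hV, -⟩ V' ⟨hV', -⟩ h
    rw [hyspan V hV, hyspan V' hV', h]

end

end MP60829e.S
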