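import Pool.Agent.Lib.MP_60829e_nt.S.Growth

/-! Task H: a curve on which a given finite-dimensional space of functions restricts injectively. -/

open MvPolynomial

namespace MP60829e.S

section H

variable {k : Type*} [Field k]

/-- A function bounded by `C (d+1)^r` has a small increment. -/
lemma exists_small_increment (r C : ℕ) (h : ℕ → ℕ) (hh : ∀ d, h d ≤ C * (d + 1) ^ r) :
    ∃ d, h (d + 1) < h d + (d + 2) ^ r := by
  by_contra hcon
  push Not at hcon
  have h1 : ∀ m n, h m + n * (m + 1) ^ r ≤ h (m + n) := by
    intro m n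
    induction n with
    | zero => simp
    | succ n ih =>
      have h2 := hcon (m + n)
      have h3 : (m + 1) ^ r ≤ (m + n + 2) ^ r := Nat.pow_le_pow_left (by omega) r
      calc h m + (n + 1) * (m + 1) ^ r = h m + n * (m + 1) ^ r + (m + 1) ^ r := by ring
        _ ≤ h (m + n) + (m + n + 2) ^ r := Nat.add_le_add ih h3
        _ ≤ h (m + (n + 1)) := h2
  set m := C * 2 ^ r + 1 with hm
  have h2 := h1 m m
  have h3 := hh (m + m)
  have h4 : (m + m + 1) ^ r ≤ (2 * (m + 1)) ^ r := Nat.pow_le_pow_left (by omega) r
  have h5 : m * (m + 1) ^ r ≤ C * 2 ^ r * (m + 1) ^ r := by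
    calc m * (m + 1) ^ r ≤ h m + m * (m + 1) ^ r := Nat.le_add_left _ _
      _ ≤ h (m + m) := h2
      _ ≤ C * (m + m + 1) ^ r := h3
      _ ≤ C * (2 * (m + 1)) ^ r := Nat.mul_le_mul_left _ h4
      _ = C * 2 ^ r * (m + 1) ^ r := by rw [mul_pow]; ring
  have h6 : 0 < (m + 1) ^ r := Nat.pow_pos (by omega)
  have h7 := Nat.le_of_mul_le_mul_right h5 h6
  omega

/-- The substitution `X_i ↦ T^(N^i)`. -/
noncomputable def subst (k : Type*) [Field k] (r N : ℕ) :
    MvPolynomial (Fin r) k →ₐ[k] Polynomial k :=
  aeval fun i => (Polynomial.X : Polynomial k) ^ (N ^ (i : ℕ))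

lemma subst_monomial (r N : ℕ) (f : Fin r → Fin N) :
    subst k r N (monomial (Finsupp.equivFunOnFinite.symm fun i => (f i : ℕ)) 1) =
      (Polynomial.X : Polynomial k) ^ (finFunctionFinEquiv f : ℕ) := by
  rw [subst, aeval_monomial, finFunctionFinEquiv_apply, map_one, one_mul,
    Finsupp.prod_fintype _ _ (by simp)]
  rw [← Finset.prod_pow_eq_pow_sum]
  refine Finset.prod_congr rfl fun i _ => ?_
  simp only [Finsupp.equivFunOnFinite_symm_apply_apply]
  rw [← pow_mul, mul_comm]

lemma box_le_pow (r e : ℕ) : box k r e ≤ (box k r 1) ^ e := by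
  induction e with
  | zero =>
    rw [box, Submodule.span_le]
    rintro p ⟨s, hs, rfl⟩
    have h0 : s = 0 := by
      ext i
      simpa using hs i
    subst h0
    rw [pow_zero]
    exact Submodule.one_le.1 le_rfl
  | succ e ih =>
    rw [box, Submodule.span_le]
    rintro p ⟨s, hs, rfl⟩
    set t : Fin r →₀ ℕ := Finsupp.equivFunOnFinite.symm fun i => min (s i) 1 with ht
    have hts : t ≤ s := fun i => by simp [ht]
    have h1 : s = (s - t) + t := (tsub_add_cancel_of_le hts).symm
    have h2 : monomial s (1 : k) = monomial (s - t) 1 * monomial t 1 := by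
      rw [monomial_mul, one_mul, ← h1]
    rw [h2, pow_succ]
    refine Submodule.mul_mem_mul (ih (monomial_mem_box fun i => ?_))
      (monomial_mem_box fun i => ?_)
    · have := hs i
      simp only [Finsupp.coe_tsub, Pi.sub_apply, ht, Finsupp.equivFunOnFinite_symm_apply_apply]
      omega
    · simp [ht]

lemma box_fg (r e : ℕ) : (box k r e).FG := by
  obtain ⟨S, -, hS⟩ := box_eq_span (k := k) r e
  exact ⟨S, hS.symm⟩

/-- The curve case (`r > 0`): the dimension count. -/
lemma curve_section_aux {R : Type*} [CommRing R] [IsDomain R] [Algebra k R] {r : ℕ}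
    (φ : MvPolynomial (Fin r) k →ₐ[k] R) (U : Submodule k R) (d : ℕ)
    (hfg : U.FG)
    (hd : Module.finrank k ↥((U ⊔ (box k r 1).map φ.toLinearMap) ^ (d + 1)) <
      Module.finrank k ↥((U ⊔ (box k r 1).map φ.toLinearMap) ^ d) + (d + 2) ^ r)
    (P : Ideal R) (hP : P.comap φ.toRingHom = RingHom.ker (subst k r (d + 2)).toRingHom)
    (u : R) (huU : u ∈ U) (huP : u ∈ P) : u = 0 := by
  classical
  by_contra hu
  set M : Submodule k R := U ⊔ (box k r 1).map φ.toLinearMap with hM
  have hMfg : M.FG := hfg.sup ((box_fg r 1).map _)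
  have hVfg : ∀ e, (M ^ e).FG := fun e => hMfg.pow e
  have : FiniteDimensional k ↥(M ^ (d + 1)) := Module.Finite.iff_fg.2 (hVfg _)
  -- the restriction to the curve
  set g : ↥(M ^ (d + 1)) →ₗ[k] R ⧸ P := (Ideal.Quotient.mkₐ k P).toLinearMap ∘ₗ
    (M ^ (d + 1)).subtype with hg
  have hrn := LinearMap.finrank_range_add_finrank_ker g
  -- the kernel is large
  have huM : u ∈ M := Submodule.mem_sup_left huU
  have hker : Module.finrank k ↥(M ^ d) ≤ Module.finrank k (LinearMap.ker g) := by
    have hmem : ∀ x : ↥(M ^ d), u * (x : R) ∈ M ^ (d + 1) := fun x => by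
      rw [pow_succ']
      exact Submodule.mul_mem_mul huM x.2
    let f : ↥(M ^ d) →ₗ[k] LinearMap.ker g :=
      { toFun := fun x => ⟨⟨u * (x : R), hmem x⟩, by
          rw [LinearMap.mem_ker, hg]
          simp only [LinearMap.comp_apply, Submodule.subtype_apply, AlgHom.toLinearMap_apply,
            Ideal.Quotient.mkₐ_eq_mk]
          rw [Ideal.Quotient.eq_zero_iff_mem]
          exact P.mul_mem_right _ huP⟩
        map_add' := fun x y => by
          ext
          simp [mul_add]
        map_smul' := fun c x => by
          ext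
          simp }
    refine LinearMap.finrank_le_finrank_of_injective (f := f) fun x y hxy => ?_
    have h1 : u * (x : R) = u * (y : R) := by
      have := congrArg (fun z : LinearMap.ker g => ((z : ↥(M ^ (d + 1))) : R)) hxy
      simpa [f] using this
    exact Subtype.ext (mul_left_cancel₀ hu h1)
  -- the range is large
  have hrange : (d + 2) ^ r ≤ Module.finrank k (LinearMap.range g) := by
    have hmem : ∀ f : Fin r → Fin (d + 2),
        φ (monomial (Finsupp.equivFunOnFinite.symm fun i => (f i : ℕ)) 1) ∈ M ^ (d + 1) := by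
      intro f
      have h1 : (monomial (Finsupp.equivFunOnFinite.symm fun i => (f i : ℕ)) (1 : k)) ∈
          (box k r 1) ^ (d + 1) := by
        apply box_le_pow
        refine monomial_mem_box fun i => ?_
        have := (f i).2
        simp only [Finsupp.equivFunOnFinite_symm_apply_apply]
        omega
      have h2 : ((box k r 1) ^ (d + 1)).map φ.toLinearMap ≤ M ^ (d + 1) := by
        rw [Submodule.map_pow]
        exact pow_le_pow_left' le_sup_right _
      exact h2 ⟨_, h1, rfl⟩
    let v : (Fin r → Fin (d + 2)) → LinearMap.range g := fun f => ⟨g ⟨_, hmem f⟩, ⟨_, rfl⟩⟩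
    have hv : LinearIndependent k v := by
      rw [Fintype.linearIndependent_iff]
      intro c hc f
      have h1 : ∑ f, c f • (monomial (Finsupp.equivFunOnFinite.symm fun i => (f i : ℕ)) (1 : k) :
          MvPolynomial (Fin r) k) ∈ P.comap φ.toRingHom := by
        rw [Ideal.mem_comap]
        have h2 := congrArg (fun z : LinearMap.range g => (z : R ⧸ P)) hc
        rw [← Ideal.Quotient.eq_zero_iff_mem]
        have h3 : (φ.toRingHom (∑ f, c f • (monomial (Finsupp.equivFunOnFinite.symm
            fun i => (f i : ℕ)) (1 : k) : MvPolynomial (Fin r) k))) =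
            ∑ f, c f • φ (monomial (Finsupp.equivFunOnFinite.symm fun i => (f i : ℕ)) (1 : k)) := by
          change φ _ = _
          rw [map_sum]
          exact Finset.sum_congr rfl fun f _ => map_smul _ _ _
        rw [h3]
        have h4 : (Ideal.Quotient.mk P) (∑ f, c f • φ (monomial (Finsupp.equivFunOnFinite.symm
            fun i => (f i : ℕ)) (1 : k))) = ((∑ f, c f • v f : LinearMap.range g) : R ⧸ P) := by
          rw [← Ideal.Quotient.mkₐ_eq_mk k, map_sum]
          rw [AddSubmonoidClass.coe_finsetSum]
          refine Finset.sum_congr rfl fun f _ => ?_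
          rw [map_smul]
          rfl
        rw [h4, hc]
        rfl
      rw [hP, RingHom.mem_ker] at h1
      have h5 : (∑ f, c f • (Polynomial.X : Polynomial k) ^ (finFunctionFinEquiv f : ℕ)) = 0 := by
        rw [← h1]
        change _ = subst k r (d + 2) _
        rw [map_sum]
        refine Finset.sum_congr rfl fun f _ => ?_
        rw [map_smul, subst_monomial]
      have h6 := congrArg (fun p : Polynomial k => p.coeff (finFunctionFinEquiv f : ℕ)) h5
      simp only [Polynomial.finsetSum_coeff, Polynomial.coeff_smul, Polynomial.coeff_X_pow,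
        smul_eq_mul, mul_ite, mul_one, mul_zero, Polynomial.coeff_zero] at h6
      rw [Finset.sum_eq_single f] at h6
      · simpa using h6
      · intro b _ hb
        rw [if_neg]
        intro h
        exact hb (finFunctionFinEquiv.injective (Fin.ext h)).symm
      · simp
    have := hv.fintype_card_le_finrank
    simpa using this
  omega

/-- H. A curve on which a given finite-dimensional space of functions restricts injectively. -/
theorem curve_section {R : Type*} [CommRing R] [IsDomain R] [Algebra k R] [Algebra.FiniteType k R]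
    (U : Submodule k R) (hU : U.FG) :
    ∃ P : Ideal R, P.IsPrime ∧ (∀ u ∈ U, u ∈ P → u = 0) ∧
      ∃ ψ : Polynomial k →ₐ[k] R ⧸ P, ψ.toRingHom.Finite := by
  classical
  obtain ⟨r, φ, hinj, hfin⟩ := exists_finite_inj_algHom_of_fg k R
  rcases Nat.eq_zero_or_pos r with hr | hr
  · subst hr
    refine ⟨⊥, Ideal.isPrime_bot, fun u _ hu => by simpa using hu, Polynomial.aeval 0, ?_⟩
    have h1 : ((Ideal.Quotient.mk (⊥ : Ideal R)).comp
        (φ.toRingHom.comp (MvPolynomial.C : k →+* MvPolynomial (Fin 0) k))).Finite := by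
      refine RingHom.Finite.comp ?_ (RingHom.Finite.comp hfin ?_)
      · exact RingHom.Finite.of_surjective _ Ideal.Quotient.mk_surjective
      · exact RingHom.Finite.of_surjective _ (MvPolynomial.C_surjective _)
    have h2 : ((Ideal.Quotient.mk (⊥ : Ideal R)).comp
        (φ.toRingHom.comp (MvPolynomial.C : k →+* MvPolynomial (Fin 0) k))) =
        (Polynomial.aeval (R := k) (0 : R ⧸ (⊥ : Ideal R))).toRingHom.comp
          (Polynomial.C : k →+* Polynomial k) := by
      ext c
      simp only [RingHom.comp_apply]
      change Ideal.Quotient.mk ⊥ (φ (MvPolynomial.C c)) = Polynomial.aeval _ (Polynomial.C c)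
      rw [Polynomial.aeval_C, ← MvPolynomial.algebraMap_eq, AlgHom.commutes]
      rfl
    rw [h2] at h1
    exact RingHom.Finite.of_comp_finite h1
  · set M : Submodule k R := U ⊔ (box k r 1).map φ.toLinearMap with hM
    have hMfg : M.FG := hU.sup ((box_fg r 1).map _)
    obtain ⟨C, hC⟩ := growth φ hfin M hMfg
    obtain ⟨d, hd⟩ := exists_small_increment r C _ hC
    have hq : (RingHom.ker (subst k r (d + 2)).toRingHom).IsPrime := RingHom.ker_isPrime _
    obtain ⟨P, hPp, hP⟩ : ∃ P : Ideal R, P.IsPrime ∧
        P.comap φ.toRingHom = RingHom.ker (subst k r (d + 2)).toRingHom := by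
      let _ : Algebra (MvPolynomial (Fin r) k) R := φ.toRingHom.toAlgebra
      have hfin' : Module.Finite (MvPolynomial (Fin r) k) R := hfin
      have hint : Algebra.IsIntegral (MvPolynomial (Fin r) k) R := inferInstance
      refine Ideal.exists_ideal_over_prime_of_isIntegral_of_isDomain
        (RingHom.ker (subst k r (d + 2)).toRingHom) ?_
      have : RingHom.ker (algebraMap (MvPolynomial (Fin r) k) R) = ⊥ :=
        (RingHom.injective_iff_ker_eq_bot _).1 hinj
      rw [this]
      exact bot_le
    refine ⟨P, hPp, fun u huU huP => curve_section_aux φ U d hU hd P hP u huU huP, ?_⟩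
    refine ⟨Polynomial.aeval (Ideal.Quotient.mk P (φ (X ⟨0, hr⟩))), ?_⟩
    have h1 : ((Ideal.Quotient.mk P).comp φ.toRingHom).Finite :=
      RingHom.Finite.comp (RingHom.Finite.of_surjective _ Ideal.Quotient.mk_surjective) hfin
    have h2 : ((Ideal.Quotient.mk P).comp φ.toRingHom) =
        (Polynomial.aeval (R := k) (Ideal.Quotient.mk P (φ (X ⟨0, hr⟩)))).toRingHom.comp
          (subst k r (d + 2)).toRingHom := by
      have h3 : ((Ideal.Quotient.mkₐ k P).comp φ) =
          (Polynomial.aeval (R := k) (Ideal.Quotient.mk P (φ (X ⟨0, hr⟩)))).comp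
            (subst k r (d + 2)) := by
        refine MvPolynomial.algHom_ext fun i => ?_
        simp only [AlgHom.comp_apply, Ideal.Quotient.mkₐ_eq_mk, subst, aeval_X, map_pow,
          Polynomial.aeval_X]
        rw [← map_pow, ← map_pow, Ideal.Quotient.eq, ← map_sub]
        change _ ∈ P.comap φ.toRingHom
        rw [hP, RingHom.mem_ker]
        change subst k r (d + 2) _ = 0
        simp [subst]
      exact congrArg AlgHom.toRingHom h3
    rw [h2] at h1
    exact RingHom.Finite.of_comp_finite h1

end H

end MP60829e.S
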