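import Mathlib
import Pool.Agent.Lib.MP_60829e_nt.S.Defs
import Pool.Agent.Lib.MP_60829e_nt.S.Curve
import Pool.Agent.Lib.MP_60829e_nt.S.Section

/-! Finiteness of the planes with a smooth relation, in an arbitrary extension field. -/

open MvPolynomial

set_option linter.style.haveILetI false

namespace MP60829e.S

section

variable {k : Type*} [Field k]

/-- The fraction field of a domain which is finite over `k[T]` is a function field of one
variable. -/
theorem isCurveField_fractionRing {Q : Type*} [CommRing Q] [IsDomain Q] [Algebra k Q]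
    (ψ : Polynomial k →ₐ[k] Q) (hψ : ψ.toRingHom.Finite)
    (K : Type*) [Field K] [Algebra Q K] [IsFractionRing Q K] [Algebra k K] [IsScalarTower k Q K] :
    IsCurveField k K := by
  classical
  set t : K := algebraMap Q K (ψ Polynomial.X) with ht
  refine ⟨t, ?_⟩
  set E : IntermediateField k K := IntermediateField.adjoin k ({t} : Set K) with hE
  letI : Algebra (Polynomial k) Q := ψ.toRingHom.toAlgebra
  haveI hfin : Module.Finite (Polynomial k) Q := hψ
  letI : Algebra (Polynomial k) K := ((algebraMap Q K).comp ψ.toRingHom).toAlgebra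
  haveI : IsScalarTower (Polynomial k) Q K := IsScalarTower.of_algebraMap_eq' rfl
  have htE : t ∈ E := IntermediateField.subset_adjoin k _ rfl
  letI : Algebra (Polynomial k) E := (Polynomial.aeval (⟨t, htE⟩ : E)).toRingHom.toAlgebra
  haveI : IsScalarTower (Polynomial k) E K := by
    refine IsScalarTower.of_algebraMap_eq' ?_
    have h1 : (algebraMap (Polynomial k) K) = ((IsScalarTower.toAlgHom k Q K).comp ψ).toRingHom := rfl
    have h2 : ((algebraMap E K).comp (algebraMap (Polynomial k) E))
        = ((IsScalarTower.toAlgHom k E K).comp (Polynomial.aeval (⟨t, htE⟩ : E))).toRingHom := rfl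
    rw [h1, h2]
    congr 1
    apply Polynomial.algHom_ext
    simp [ht]
  obtain ⟨s, hs⟩ := hfin.fg_top
  have hint : ∀ q : Q, IsIntegral E (algebraMap Q K q) := by
    intro q
    have h1 : IsIntegral (Polynomial k) q := Algebra.IsIntegral.isIntegral q
    have h2 : IsIntegral (Polynomial k) (algebraMap Q K q) := h1.algebraMap
    exact h2.tower_top
  set S : Set K := algebraMap Q K '' (s : Set Q) with hS
  haveI : Finite S := (s.finite_toSet.image _)
  haveI hfd : FiniteDimensional E (IntermediateField.adjoin E S) := by
    refine IntermediateField.finiteDimensional_adjoin ?_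
    rintro _ ⟨q, -, rfl⟩
    exact hint q
  have htop : IntermediateField.adjoin E S = ⊤ := by
    rw [eq_top_iff]
    intro y _
    have hQ : ∀ q : Q, algebraMap Q K q ∈ IntermediateField.adjoin E S := by
      intro q
      have hq : q ∈ Submodule.span (Polynomial k) (s : Set Q) := by rw [hs]; trivial
      induction hq using Submodule.span_induction with
      | mem z hz => exact IntermediateField.subset_adjoin E S ⟨z, hz, rfl⟩
      | zero => rw [map_zero]; exact zero_mem _
      | add a b _ _ ha hb => rw [map_add]; exact add_mem ha hb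
      | smul p a _ ha =>
        rw [Algebra.smul_def, map_mul]
        refine mul_mem ?_ ha
        have h3 : algebraMap Q K (algebraMap (Polynomial k) Q p)
            = algebraMap E K (algebraMap (Polynomial k) E p) := by
          rw [← IsScalarTower.algebraMap_apply, ← IsScalarTower.algebraMap_apply]
        rw [h3]
        exact (IntermediateField.adjoin E S).algebraMap_mem _
    obtain ⟨a, b, -, hab⟩ := IsFractionRing.div_surjective (A := Q) y
    rw [← hab]
    exact div_mem (hQ a) (hQ b)
  rw [htop] at hfd
  exact LinearEquiv.finiteDimensional (IntermediateField.topEquiv (F := E) (E := K)).toLinearEquiv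

end

section

variable {k : Type*} [Field k] [IsAlgClosed k] [CharZero k]

theorem finite_planes {K : Type*} [Field K] [Algebra k K] (U : Submodule k K)
    [FiniteDimensional k U] (h1 : (1 : K) ∈ U) : (Planes k U).Finite := by
  classical
  have hUfg : U.FG := (Submodule.fg_iff_finiteDimensional U).2 inferInstance
  set R : Subalgebra k K := Algebra.adjoin k (U : Set K) with hR
  have hUR : ∀ u ∈ U, u ∈ R := fun u hu => Algebra.subset_adjoin hu
  haveI hRft : Algebra.FiniteType k R := by
    obtain ⟨s, hs⟩ := hUfg
    have h2 : R = Algebra.adjoin k (s : Set K) := by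
      rw [hR, ← hs, Algebra.adjoin_span]
    rw [h2]
    exact (Subalgebra.fg_iff_finiteType _).1 ⟨s, rfl⟩
  set UR : Submodule k R := U.comap R.val.toLinearMap with hURdef
  have hURmap : UR.map R.val.toLinearMap = U := by
    rw [hURdef, Submodule.map_comap_eq]
    refine inf_eq_right.2 fun u hu => ⟨⟨u, hUR u hu⟩, rfl⟩
  have hURfg : UR.FG := by
    have hinj : Function.Injective R.val.toLinearMap := Subtype.val_injective
    refine Submodule.fg_of_fg_map_injective _ hinj ?_
    rw [hURmap]; exact hUfg
  obtain ⟨P, hP, hPU, ψ, hψ⟩ := curve_section UR hURfg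
  haveI : IsDomain (R ⧸ P) := Ideal.Quotient.isDomain P
  let K' := FractionRing (R ⧸ P)
  have hK' : IsCurveField k K' := isCurveField_fractionRing ψ hψ K'
  let π : R →ₐ[k] K' := (IsScalarTower.toAlgHom k (R ⧸ P) K').comp (Ideal.Quotient.mkₐ k P)
  have hπ0 : ∀ u ∈ UR, π u = 0 → u = 0 := by
    intro u hu h0
    apply hPU u hu
    have h2 : algebraMap (R ⧸ P) K' (Ideal.Quotient.mk P u) = 0 := h0
    rw [FaithfulSMul.algebraMap_eq_zero_iff] at h2
    exact Ideal.Quotient.eq_zero_iff_mem.1 h2
  let U' : Submodule k K' := UR.map π.toLinearMap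
  haveI hU'fd : FiniteDimensional k U' :=
    (Submodule.fg_iff_finiteDimensional _).1 (hURfg.map _)
  have h1' : (1 : K') ∈ U' := ⟨1, h1, map_one π⟩
  -- growth
  obtain ⟨c, hc⟩ : ∃ c : ℕ, ∀ d : ℕ, Module.finrank k ↥(U' ^ d) ≤ c * (d + 1) := by
    let φ : MvPolynomial (Fin 1) k →ₐ[k] R ⧸ P :=
      ψ.comp (MvPolynomial.aeval fun _ => Polynomial.X)
    have hφ : φ.toRingHom.Finite := by
      have hsurj : Function.Surjective (MvPolynomial.aeval (R := k)
          (fun _ : Fin 1 => (Polynomial.X : Polynomial k))) := by
        intro p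
        induction p using Polynomial.induction_on' with
        | add p q hp hq =>
          obtain ⟨a, rfl⟩ := hp
          obtain ⟨b, rfl⟩ := hq
          exact ⟨a + b, map_add _ _ _⟩
        | monomial n a =>
          refine ⟨MvPolynomial.C a * MvPolynomial.X 0 ^ n, ?_⟩
          rw [map_mul, map_pow, aeval_X, aeval_C, ← Polynomial.C_mul_X_pow_eq_monomial]
          rfl
      have h2 : φ.toRingHom = ψ.toRingHom.comp (MvPolynomial.aeval (R := k)
          (fun _ : Fin 1 => (Polynomial.X : Polynomial k))).toRingHom := rfl
      rw [h2]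
      exact hψ.comp (RingHom.Finite.of_surjective _ hsurj)
    let M : Submodule k (R ⧸ P) := UR.map (Ideal.Quotient.mkₐ k P).toLinearMap
    have hMfg : M.FG := hURfg.map _
    obtain ⟨c, hc⟩ := growth φ hφ M hMfg
    refine ⟨c, fun d => ?_⟩
    have h3 : U' = M.map (IsScalarTower.toAlgHom k (R ⧸ P) K').toLinearMap := by
      simp only [U', M, π]
      rw [← Submodule.map_comp]
      rfl
    have h4 : U' ^ d = (M ^ d).map (IsScalarTower.toAlgHom k (R ⧸ P) K').toLinearMap := by
      rw [h3]
      exact (Submodule.map_pow M (IsScalarTower.toAlgHom k (R ⧸ P) K') d).symm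
    rw [h4]
    haveI : FiniteDimensional k ↥(M ^ d) :=
      (Submodule.fg_iff_finiteDimensional _).1 (hMfg.pow _)
    have h5 := Submodule.finrank_map_le (IsScalarTower.toAlgHom k (R ⧸ P) K').toLinearMap (M ^ d)
    have h6 := hc d
    rw [pow_one] at h6
    exact h5.trans h6
  have hfin' := finite_planes_curve hK' U' h1' hc
  -- transfer
  let τ : Submodule k K → Submodule k K' := fun V => (V.comap R.val.toLinearMap).map π.toLinearMap
  have hVU : ∀ V ∈ Planes k U, V ≤ U := by
    rintro _ ⟨x, hxU, -, -, rfl⟩
    rw [Submodule.span_le]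
    intro y hy
    simp only [Set.mem_insert_iff, Set.mem_singleton_iff] at hy
    rcases hy with rfl | rfl | rfl
    · exact h1
    · exact hxU 0
    · exact hxU 1
  refine Set.Finite.of_finite_image (f := τ) (hfin'.subset ?_) ?_
  · rintro _ ⟨V, hV, rfl⟩
    have hVU' := hVU V hV
    obtain ⟨x, hxU, ⟨i₀, hi₀⟩, ⟨F, hF, hFx⟩, rfl⟩ := hV
    let x' : Fin 2 → R := fun i => ⟨x i, hUR _ (hxU i)⟩
    have hx'F : aeval x' F = 0 := by
      apply Subtype.val_injective
      have h2 : R.val (aeval x' F) = aeval x F := by
        rw [← AlgHom.comp_apply, comp_aeval]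
        rfl
      exact h2.trans hFx
    refine ⟨fun i => π (x' i), fun i => ⟨x' i, hxU i, rfl⟩, ⟨i₀, ?_⟩, ⟨F, hF, ?_⟩, ?_⟩
    · rintro ⟨a, ha⟩
      apply hi₀
      refine ⟨a, ?_⟩
      have h2 : x' i₀ - algebraMap k R a = 0 := by
        apply hπ0
        · show x i₀ - algebraMap k K a ∈ U
          refine U.sub_mem (hxU i₀) ?_
          rw [Algebra.algebraMap_eq_smul_one]
          exact U.smul_mem _ h1
        · rw [map_sub, AlgHom.commutes, ha, sub_self]
      have h3 := congrArg (Subtype.val) h2
      have h4 : x i₀ - algebraMap k K a = 0 := h3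
      exact (sub_eq_zero.1 h4).symm
    · have h2 : aeval (fun i => π (x' i)) F = π (aeval x' F) := by
        rw [← AlgHom.comp_apply, comp_aeval]
      rw [h2, hx'F, map_zero]
    · show (Submodule.comap R.val.toLinearMap (Submodule.span k {1, x 0, x 1})).map π.toLinearMap
        = _
      have h2 : Submodule.comap R.val.toLinearMap (Submodule.span k {1, x 0, x 1})
          = Submodule.span k ({1, x' 0, x' 1} : Set R) := by
        have hinj : Function.Injective R.val.toLinearMap := Subtype.val_injective
        have h3 : Submodule.span k ({1, x 0, x 1} : Set K)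
            = (Submodule.span k ({1, x' 0, x' 1} : Set R)).map R.val.toLinearMap := by
          rw [Submodule.map_span, Set.image_insert_eq, Set.image_insert_eq, Set.image_singleton]
          rfl
        rw [h3, Submodule.comap_map_eq_of_injective hinj]
      rw [h2, Submodule.map_span, Set.image_insert_eq, Set.image_insert_eq, Set.image_singleton]
      congr 2
      exact map_one π
  · -- injectivity
    have key : ∀ V ≤ U, ∀ V' ≤ U, τ V = τ V' → V ≤ V' := by
      intro V hV V' hV' h v hv
      let v' : R := ⟨v, hUR v (hV hv)⟩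
      have h2 : π v' ∈ τ V := ⟨v', hv, rfl⟩
      rw [h] at h2
      obtain ⟨w, hw, hwv⟩ := h2
      have h3 : w - v' = 0 := by
        apply hπ0
        · show (w : K) - v ∈ U
          exact U.sub_mem (hV' hw) (hV hv)
        · rw [map_sub, sub_eq_zero]; exact hwv
      rw [sub_eq_zero] at h3
      have h4 : (w : K) = v := congrArg Subtype.val h3
      have h5 : (w : K) ∈ V' := hw
      rwa [h4] at h5
    intro V hV V' hV' h
    exact le_antisymm (key V (hVU V hV) V' (hVU V' hV') h)
      (key V' (hVU V' hV') V (hVU V hV) h.symm)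

end

end MP60829e.S
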