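import Mathlib

/-! Task G: polynomial growth of powers of a finite-dimensional subspace in a ring that is finite
over a polynomial ring. -/

open MvPolynomial Pointwise

namespace MP60829e.S

section G

variable {k : Type*} [Field k]

lemma sub_mul_left {R : Type*} [CommRing R] [Algebra k R] {A B C : Submodule k R} (h : A ≤ B) :
    A * C ≤ B * C := mul_le_mul' h le_rfl

lemma sub_mul_right {R : Type*} [CommRing R] [Algebra k R] {A B C : Submodule k R} (h : A ≤ B) :
    C * A ≤ C * B := mul_le_mul' le_rfl h

/-- Polynomials all of whose exponents are at most `e`. -/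
noncomputable def box (k : Type*) [Field k] (r e : ℕ) : Submodule k (MvPolynomial (Fin r) k) :=
  Submodule.span k {p | ∃ s : Fin r →₀ ℕ, (∀ i, s i ≤ e) ∧ p = monomial s 1}

lemma monomial_mem_box {r e : ℕ} {s : Fin r →₀ ℕ} (hs : ∀ i, s i ≤ e) :
    (monomial s (1 : k)) ∈ box k r e := Submodule.subset_span ⟨s, hs, rfl⟩

lemma box_mono {r : ℕ} {a b : ℕ} (h : a ≤ b) : box k r a ≤ box k r b := by
  apply Submodule.span_mono
  rintro p ⟨s, hs, rfl⟩
  exact ⟨s, fun i => (hs i).trans h, rfl⟩

lemma box_mul_box {r : ℕ} (a b : ℕ) : box k r a * box k r b ≤ box k r (a + b) := by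
  rw [box, box, Submodule.span_mul_span, Submodule.span_le]
  rintro p ⟨x, ⟨s, hs, rfl⟩, y, ⟨t, ht, rfl⟩, rfl⟩
  simp only [monomial_mul, mul_one]
  exact monomial_mem_box (fun i => by simpa using Nat.add_le_add (hs i) (ht i))

lemma one_mem_box (r e : ℕ) : (1 : MvPolynomial (Fin r) k) ∈ box k r e := by
  have := monomial_mem_box (k := k) (r := r) (e := e) (s := 0) (by simp)
  simpa using this

lemma box_pow {r : ℕ} (a d : ℕ) : (box k r a) ^ d ≤ box k r (a * d) := by
  induction d with
  | zero =>
    rw [pow_zero]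
    exact Submodule.one_le.2 (one_mem_box r _)
  | succ d ih =>
    rw [pow_succ, Nat.mul_succ]
    exact (sub_mul_left ih).trans (box_mul_box _ _)

lemma exists_mem_box {r : ℕ} (p : MvPolynomial (Fin r) k) : ∃ e, p ∈ box k r e := by
  classical
  refine ⟨p.totalDegree, ?_⟩
  have key : ∑ v ∈ p.support, monomial v (coeff v p) ∈ box k r p.totalDegree := by
    refine Submodule.sum_mem _ fun s hs => ?_
    have : monomial s (coeff s p) = (coeff s p) • monomial s (1 : k) := by
      simp [smul_monomial]
    rw [this]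
    refine Submodule.smul_mem _ _ (monomial_mem_box fun i => ?_)
    refine le_trans ?_ (le_totalDegree hs)
    rw [Finsupp.sum_fintype _ _ (by simp)]
    exact Finset.single_le_sum (f := fun i => s i) (fun _ _ => Nat.zero_le _) (Finset.mem_univ i)
  rwa [← p.as_sum] at key

/-- The box is spanned by a finite set of at most `(e+1)^r` elements. -/
lemma box_eq_span (r e : ℕ) : ∃ S : Finset (MvPolynomial (Fin r) k),
    S.card ≤ (e + 1) ^ r ∧ box k r e = Submodule.span k (S : Set (MvPolynomial (Fin r) k)) := by
  classical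
  refine ⟨Finset.univ.image fun f : Fin r → Fin (e + 1) =>
    monomial (Finsupp.equivFunOnFinite.symm fun i => (f i : ℕ)) (1 : k), ?_, ?_⟩
  · refine Finset.card_image_le.trans ?_
    simp
  · rw [box]
    congr 1
    ext p
    simp only [Finset.coe_image, Finset.coe_univ, Set.image_univ, Set.mem_range, Set.mem_ofPred_eq]
    constructor
    · rintro ⟨s, hs, rfl⟩
      refine ⟨fun i => ⟨s i, Nat.lt_succ_of_le (hs i)⟩, ?_⟩
      congr 1
      ext i
      simp
    · rintro ⟨f, rfl⟩
      exact ⟨_, fun i => by simpa using Nat.le_of_lt_succ (f i).2, rfl⟩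

/-- G. Polynomial growth. -/
theorem growth {R : Type*} [CommRing R] [Algebra k R] {r : ℕ}
    (φ : MvPolynomial (Fin r) k →ₐ[k] R) (hφ : φ.toRingHom.Finite)
    (M : Submodule k R) (hM : M.FG) :
    ∃ C : ℕ, ∀ d : ℕ, Module.finrank k ↥(M ^ d) ≤ C * (d + 1) ^ r := by
  classical
  -- module generators
  obtain ⟨T, hT⟩ : ∃ T : Finset R, ∀ x : R, ∃ e, x ∈ (box k r e).map φ.toLinearMap *
      Submodule.span k (T : Set R) := by
    let _ : Algebra (MvPolynomial (Fin r) k) R := φ.toRingHom.toAlgebra
    have hfin : Module.Finite (MvPolynomial (Fin r) k) R := hφ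
    obtain ⟨T, hT⟩ := hfin.fg_top
    refine ⟨T, fun x => ?_⟩
    have hx : x ∈ Submodule.span (MvPolynomial (Fin r) k) (T : Set R) := by
      rw [hT]; trivial
    refine Submodule.span_induction (p := fun x _ => ∃ e, x ∈ (box k r e).map φ.toLinearMap *
      Submodule.span k (T : Set R)) ?_ ?_ ?_ ?_ hx
    · intro x hx
      refine ⟨0, ?_⟩
      have h1 : (1 : R) ∈ (box k r 0).map φ.toLinearMap :=
        ⟨1, one_mem_box r 0, by simp⟩
      simpa using Submodule.mul_mem_mul h1 (Submodule.subset_span hx)
    · exact ⟨0, Submodule.zero_mem _⟩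
    · rintro x y _ _ ⟨e, he⟩ ⟨f, hf⟩
      refine ⟨max e f, Submodule.add_mem _ ?_ ?_⟩
      · exact sub_mul_left (Submodule.map_mono (box_mono (le_max_left _ _))) he
      · exact sub_mul_left (Submodule.map_mono (box_mono (le_max_right _ _))) hf
    · rintro a x _ ⟨e, he⟩
      obtain ⟨f, hf⟩ := exists_mem_box a
      refine ⟨f + e, ?_⟩
      have h1 : φ a * x ∈ (box k r f).map φ.toLinearMap * ((box k r e).map φ.toLinearMap *
          Submodule.span k (T : Set R)) :=
        Submodule.mul_mem_mul ⟨a, hf, rfl⟩ he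
      rw [← mul_assoc, ← Submodule.map_mul] at h1
      exact sub_mul_left (Submodule.map_mono (box_mul_box f e)) h1
  -- put one in the generators
  set G : Submodule k R := Submodule.span k ((insert 1 T : Finset R) : Set R) with hG
  have hTG : Submodule.span k (T : Set R) ≤ G :=
    Submodule.span_mono (by simp)
  have h1G : (1 : R) ∈ G := Submodule.subset_span (by simp)
  obtain ⟨c, hc⟩ : ∃ c, M * G ≤ (box k r c).map φ.toLinearMap * G := by
    obtain ⟨S, rfl⟩ := hM
    have key : ∀ x : R, ∃ e, x ∈ (box k r e).map φ.toLinearMap * G := fun x => by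
      obtain ⟨e, he⟩ := hT x
      exact ⟨e, sub_mul_right hTG he⟩
    choose e he using key
    refine ⟨(S ×ˢ (insert 1 T)).sup fun p => e (p.1 * p.2), ?_⟩
    rw [hG, Submodule.span_mul_span, Submodule.span_le]
    rintro x ⟨m, hm, t, ht, rfl⟩
    have hle : e (m * t) ≤ (S ×ˢ (insert 1 T)).sup fun p => e (p.1 * p.2) := by
      refine Finset.le_sup (f := fun p : R × R => e (p.1 * p.2)) (b := (m, t)) ?_
      exact Finset.mem_product.2 ⟨hm, ht⟩
    exact sub_mul_left (Submodule.map_mono (box_mono hle)) (he (m * t))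
  have hpow : ∀ d : ℕ, M ^ d * G ≤ (box k r (c * d)).map φ.toLinearMap * G := by
    intro d
    induction d with
    | zero =>
      rw [pow_zero, one_mul]
      have h1 : (1 : Submodule k R) ≤ (box k r (c * 0)).map φ.toLinearMap :=
        Submodule.one_le.2 ⟨1, one_mem_box r _, by simp⟩
      calc G = 1 * G := (one_mul _).symm
        _ ≤ _ := sub_mul_left h1
    | succ d ih =>
      calc M ^ (d + 1) * G = M ^ d * (M * G) := by rw [pow_succ, mul_assoc]
        _ ≤ M ^ d * ((box k r c).map φ.toLinearMap * G) := sub_mul_right hc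
        _ = (box k r c).map φ.toLinearMap * (M ^ d * G) := by
          rw [← mul_assoc, ← mul_assoc, mul_comm (M ^ d)]
        _ ≤ (box k r c).map φ.toLinearMap * ((box k r (c * d)).map φ.toLinearMap * G) :=
          sub_mul_right ih
        _ = (box k r c * box k r (c * d)).map φ.toLinearMap * G := by
          rw [Submodule.map_mul, mul_assoc]
        _ ≤ _ := by
          refine sub_mul_left (Submodule.map_mono ((box_mul_box _ _).trans ?_))
          exact box_mono (by rw [Nat.mul_succ, add_comm])
  refine ⟨(c + 1) ^ r * (insert 1 T : Finset R).card, fun d => ?_⟩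
  obtain ⟨S, hS, hbox⟩ := box_eq_span (k := k) r (c * d)
  have hle : M ^ d ≤ Submodule.span k
      (((S.image φ) * (insert 1 T) : Finset R) : Set R) := by
    calc M ^ d = M ^ d * 1 := (mul_one _).symm
      _ ≤ M ^ d * G := sub_mul_right (Submodule.one_le.2 h1G)
      _ ≤ _ := hpow d
      _ = _ := by
        rw [hbox, Submodule.map_span, hG, Submodule.span_mul_span]
        congr 1
        rw [Finset.coe_mul, Finset.coe_image]
        rfl
  have : FiniteDimensional k (Submodule.span k
      (((S.image φ) * (insert 1 T) : Finset R) : Set R)) :=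
    FiniteDimensional.span_finset k _
  calc Module.finrank k ↥(M ^ d) ≤ Module.finrank k (Submodule.span k
      (((S.image φ) * (insert 1 T) : Finset R) : Set R)) := Submodule.finrank_mono hle
    _ ≤ ((S.image φ) * (insert 1 T)).card := finrank_span_finset_le_card _
    _ ≤ (S.image φ).card * (insert 1 T : Finset R).card := Finset.card_mul_le
    _ ≤ S.card * (insert 1 T : Finset R).card :=
      Nat.mul_le_mul_right _ Finset.card_image_le
    _ ≤ (c * d + 1) ^ r * (insert 1 T : Finset R).card := Nat.mul_le_mul_right _ hS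
    _ ≤ ((c + 1) * (d + 1)) ^ r * (insert 1 T : Finset R).card := by
      refine Nat.mul_le_mul_right _ (Nat.pow_le_pow_left ?_ r)
      nlinarith [Nat.zero_le c, Nat.zero_le d]
    _ = (c + 1) ^ r * (insert 1 T : Finset R).card * (d + 1) ^ r := by
      rw [mul_pow]; ring

end G

end MP60829e.S
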