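import Mathlib
import Pool.Agent.Lib.MP_60829e_nt.S.General

/-! Passage from `k`-planes to `ℚ`-planes for Theorem S of MP_60829e_nt. -/

open MvPolynomial

namespace MP60829e.S

lemma mem_span_of_dep {K : Type*} [Field K] [Algebra ℚ K] {k : Type*} [Field k] [Algebra k K]
    (W : Submodule ℚ K)
    (hB : ∀ l : Fin 3 → K, (∀ i, l i ∈ W) → LinearIndependent ℚ l →
      ∀ (c : k) (b : Fin 3 → k), algebraMap k K c + ∑ i, b i • l i = 0 → ∀ i, b i = 0)
    (m : Fin 2 → K) (hm : ∀ i, m i ∈ W) (hmi : LinearIndependent ℚ m)
    (z : K) (hz : z ∈ W) (hzs : z ∈ Submodule.span k ({1, m 0, m 1} : Set K)) :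
    z ∈ Submodule.span ℚ (Set.range m) := by
  by_contra hnot
  have hli : LinearIndependent ℚ (Fin.snoc m z : Fin 3 → K) :=
    LinearIndependent.finSnoc hmi hnot
  rw [Submodule.mem_span_insert] at hzs
  obtain ⟨c, w, hw, hzc⟩ := hzs
  rw [Submodule.mem_span_pair] at hw
  obtain ⟨a, b, hw⟩ := hw
  have h1 := hB (Fin.snoc m z : Fin 3 → K) (by
    intro i
    refine Fin.lastCases ?_ (fun j => ?_) i
    · rw [Fin.snoc_last]; exact hz
    · rw [Fin.snoc_castSucc]; exact hm j) hli c (Fin.snoc ![a, b] (-1) : Fin 3 → k) (by
    rw [Fin.sum_univ_castSucc]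
    simp only [Fin.snoc_castSucc, Fin.snoc_last, Fin.sum_univ_two, Matrix.cons_val_zero,
      Matrix.cons_val_one]
    rw [hzc, ← hw, neg_smul, one_smul, Algebra.smul_def c (1 : K), mul_one]
    ring)
  have h2 := h1 (Fin.last 2)
  rw [Fin.snoc_last] at h2
  simp at h2

theorem rat_planes {k : Type*} [Field k] [IsAlgClosed k] [CharZero k] {K : Type*} [Field K]
    [Algebra k K] [Algebra ℚ K] (W : Submodule ℚ K) [FiniteDimensional ℚ W]
    (hT : ∀ z ∈ W, z ≠ 0 → z ∉ Set.range (algebraMap k K))
    (hB : ∀ l : Fin 3 → K, (∀ i, l i ∈ W) → LinearIndependent ℚ l →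
      ∀ (c : k) (b : Fin 3 → k), algebraMap k K c + ∑ i, b i • l i = 0 → ∀ i, b i = 0) :
    {V : Submodule ℚ K | V ≤ W ∧ ∃ l : Fin 2 → K, LinearIndependent ℚ l ∧
      V = Submodule.span ℚ (Set.range l) ∧
      ∃ F : MvPolynomial (Fin 2) k, Good F ∧ aeval l F = 0}.Finite := by
  classical
  -- the finite-dimensional space over `k`
  obtain ⟨s, hs⟩ := (Submodule.fg_iff_finiteDimensional W).mpr inferInstance
  let U : Submodule k K := Submodule.span k (insert 1 (s : Set K))
  have hUfin : FiniteDimensional k U := by
    apply FiniteDimensional.span_of_finite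
    exact (s.finite_toSet).insert 1
  have h1U : (1 : K) ∈ U := Submodule.subset_span (Set.mem_insert _ _)
  have hWU : ∀ z ∈ W, z ∈ U := by
    intro z hz
    rw [← hs] at hz
    refine Submodule.span_induction (p := fun w _ => w ∈ U) ?_ ?_ ?_ ?_ hz
    · intro x hx
      exact Submodule.subset_span (Set.mem_insert_of_mem _ hx)
    · exact Submodule.zero_mem _
    · intro x y _ _ hx hy
      exact Submodule.add_mem _ hx hy
    · intro q x _ hx
      have h3 : q • x = (algebraMap ℚ k q) • x := by
        rw [Algebra.smul_def, Algebra.smul_def]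
        congr 1
        simp
      rw [h3]
      exact Submodule.smul_mem _ _ hx
  have hfin := finite_planes U h1U
  refine Set.Finite.of_finite_image (f := fun V : Submodule ℚ K =>
    Submodule.span k (insert 1 (V : Set K))) (hfin.subset ?_) ?_
  · rintro _ ⟨V, ⟨hVW, l, hl, hVl, F, hF, hFl⟩, rfl⟩
    have hlW : ∀ i, l i ∈ W := fun i => hVW (by rw [hVl]; exact Submodule.subset_span ⟨i, rfl⟩)
    refine ⟨l, fun i => hWU _ (hlW i), ⟨0, hT _ (hlW 0) (hl.ne_zero 0)⟩, ⟨F, hF, hFl⟩, ?_⟩
    apply le_antisymm
    · apply Submodule.span_le.mpr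
      intro z hz
      rcases hz with rfl | hz
      · exact Submodule.subset_span (Set.mem_insert _ _)
      · rw [hVl] at hz
        refine Submodule.span_induction
          (p := fun w _ => w ∈ Submodule.span k ({1, l 0, l 1} : Set K)) ?_ ?_ ?_ ?_ hz
        · rintro _ ⟨i, rfl⟩
          fin_cases i
          · exact Submodule.subset_span (by simp)
          · exact Submodule.subset_span (by simp)
        · exact Submodule.zero_mem _
        · intro x y _ _ hx hy
          exact Submodule.add_mem _ hx hy
        · intro q x _ hx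
          have h3 : q • x = (algebraMap ℚ k q) • x := by
            rw [Algebra.smul_def, Algebra.smul_def]
            congr 1
            simp
          rw [h3]
          exact Submodule.smul_mem _ _ hx
    · apply Submodule.span_mono
      intro z hz
      rcases hz with rfl | rfl | rfl
      · exact Set.mem_insert _ _
      · exact Set.mem_insert_of_mem _ (by
          rw [hVl]; exact Submodule.subset_span ⟨0, rfl⟩)
      · exact Set.mem_insert_of_mem _ (by
          rw [hVl]; exact Submodule.subset_span ⟨1, rfl⟩)
  · -- injectivity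
    have key : ∀ V V' : Submodule ℚ K, V ≤ W → V' ≤ W →
        (∃ l : Fin 2 → K, LinearIndependent ℚ l ∧ V' = Submodule.span ℚ (Set.range l)) →
        Submodule.span k (insert 1 (V : Set K)) = Submodule.span k (insert 1 (V' : Set K)) →
        V ≤ V' := by
      rintro V V' hV hV' ⟨m, hm, hVm⟩ heq z hz
      have hmW : ∀ i, m i ∈ W := fun i => hV' (by rw [hVm]; exact Submodule.subset_span ⟨i, rfl⟩)
      rw [hVm]
      refine mem_span_of_dep W hB m hmW hm z (hV hz) ?_
      have h1 : z ∈ Submodule.span k (insert 1 (V' : Set K)) := by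
        rw [← heq]
        exact Submodule.subset_span (Set.mem_insert_of_mem _ hz)
      have h2 : Submodule.span k (insert 1 (V' : Set K)) ≤
          Submodule.span k ({1, m 0, m 1} : Set K) := by
        apply Submodule.span_le.mpr
        intro w hw
        rcases hw with rfl | hw
        · exact Submodule.subset_span (Set.mem_insert _ _)
        · rw [hVm] at hw
          refine Submodule.span_induction
            (p := fun w _ => w ∈ Submodule.span k ({1, m 0, m 1} : Set K)) ?_ ?_ ?_ ?_ hw
          · rintro _ ⟨i, rfl⟩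
            fin_cases i
            · exact Submodule.subset_span (by simp)
            · exact Submodule.subset_span (by simp)
          · exact Submodule.zero_mem _
          · intro x y _ _ hx hy
            exact Submodule.add_mem _ hx hy
          · intro q x _ hx
            have h3 : q • x = (algebraMap ℚ k q) • x := by
              rw [Algebra.smul_def, Algebra.smul_def]
              congr 1
              simp
            rw [h3]
            exact Submodule.smul_mem _ _ hx
      exact h2 h1
    rintro V ⟨hV, l, hl, hVl, -⟩ V' ⟨hV', l', hl', hVl', -⟩ heq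
    exact le_antisymm (key V V' hV hV' ⟨l', hl', hVl'⟩ heq)
      (key V' V hV' hV ⟨l, hl, hVl⟩ heq.symm)

end MP60829e.S
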