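import Pool.Agent.Lib.MP_60829e_nt.S.Defs

/-! Linear normality of a smooth plane curve (core, with the facts on binary forms as
hypotheses). -/

open MvPolynomial

namespace MP60829e.S

section Comp

variable {k : Type*} [Field k]

lemma hc_mul_of_le {P Q : MvPolynomial (Fin 2) k} {m n : ℕ} (hP : P.totalDegree ≤ m)
    (hQ : Q.totalDegree ≤ n) :
    homogeneousComponent (m + n) (P * Q) =
      homogeneousComponent m P * homogeneousComponent n Q := by
  classical
  ext d
  rw [coeff_homogeneousComponent, coeff_mul, coeff_mul]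
  have hdeg : ∀ p ∈ Finset.HasAntidiagonal.antidiagonal d,
      p.1.degree + p.2.degree = d.degree := by
    intro p hp
    rw [Finset.HasAntidiagonal.mem_antidiagonal] at hp
    rw [← hp, map_add]
  split_ifs with hd
  · refine Finset.sum_congr rfl fun p hp => ?_
    have h1 := hdeg p hp
    rw [coeff_homogeneousComponent, coeff_homogeneousComponent]
    by_cases h2 : p.1.degree = m
    · have h3 : p.2.degree = n := by omega
      rw [if_pos h2, if_pos h3]
    · rw [if_neg h2, zero_mul]
      rcases lt_or_gt_of_ne h2 with h3 | h3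
      · have h4 : n < p.2.degree := by omega
        have : coeff p.2 Q = 0 := by
          apply coeff_eq_zero_of_totalDegree_lt
          have : p.2.degree = ∑ i ∈ p.2.support, p.2 i := rfl
          omega
        rw [this, mul_zero]
      · have : coeff p.1 P = 0 := by
          apply coeff_eq_zero_of_totalDegree_lt
          have : p.1.degree = ∑ i ∈ p.1.support, p.1 i := rfl
          omega
        rw [this, zero_mul]
  · symm
    refine Finset.sum_eq_zero fun p hp => ?_
    have h1 := hdeg p hp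
    rw [coeff_homogeneousComponent, coeff_homogeneousComponent]
    by_cases h2 : p.1.degree = m
    · have h3 : p.2.degree ≠ n := by omega
      rw [if_neg h3, mul_zero]
    · rw [if_neg h2, zero_mul]

/-- If `F` divides a polynomial of degree at most `N`, its leading form divides the component of
degree `N`. -/
lemma lead_dvd_hc {F Q : MvPolynomial (Fin 2) k} {N : ℕ} (hQ : Q.totalDegree ≤ N) (h : F ∣ Q) :
    homogeneousComponent F.totalDegree F ∣ homogeneousComponent N Q := by
  obtain ⟨G, rfl⟩ := h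
  by_cases h0 : F * G = 0
  · rw [h0, map_zero]; exact dvd_zero _
  rw [totalDegree_mul_of_isDomain (left_ne_zero_of_mul h0) (right_ne_zero_of_mul h0)] at hQ
  obtain ⟨e, he⟩ := Nat.exists_eq_add_of_le hQ
  have : N = F.totalDegree + (G.totalDegree + e) := by omega
  rw [this, hc_mul_of_le le_rfl (Nat.le_add_right _ _)]
  exact dvd_mul_right _ _

lemma hc_X_pow (j : Fin 2) (n : ℕ) :
    homogeneousComponent n (X j ^ n : MvPolynomial (Fin 2) k) = X j ^ n :=
  homogeneousComponent_eq_self (isHomogeneous_X_pow j n)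

lemma totalDegree_le_pred {P : MvPolynomial (Fin 2) k} {e : ℕ} (h : P.totalDegree ≤ e + 1)
    (h0 : homogeneousComponent (e + 1) P = 0) : P.totalDegree ≤ e := by
  rw [totalDegree, Finset.sup_le_iff] at h ⊢
  intro d hd
  have h1 := h d hd
  by_contra h2
  have h3 : d.degree = e + 1 := by
    have : d.degree = ∑ i ∈ d.support, d i := rfl
    simp only [Finsupp.sum] at h1 h2
    omega
  have h4 : coeff d (homogeneousComponent (e + 1) P) = 0 := by rw [h0, coeff_zero]
  rw [coeff_homogeneousComponent, if_pos h3] at h4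
  exact (mem_support_iff.mp hd) h4

end Comp

section Place

variable {k E : Type*} [Field k] [Field E] [Algebra k E]

/-- The relation `s` has value `c` at the point at infinity `a`. -/
def Rel (x : Fin 2 → E) (a : Fin 2 → k) (j : Fin 2) (s : E) (c : k) : Prop :=
  ∃ (N : ℕ) (Q : MvPolynomial (Fin 2) k), Q.totalDegree ≤ N ∧ s = aeval x Q * ((x j)⁻¹) ^ N ∧
    c = eval a (homogeneousComponent N Q) * ((a j)⁻¹) ^ N

variable {x : Fin 2 → E} {a : Fin 2 → k} {j : Fin 2}

lemma Rel.const (c : k) : Rel x a j (algebraMap k E c) c :=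
  ⟨0, C c, by simp, by simp, by simp⟩

lemma Rel.mul {s s' : E} {c c' : k} (h : Rel x a j s c) (h' : Rel x a j s' c') :
    Rel x a j (s * s') (c * c') := by
  obtain ⟨N, Q, hQ, rfl, rfl⟩ := h
  obtain ⟨N', Q', hQ', rfl, rfl⟩ := h'
  refine ⟨N + N', Q * Q', (totalDegree_mul _ _).trans (add_le_add hQ hQ'), ?_, ?_⟩
  · rw [map_mul]; ring
  · rw [hc_mul_of_le hQ hQ', map_mul]; ring

lemma Rel.neg {s : E} {c : k} (h : Rel x a j s c) : Rel x a j (-s) (-c) := by
  have := (Rel.const (x := x) (a := a) (j := j) (-1 : k)).mul h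
  simpa using this

lemma Rel.add (hx : x j ≠ 0) (ha : a j ≠ 0) {s s' : E} {c c' : k} (h : Rel x a j s c)
    (h' : Rel x a j s' c') : Rel x a j (s + s') (c + c') := by
  obtain ⟨N, Q, hQ, rfl, rfl⟩ := h
  obtain ⟨N', Q', hQ', rfl, rfl⟩ := h'
  have h1 : (Q * X j ^ N').totalDegree ≤ N + N' :=
    (totalDegree_mul _ _).trans (add_le_add hQ (totalDegree_X_pow j N').le)
  have h2 : (X j ^ N * Q').totalDegree ≤ N + N' :=
    (totalDegree_mul _ _).trans (add_le_add (totalDegree_X_pow j N).le hQ')
  have h3 : (x j) ^ N * ((x j)⁻¹) ^ N = 1 := by rw [← mul_pow, mul_inv_cancel₀ hx, one_pow]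
  have h4 : (x j) ^ N' * ((x j)⁻¹) ^ N' = 1 := by rw [← mul_pow, mul_inv_cancel₀ hx, one_pow]
  have h5 : (a j) ^ N * ((a j)⁻¹) ^ N = 1 := by rw [← mul_pow, mul_inv_cancel₀ ha, one_pow]
  have h6 : (a j) ^ N' * ((a j)⁻¹) ^ N' = 1 := by rw [← mul_pow, mul_inv_cancel₀ ha, one_pow]
  refine ⟨N + N', Q * X j ^ N' + X j ^ N * Q', (totalDegree_add _ _).trans (max_le h1 h2), ?_, ?_⟩
  · rw [map_add, map_mul, map_mul, map_pow, map_pow, aeval_X, pow_add]
    linear_combination (-(aeval x Q * ((x j)⁻¹) ^ N)) * h4 +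
      (-(aeval x Q' * ((x j)⁻¹) ^ N')) * h3
  · rw [map_add, hc_mul_of_le hQ (totalDegree_X_pow j N').le,
      hc_mul_of_le (totalDegree_X_pow j N).le hQ', hc_X_pow, hc_X_pow, map_add, map_mul, map_mul,
      map_pow, map_pow, eval_X, pow_add]
    linear_combination (-(eval a (homogeneousComponent N Q) * ((a j)⁻¹) ^ N)) * h6 +
      (-(eval a (homogeneousComponent N' Q') * ((a j)⁻¹) ^ N')) * h5

lemma exists_place {F : MvPolynomial (Fin 2) k} (x : Fin 2 → E)
    (hker : ∀ G : MvPolynomial (Fin 2) k, aeval x G = 0 → F ∣ G)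
    (a : Fin 2 → k) (ha : eval a (homogeneousComponent F.totalDegree F) = 0) (j : Fin 2)
    (hj : a j ≠ 0) (hxj : x j ≠ 0) :
    ∃ O : ValuationSubring E, Over k O ∧ ∀ s : E, Rel x a j s 0 → s ∈ O.nonunits := by
  let A : Subring E :=
    { carrier := {s | ∃ c, Rel x a j s c}
      mul_mem' := fun {s s'} h h' => by
        obtain ⟨c, hc⟩ := h
        obtain ⟨c', hc'⟩ := h'
        exact ⟨_, hc.mul hc'⟩
      one_mem' := ⟨1, by simpa using Rel.const (x := x) (a := a) (j := j) (1 : k)⟩
      add_mem' := fun {s s'} h h' => by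
        obtain ⟨c, hc⟩ := h
        obtain ⟨c', hc'⟩ := h'
        exact ⟨_, hc.add hxj hj hc'⟩
      zero_mem' := ⟨0, by simpa using Rel.const (x := x) (a := a) (j := j) (0 : k)⟩
      neg_mem' := fun {s} h => by
        obtain ⟨c, hc⟩ := h
        exact ⟨_, hc.neg⟩ }
  let I : Ideal A :=
    { carrier := {s | Rel x a j (s : E) 0}
      add_mem' := fun {s s'} h h' => by
        have := Rel.add hxj hj h h'
        simpa using this
      zero_mem' := by simpa using Rel.const (x := x) (a := a) (j := j) (0 : k)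
      smul_mem' := fun r s h => by
        obtain ⟨c, hc⟩ := r.2
        have := hc.mul h
        simpa using this }
  have hI : I ≠ ⊤ := by
    intro h
    have h1 : Rel x a j ((1 : A) : E) 0 := (Ideal.eq_top_iff_one I).mp h
    obtain ⟨N, Q, hQ, h2, h3⟩ := h1
    have h4 : aeval x (Q - X j ^ N) = 0 := by
      rw [map_sub, map_pow, aeval_X, sub_eq_zero]
      have h5 : (x j) ^ N ≠ 0 := pow_ne_zero _ hxj
      have h6 : (1 : E) = aeval x Q * ((x j)⁻¹) ^ N := h2
      rw [inv_pow, eq_mul_inv_iff_mul_eq₀ h5, one_mul] at h6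
      exact h6.symm
    have h5 : (Q - X j ^ N).totalDegree ≤ N :=
      (totalDegree_sub _ _).trans (max_le hQ (totalDegree_X_pow j N).le)
    obtain ⟨G, hG⟩ := lead_dvd_hc h5 (hker _ h4)
    rw [map_sub, hc_X_pow] at hG
    have h6 := congrArg (eval a) hG
    rw [map_mul, ha, zero_mul, map_sub, map_pow, eval_X] at h6
    have h7 : eval a (homogeneousComponent N Q) = 0 := by
      rcases mul_eq_zero.mp h3.symm with h | h
      · exact h
      · exact absurd h (pow_ne_zero _ (inv_ne_zero hj))
    rw [h7, zero_sub, neg_eq_zero] at h6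
    exact pow_ne_zero _ hj h6
  obtain ⟨O, hO, hO'⟩ := Ideal.image_subset_nonunits_valuationSubring I hI
  refine ⟨O, fun c => hO ⟨c, Rel.const c⟩, fun s hs => hO' ⟨⟨s, 0, hs⟩, hs, rfl⟩⟩

/-- A nonconstant element bounded by the coordinates has a leading form vanishing at infinity. -/
lemma hc_eval_eq_zero {F : MvPolynomial (Fin 2) k} (x : Fin 2 → E)
    (hker : ∀ G : MvPolynomial (Fin 2) k, aeval x G = 0 → F ∣ G)
    (hx : ∀ j, x j ≠ 0) {z : E} (hz : ∀ O : ValuationSubring E, Over k O → Bdd O x z)
    {H : MvPolynomial (Fin 2) k} {e : ℕ} (hH : H.totalDegree ≤ e + 2) (hHz : aeval x H = z)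
    (a : Fin 2 → k) (ha : eval a (homogeneousComponent F.totalDegree F) = 0) :
    eval a (homogeneousComponent (e + 2) H) = 0 := by
  by_cases h0 : ∃ j, a j ≠ 0
  · obtain ⟨j, hj⟩ := h0
    obtain ⟨O, hO, hO'⟩ := exists_place x hker a ha j hj (hx j)
    have hu : (x j)⁻¹ ∈ O.nonunits := hO' _ ⟨1, 1, by simp, by simp, by
      rw [homogeneousComponent_eq_zero _ _ (by simp)]; simp⟩
    rw [ValuationSubring.mem_nonunits_iff] at hu
    have hxi : ∀ i, x i * (x j)⁻¹ ∈ O := by
      intro i
      have h1 : Rel x a j (x i * (x j)⁻¹) (a i * (a j)⁻¹) :=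
        ⟨1, X i, by simp, by simp, by
          rw [homogeneousComponent_eq_self (isHomogeneous_X _ i)]; simp⟩
      have h2 := h1.add (hx j) hj (Rel.const (-(a i * (a j)⁻¹)))
      rw [add_neg_cancel] at h2
      have h3 := ValuationSubring.nonunits_subset (hO' _ h2)
      have h4 : x i * (x j)⁻¹ = (x i * (x j)⁻¹ + algebraMap k E (-(a i * (a j)⁻¹))) +
          algebraMap k E (a i * (a j)⁻¹) := by
        rw [map_neg]; ring
      rw [h4]
      exact add_mem h3 (hO _)
    have hzu : z * (x j)⁻¹ ∈ O := by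
      obtain ⟨α, β, γ, hα, hβ, hγ, rfl⟩ := hz O hO
      have h1 : (α + β * x 0 + γ * x 1) * (x j)⁻¹ =
        α * (x j)⁻¹ + β * (x 0 * (x j)⁻¹) + γ * (x 1 * (x j)⁻¹) := by ring
      rw [h1]
      refine add_mem (add_mem (mul_mem hα ?_) (mul_mem hβ (hxi 0))) (mul_mem hγ (hxi 1))
      rw [← ValuationSubring.valuation_le_one_iff]
      exact hu.le
    have hzn : O.valuation (z * ((x j)⁻¹) ^ (e + 2)) < 1 := by
      have h1 : z * ((x j)⁻¹) ^ (e + 2) = (z * (x j)⁻¹) * ((x j)⁻¹) ^ e * (x j)⁻¹ := by ring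
      rw [h1, map_mul]
      refine mul_lt_one_of_nonneg_of_lt_one_right ?_ zero_le hu
      rw [ValuationSubring.valuation_le_one_iff]
      refine mul_mem hzu (pow_mem ?_ _)
      rw [← ValuationSubring.valuation_le_one_iff]
      exact hu.le
    set c : k := eval a (homogeneousComponent (e + 2) H) * ((a j)⁻¹) ^ (e + 2) with hc
    have h1 : Rel x a j (z * ((x j)⁻¹) ^ (e + 2)) c := ⟨e + 2, H, hH, by rw [hHz], rfl⟩
    have h2 := h1.add (hx j) hj (Rel.const (-c))
    rw [add_neg_cancel] at h2
    have h3 := hO' _ h2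
    rw [ValuationSubring.mem_nonunits_iff] at h3
    have h4 : O.valuation (algebraMap k E c) < 1 := by
      have h5 : algebraMap k E c = z * ((x j)⁻¹) ^ (e + 2) -
        (z * ((x j)⁻¹) ^ (e + 2) + algebraMap k E (-c)) := by
        rw [map_neg]; ring
      rw [h5]
      exact Valuation.map_sub_lt _ hzn h3
    by_contra hne
    have hc0 : c ≠ 0 := mul_ne_zero hne (pow_ne_zero _ (inv_ne_zero hj))
    have h6 : O.valuation (algebraMap k E c⁻¹) ≤ 1 :=
      (ValuationSubring.valuation_le_one_iff _ _).mpr (hO _)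
    have h7 : O.valuation (algebraMap k E c) * O.valuation (algebraMap k E c⁻¹) = 1 := by
      rw [← map_mul, ← map_mul, mul_inv_cancel₀ hc0, map_one, map_one]
    have h8 : O.valuation (algebraMap k E c) * O.valuation (algebraMap k E c⁻¹) < 1 :=
      mul_lt_one_of_lt_of_le h4 h6
    exact absurd h7 h8.ne
  · push Not at h0
    have : a = 0 := funext h0
    rw [this]
    have h1 := (homogeneousComponent_isHomogeneous (e + 2) H)
    rw [eval_zero]
    exact h1.coeff_eq_zero (by simp)

lemma mem_span_of_degree_le_one {x : Fin 2 → E} {H : MvPolynomial (Fin 2) k}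
    (hH : H.totalDegree ≤ 1) : aeval x H ∈ Submodule.span k ({1, x 0, x 1} : Set E) := by
  rw [aeval_def, eval₂_eq']
  refine Submodule.sum_mem _ fun d hd => ?_
  rw [totalDegree, Finset.sup_le_iff] at hH
  have h1 := hH d hd
  have h2 : d 0 + d 1 ≤ 1 := by
    rw [Finsupp.sum_fintype _ _ (by simp)] at h1
    simpa using h1
  rw [Fin.prod_univ_two, ← Algebra.smul_def]
  refine Submodule.smul_mem _ _ (Submodule.subset_span ?_)
  have h3 : (d 0 = 0 ∧ d 1 = 0) ∨ (d 0 = 1 ∧ d 1 = 0) ∨ (d 0 = 0 ∧ d 1 = 1) := by omega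
  rcases h3 with ⟨h, h'⟩ | ⟨h, h'⟩ | ⟨h, h'⟩ <;> simp [h, h']

lemma complete_descent {F : MvPolynomial (Fin 2) k} (x : Fin 2 → E) (hxF : aeval x F = 0)
    (hker : ∀ G : MvPolynomial (Fin 2) k, aeval x G = 0 → F ∣ G)
    (hdvd : ∀ H : MvPolynomial (Fin 2) k,
      (∀ a : Fin 2 → k, eval a (homogeneousComponent F.totalDegree F) = 0 → eval a H = 0) →
      homogeneousComponent F.totalDegree F ∣ H)
    (hx : ∀ j, x j ≠ 0) {z : E} (hz : ∀ O : ValuationSubring E, Over k O → Bdd O x z) (e : ℕ) :
    ∀ H : MvPolynomial (Fin 2) k, H.totalDegree ≤ e → aeval x H = z →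
      z ∈ Submodule.span k ({1, x 0, x 1} : Set E) := by
  induction e with
  | zero =>
    intro H hH hHz
    rw [← hHz]
    exact mem_span_of_degree_le_one (hH.trans zero_le_one)
  | succ e ih =>
    intro H hH hHz
    rcases e with _ | e
    · rw [← hHz]
      exact mem_span_of_degree_le_one hH
    have h1 : homogeneousComponent F.totalDegree F ∣ homogeneousComponent (e + 2) H :=
      hdvd _ fun a ha => hc_eval_eq_zero x hker hx hz hH hHz a ha
    by_cases h0 : homogeneousComponent (e + 2) H = 0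
    · exact ih H (totalDegree_le_pred hH h0) hHz
    obtain ⟨q, hq⟩ := h1
    have hl0 : homogeneousComponent F.totalDegree F ≠ 0 := by
      intro h; rw [h, zero_mul] at hq; exact h0 hq
    have hq0 : q ≠ 0 := by
      intro h; rw [h, mul_zero] at hq; exact h0 hq
    have hld : (homogeneousComponent F.totalDegree F).totalDegree = F.totalDegree :=
      (homogeneousComponent_isHomogeneous _ _).totalDegree hl0
    have hdeg : F.totalDegree + q.totalDegree = e + 2 := by
      have h2 := (homogeneousComponent_isHomogeneous (e + 2) H).totalDegree h0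
      rw [hq, totalDegree_mul_of_isDomain hl0 hq0, hld] at h2
      exact h2
    have h3 : homogeneousComponent (e + 2) H =
        homogeneousComponent F.totalDegree F * homogeneousComponent q.totalDegree q := by
      have h4 := homogeneousComponent_eq_self (homogeneousComponent_isHomogeneous (e + 2) H)
      rw [← h4]
      conv_lhs => rw [hq]
      rw [← hdeg, hc_mul_of_le hld.le le_rfl,
        homogeneousComponent_eq_self (homogeneousComponent_isHomogeneous _ _)]
    refine ih (H - F * homogeneousComponent q.totalDegree q) ?_ ?_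
    · have h5 : (homogeneousComponent q.totalDegree q).totalDegree ≤ q.totalDegree :=
        (homogeneousComponent_isHomogeneous _ _).totalDegree_le
      refine totalDegree_le_pred ((totalDegree_sub _ _).trans (max_le hH ?_)) ?_
      · refine (totalDegree_mul _ _).trans ?_
        omega
      · rw [map_sub, sub_eq_zero]
        have h6 : e + 1 + 1 = F.totalDegree + q.totalDegree := hdeg.symm
        change homogeneousComponent (e + 2) H = _
        rw [h3, h6, hc_mul_of_le le_rfl h5,
          homogeneousComponent_eq_self (homogeneousComponent_isHomogeneous q.totalDegree q)]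
    · rw [map_sub, map_mul, hxF, zero_mul, sub_zero, hHz]

lemma complete_core {F : MvPolynomial (Fin 2) k} (x : Fin 2 → E) (hxF : aeval x F = 0)
    (hdeg : 2 ≤ F.totalDegree)
    (hker : ∀ G : MvPolynomial (Fin 2) k, aeval x G = 0 → F ∣ G)
    (hdvd : ∀ H : MvPolynomial (Fin 2) k,
      (∀ a : Fin 2 → k, eval a (homogeneousComponent F.totalDegree F) = 0 → eval a H = 0) →
      homogeneousComponent F.totalDegree F ∣ H)
    (hint : IsIntegrallyClosed (MvPolynomial (Fin 2) k ⧸ Ideal.span {F}))
    (hgen : IntermediateField.adjoin k (Set.range x) = ⊤) (z : E)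
    (hz : ∀ O : ValuationSubring E, Over k O → Bdd O x z) :
    z ∈ Submodule.span k ({1, x 0, x 1} : Set E) := by
  have hF0 : F ≠ 0 := by
    rintro rfl
    simp at hdeg
  have hx : ∀ j, x j ≠ 0 := by
    intro j hj
    obtain ⟨G, hG⟩ := hker (X j) (by rw [aeval_X, hj])
    have h1 : G ≠ 0 := by
      rintro rfl
      rw [mul_zero] at hG
      exact X_ne_zero j hG
    have h2 := congrArg totalDegree hG
    rw [totalDegree_X, totalDegree_mul_of_isDomain hF0 h1] at h2
    omega
  let R0 : Subalgebra k E := (aeval x : MvPolynomial (Fin 2) k →ₐ[k] E).range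
  have hadj : Algebra.adjoin k (Set.range x) = R0 := Algebra.adjoin_range_eq_range_aeval k x
  have hfrac : IsFractionRing R0 E := by
    refine IsFractionRing.of_field _ _ fun w => ?_
    have hw : w ∈ IntermediateField.adjoin k (Set.range x) := by rw [hgen]; trivial
    obtain ⟨r, hr, s, hs, h⟩ := IntermediateField.mem_adjoin_iff_div.mp hw
    rw [hadj] at hr hs
    exact ⟨⟨r, hr⟩, ⟨s, hs⟩, h⟩
  have hkereq : RingHom.ker (aeval x : MvPolynomial (Fin 2) k →ₐ[k] E).rangeRestrict =
      Ideal.span {F} := by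
    ext G
    rw [RingHom.mem_ker, Ideal.mem_span_singleton]
    constructor
    · intro h
      exact hker G (congrArg Subtype.val h)
    · rintro ⟨G, rfl⟩
      refine Subtype.ext ?_
      change aeval x (F * G) = 0
      rw [map_mul, hxF, zero_mul]
  let eq1 : (MvPolynomial (Fin 2) k ⧸ Ideal.span {F}) ≃+* R0 :=
    (Ideal.quotEquivOfEq hkereq.symm).trans
      (RingHom.quotientKerEquivOfSurjective (f := ((aeval x :
        MvPolynomial (Fin 2) k →ₐ[k] E).rangeRestrict : MvPolynomial (Fin 2) k →+* R0))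
        (AlgHom.rangeRestrict_surjective _))
  have hint' : IsIntegrallyClosed R0 := IsIntegrallyClosed.of_equiv eq1
  have hin : IsIntegrallyClosedIn R0 E := (isIntegrallyClosed_iff_isIntegrallyClosedIn E).mp hint'
  have hzR : z ∈ R0 := by
    by_contra hzR
    have hin' : IsIntegrallyClosedIn R0.toSubring E := hin
    obtain ⟨V, hV, hzV⟩ := Subring.exists_le_valuationSubring_of_isIntegrallyClosedIn
      (R := R0.toSubring) (x := z) hzR
    have hVk : Over k V := fun c => hV (R0.algebraMap_mem c)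
    have hVx : ∀ i, x i ∈ V := fun i => hV ⟨X i, aeval_X _ _⟩
    obtain ⟨α, β, γ, hα, hβ, hγ, rfl⟩ := hz V hVk
    exact hzV (add_mem (add_mem hα (mul_mem hβ (hVx 0))) (mul_mem hγ (hVx 1)))
  obtain ⟨H, hH⟩ := hzR
  exact complete_descent x hxF hker hdvd hx hz _ H le_rfl hH

end Place

end MP60829e.S
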